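import Pool.Agent.Work.MP_ebd05c_an.H.Defs
import Pool.Agent.Work.MP_ebd05c_an.D.Pert
import Pool.Agent.Work.MP_ebd05c_an.Nagy

set_option autoImplicit false

open scoped BigOperators ENNReal Topology ComplexConjugate
open Finset Filter Polynomial

/-!
Classes of operators; the positive part of the dichotomy (Sz.-Nagy) and spectrum_subset are taken
from the landed hand-in Dichotomy.
-/

namespace Pool.Agent.Work.MP_ebd05c_an.H

section defs
variable {H : Type*} [NormedAddCommGroup H] [InnerProductSpace ℂ H]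

/-- class `C_11`, as in the problem -/
def IsC11 [CompleteSpace H] (T : H →L[ℂ] H) : Prop :=
  ∀ h : H, h ≠ 0 → ¬ Tendsto (fun n : ℕ => ‖(T ^ n) h‖) atTop (𝓝 0) ∧
    ¬ Tendsto (fun n : ℕ => ‖((ContinuousLinearMap.adjoint T) ^ n) h‖) atTop (𝓝 0)

/-- similarity to a contraction -/
def SimilarToContraction (T : H →L[ℂ] H) : Prop :=
  ∃ S : H ≃L[ℂ] H, ‖(S : H →L[ℂ] H).comp (T.comp (S.symm : H →L[ℂ] H))‖ ≤ 1

/-- similarity to a unitary operator -/
def SimilarToUnitary [CompleteSpace H] (T : H →L[ℂ] H) : Prop :=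
  ∃ S : H ≃L[ℂ] H, (S : H →L[ℂ] H).comp (T.comp (S.symm : H →L[ℂ] H)) ∈ unitary (H →L[ℂ] H)

/-- Operators of class `C_11` with `‖T ^ n‖ ≤ 1 + ε` for all `n`, and with
`‖T ^ n x‖ ≥ c n ‖x‖` for all `x` and all large `n`. -/
structure Cls [CompleteSpace H] (ε : ℝ) (c : ℕ → ℝ) (T : H →L[ℂ] H) : Prop where
  c11 : IsC11 T
  pow_le : ∀ n : ℕ, ‖T ^ n‖ ≤ 1 + ε
  low : ∀ᶠ n in atTop, ∀ x : H, c n * ‖x‖ ≤ ‖(T ^ n) x‖

/-- Members of the class `Cls` on a separable space which are unitary plus compact of norm at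
most `ε`, have spectrum in the unit circle, satisfy a lower estimate for all `n`, and are
polynomially bounded with constant `1 + ε`. -/
structure Special [CompleteSpace H] (ε : ℝ) (c : ℕ → ℝ) (T : H →L[ℂ] H) : Prop where
  cls : Cls ε c T
  sep : TopologicalSpace.SeparableSpace H
  pert : ∃ U K : H →L[ℂ] H, T = U + K ∧ U ∈ unitary (H →L[ℂ] H) ∧ IsCompactOperator K ∧ ‖K‖ ≤ ε
  spec : spectrum ℂ T ⊆ Metric.sphere 0 1
  low_all : ∀ (n : ℕ) (x : H), min (1 / (1 + ε)) (c n) * ‖x‖ ≤ ‖(T ^ n) x‖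
  poly : ∀ p : ℂ[X], (∀ z : ℂ, ‖z‖ ≤ 1 → ‖p.eval z‖ ≤ 1) → ‖aeval T p‖ ≤ 1 + ε

end defs

/-- the sequence has positive upper limit -/
def LimsupPos (c : ℕ → ℝ) : Prop := ∃ δ : ℝ, 0 < δ ∧ ∃ᶠ n in atTop, δ ≤ c n

/-- the positive part -/
theorem positive {H : Type*} [NormedAddCommGroup H] [InnerProductSpace ℂ H] [CompleteSpace H]
    (T : H →L[ℂ] H) (c : ℕ → ℝ) (hc : LimsupPos c) (M : ℝ) (hM : ∀ n : ℕ, ‖T ^ n‖ ≤ M)
    (hC : IsC11 T) (hlow : ∀ᶠ n in atTop, ∀ x : H, c n * ‖x‖ ≤ ‖(T ^ n) x‖) :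
    SimilarToUnitary T := by
  obtain ⟨δ, hδ, hfr⟩ := hc
  have hM1 : 0 < max M 1 := lt_max_of_lt_right one_pos
  -- uniform lower bounds
  have hlow' : ∀ n : ℕ, ∀ x : H, δ / max M 1 * ‖x‖ ≤ ‖(T ^ n) x‖ := by
    intro n x
    obtain ⟨m, hm1, hm2, hm3⟩ := (hfr.and_eventually (hlow.and (eventually_ge_atTop n))).exists
    have h1 : T ^ m = T ^ (m - n) * T ^ n := by
      rw [← pow_add]
      congr 1
      omega
    have h2 : ‖(T ^ m) x‖ ≤ max M 1 * ‖(T ^ n) x‖ := by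
      rw [h1]
      exact ((T ^ (m - n)).le_opNorm _).trans
        (mul_le_mul_of_nonneg_right ((hM _).trans (le_max_left _ _)) (norm_nonneg _))
    have h3 : δ * ‖x‖ ≤ ‖(T ^ m) x‖ :=
      (mul_le_mul_of_nonneg_right hm1 (norm_nonneg _)).trans (hm2 x)
    rw [div_mul_eq_mul_div, div_le_iff₀ hM1]
    linarith
  have hδ' : 0 < δ / max M 1 := by positivity
  -- surjectivity
  have hanti : AntilipschitzWith ⟨(δ / max M 1)⁻¹, by positivity⟩ T := by
    apply AddMonoidHomClass.antilipschitz_of_bound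
    intro x
    have := hlow' 1 x
    rw [pow_one] at this
    show ‖x‖ ≤ (δ / max M 1)⁻¹ * ‖T x‖
    rw [← div_eq_inv_mul, le_div_iff₀ hδ']
    linarith
  have hclosed : IsClosed (Set.range T) := hanti.isClosed_range T.uniformContinuous
  have hsurj : Function.Surjective T := by
    have h1 : (LinearMap.range T.toLinearMap)ᗮ = ⊥ := by
      rw [Submodule.eq_bot_iff]
      intro y hy
      by_contra hne
      apply (hC y hne).2
      have h2 : ContinuousLinearMap.adjoint T y = 0 := by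
        apply ext_inner_right ℂ
        intro z
        rw [ContinuousLinearMap.adjoint_inner_left, inner_zero_left]
        rw [Submodule.mem_orthogonal'] at hy
        exact hy (T z) ⟨z, rfl⟩
      have h3 : ∀ n : ℕ, 1 ≤ n → ‖((ContinuousLinearMap.adjoint T) ^ n) y‖ = 0 := by
        intro n hn
        obtain ⟨m, rfl⟩ := Nat.exists_eq_add_of_le hn
        rw [add_comm, pow_succ, mul_apply_eq_comp, h2, map_zero, norm_zero]
      exact tendsto_const_nhds.congr' (by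
        filter_upwards [eventually_ge_atTop 1] with n hn
        exact (h3 n hn).symm)
    have h2 : (LinearMap.range T.toLinearMap : Submodule ℂ H) = ⊤ := by
      have h3 : (LinearMap.range T.toLinearMap).topologicalClosure = ⊤ :=
        Submodule.topologicalClosure_eq_top_iff.2 h1
      have h4 : IsClosed ((LinearMap.range T.toLinearMap : Submodule ℂ H) : Set H) := by
        have : ((LinearMap.range T.toLinearMap : Submodule ℂ H) : Set H) = Set.range T := by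
          ext y
          simp
        rw [this]
        exact hclosed
      rw [← h3, h4.submodule_topologicalClosure_eq]
    intro y
    have : y ∈ (LinearMap.range T.toLinearMap : Submodule ℂ H) := by rw [h2]; trivial
    obtain ⟨x, hx⟩ := this
    exact ⟨x, hx⟩
  obtain ⟨S, hS⟩ := nagy T M _ hM hδ' hlow'
  refine ⟨S, D.mem_unitary_of _ ?_ ?_⟩
  · intro x
    show ‖S (T (S.symm x))‖ = ‖x‖
    rw [hS, S.apply_symm_apply]
  · intro y
    obtain ⟨x, hx⟩ := hsurj (S.symm y)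
    refine ⟨S x, ?_⟩
    show S (T (S.symm (S x))) = y
    rw [S.symm_apply_apply, hx, S.apply_symm_apply]

lemma spectrum_subset {H : Type*} [NormedAddCommGroup H] [InnerProductSpace ℂ H]
    [CompleteSpace H] (T R : H →L[ℂ] H) (h1 : T * R = 1) (h2 : R * T = 1) (M C : ℝ)
    (hM : ∀ n : ℕ, ‖T ^ n‖ ≤ M) (hR : ∀ n : ℕ, ‖R ^ n‖ ≤ C * ((n : ℝ) + 1)) :
    spectrum ℂ T ⊆ Metric.sphere 0 1 := by
  have key : ∀ (A : H →L[ℂ] H) (C : ℝ), (∀ n : ℕ, ‖A ^ n‖ ≤ C * ((n : ℝ) + 1)) →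
      ∀ z ∈ spectrum ℂ A, ‖z‖ ≤ 1 := by
    intro A C hA z hz
    by_contra hc
    push Not at hc
    have hC0 : 0 ≤ C := by
      have := (norm_nonneg _).trans (hA 0)
      simpa using this
    have h3 : ∀ n : ℕ, ‖z‖ ^ n ≤ C * ((n : ℝ) + 1) := by
      intro n
      have h4 := spectrum.norm_le_norm_mul_of_mem (spectrum.pow_mem_pow A n hz)
      rw [norm_pow] at h4
      have h5 : ‖(1 : H →L[ℂ] H)‖ ≤ 1 := ContinuousLinearMap.norm_id_le
      calc ‖z‖ ^ n ≤ ‖A ^ n‖ * ‖(1 : H →L[ℂ] H)‖ := h4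
        _ ≤ ‖A ^ n‖ * 1 := by gcongr
        _ ≤ _ := by rw [mul_one]; exact hA n
    have h6 : Tendsto (fun n : ℕ => (n : ℝ) ^ 1 * (‖z‖⁻¹) ^ n) atTop (𝓝 0) :=
      tendsto_pow_const_mul_const_pow_of_abs_lt_one 1 (by
        rw [abs_of_nonneg (by positivity)]
        exact inv_lt_one_of_one_lt₀ hc)
    have h7 : Tendsto (fun n : ℕ => (‖z‖⁻¹) ^ n) atTop (𝓝 0) :=
      tendsto_pow_atTop_nhds_zero_of_lt_one (by positivity) (inv_lt_one_of_one_lt₀ hc)
    have h8 : Tendsto (fun n : ℕ => C * ((n : ℝ) ^ 1 * (‖z‖⁻¹) ^ n + (‖z‖⁻¹) ^ n)) atTop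
        (𝓝 (C * (0 + 0))) := (h6.add h7).const_mul C
    have h9 : ∀ n : ℕ, 1 ≤ C * ((n : ℝ) ^ 1 * (‖z‖⁻¹) ^ n + (‖z‖⁻¹) ^ n) := by
      intro n
      have h10 := h3 n
      have h11 : 0 < ‖z‖ ^ n := by positivity
      rw [inv_pow, pow_one]
      have h12 : C * ((n : ℝ) * (‖z‖ ^ n)⁻¹ + (‖z‖ ^ n)⁻¹) = C * ((n : ℝ) + 1) / ‖z‖ ^ n := by
        field_simp
      rw [h12, le_div_iff₀ h11]
      linarith
    have h10 := ge_of_tendsto' h8 h9
    norm_num at h10
  intro z hz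
  rw [mem_sphere_zero_iff_norm]
  apply le_antisymm
  · apply key T M _ z hz
    intro n
    have h3 : 0 ≤ M := (norm_nonneg _).trans (hM 0)
    have h4 : (0 : ℝ) ≤ n := by positivity
    nlinarith [hM n, mul_nonneg h3 h4]
  · let u : (H →L[ℂ] H)ˣ := ⟨T, R, h1, h2⟩
    have h3 : z⁻¹ ∈ spectrum ℂ R := by
      have h4 : z⁻¹⁻¹ ∈ spectrum ℂ (u : H →L[ℂ] H) := by rwa [inv_inv]
      exact (spectrum.inv₀_mem_iff (a := u)).1 h4
    have h5 := key R C hR _ h3
    rw [norm_inv] at h5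
    by_cases h6 : z = 0
    · exfalso
      rw [h6] at hz
      have h7 := spectrum.zero_notMem (R := ℂ) (a := T) u.isUnit
      exact h7 hz
    · have h7 : 0 < ‖z‖ := norm_pos_iff.2 h6
      rwa [inv_le_one₀ h7] at h5

lemma conj_aeval {H : Type*} [NormedAddCommGroup H] [InnerProductSpace ℂ H]
    (T : H →L[ℂ] H) (S : H ≃L[ℂ] H) (p : ℂ[X]) :
    aeval ((S : H →L[ℂ] H).comp (T.comp (S.symm : H →L[ℂ] H))) p =
      (S : H →L[ℂ] H).comp ((aeval T p).comp (S.symm : H →L[ℂ] H)) := by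
  have hpow : ∀ n : ℕ, ((S : H →L[ℂ] H).comp (T.comp (S.symm : H →L[ℂ] H))) ^ n =
      (S : H →L[ℂ] H).comp ((T ^ n).comp (S.symm : H →L[ℂ] H)) := by
    intro n
    induction n with
    | zero =>
      ext1 x
      simp
    | succ n ih =>
      rw [pow_succ, ih, pow_succ]
      ext1 x
      simp [mul_apply_eq_comp]
  induction p using Polynomial.induction_on' with
  | add p q hp hq =>
    rw [map_add, map_add, hp, hq]
    ext1 x
    simp
  | monomial n a =>
    rw [aeval_monomial, aeval_monomial, hpow, Algebra.algebraMap_eq_smul_one,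
      smul_mul_assoc, one_mul, smul_mul_assoc, one_mul]
    ext1 x
    simp

lemma SimilarToUnitary.contraction {H : Type*} [NormedAddCommGroup H] [InnerProductSpace ℂ H]
    [CompleteSpace H] {T : H →L[ℂ] H} (h : SimilarToUnitary T) : SimilarToContraction T := by
  obtain ⟨S, hS⟩ := h
  refine ⟨S, ?_⟩
  apply ContinuousLinearMap.opNorm_le_bound _ zero_le_one
  intro x
  have h1 := (ContinuousLinearMap.norm_map_iff_adjoint_comp_self
    ((S : H →L[ℂ] H).comp (T.comp (S.symm : H →L[ℂ] H)))).2 (Unitary.mem_iff.1 hS).1 x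
  rw [h1, one_mul]


end Pool.Agent.Work.MP_ebd05c_an.H
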