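import Pool.Agent.Work.MP_ebd05c_an.H.DsC
import Pool.Agent.Work.MP_ebd05c_an.H.Cls

set_option autoImplicit false

open scoped BigOperators ENNReal Topology ComplexConjugate
open Finset Filter Polynomial

/-!
Assembly: the direct sum of a sequence of blocks.
A, B = direct sums of T N, R N (exists_ds); A B = B A = 1; A = U + K with U, K the direct sums.
Lower bound: |x| = |B^n A^n x| <= max (1+ε) (1/b n) |A^n x|. C_11: for x != 0 some component is
not 0; |A^n x| >= |(A^n x) N| = |T N^n x_N| >= |x_N|/Mn N; adjoint: |(T N^n)^* y| >= |y|/Mn N since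
(R N^n)^* (T N^n)^* = (T N^n R N^n)^* = 1 and the norm of the adjoint is the norm. poly: components.
Not similar: if C' = S A S^-1 is a contraction then T N^n = q A^n i = (q S^-1) C'^n (S i) (ds_retract),
so e N sqrt(N+1)/4 <= |S^-1| |S| for all N, contradicting hlarge.
-/

namespace Pool.Agent.Work.MP_ebd05c_an.H

lemma lower_of_inv {G : Type*} [NormedAddCommGroup G] [InnerProductSpace ℂ G] (A B : G →L[ℂ] G)
    (h1 : A * B = 1) (h2 : B * A = 1) (m : ℝ) (n : ℕ) (hB : ‖B ^ n‖ ≤ m) (x : G) :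
    ‖x‖ ≤ m * ‖(A ^ n) x‖ := by
  have hc : Commute B A := by
    show B * A = A * B
    rw [h1, h2]
  have h3 : B ^ n * A ^ n = 1 := by rw [← hc.mul_pow, h2, one_pow]
  have h4 : (B ^ n) ((A ^ n) x) = x := congrArg (fun D : G →L[ℂ] G => D x) h3
  calc ‖x‖ = ‖(B ^ n) ((A ^ n) x)‖ := by rw [h4]
    _ ≤ ‖B ^ n‖ * ‖(A ^ n) x‖ := (B ^ n).le_opNorm _
    _ ≤ m * ‖(A ^ n) x‖ := mul_le_mul_of_nonneg_right hB (norm_nonneg _)

lemma not_tendsto_zero {f : ℕ → ℝ} {a m : ℝ} (ha : 0 < a) (h : ∀ n, a ≤ m * f n) :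
    ¬ Tendsto f atTop (𝓝 0) := by
  intro hf
  have h1 := hf.const_mul m
  rw [mul_zero] at h1
  have h2 := ge_of_tendsto' h1 h
  linarith

lemma bd_pow (n : ℕ) : Bd (X ^ n : ℂ[X]) := by
  intro z hz
  rw [eval_pow, eval_X, norm_pow]
  exact pow_le_one₀ (norm_nonneg _) hz

theorem asm {H : ℕ → Type} [∀ N, NormedAddCommGroup (H N)] [∀ N, InnerProductSpace ℂ (H N)]
    [∀ N, CompleteSpace (H N)] (T R U K : ∀ N, H N →L[ℂ] H N) (ε : ℝ) (hε : 0 < ε)
    (b Mn e kap : ℕ → ℝ) (hb : ∀ n, 0 < b n) (hbt : Tendsto b atTop (𝓝 0))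
    (hb1 : ∀ n : ℕ, 1 / b n ≤ (n : ℝ) + 1)
    (hsep : ∀ N, TopologicalSpace.SeparableSpace (H N)) (hTR : ∀ N, T N * R N = 1)
    (hRT : ∀ N, R N * T N = 1) (hU : ∀ N, U N ∈ unitary (H N →L[ℂ] H N))
    (hTK : ∀ N, T N = U N + K N) (hK : ∀ N, IsCompactOperator (K N))
    (hKn : ∀ N, ‖K N‖ ≤ kap N) (hkap : ∀ N, kap N ≤ ε) (hkt : Tendsto kap atTop (𝓝 0))
    (hRM : ∀ N (n : ℕ), ‖R N ^ n‖ ≤ Mn N) (hRb : ∀ N (n : ℕ), ‖R N ^ n‖ ≤ max (1 + ε) (1 / b n))
    (hpoly : ∀ N (p : ℂ[X]), Bd p → ‖aeval (T N) p‖ ≤ 1 + ε)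
    (hlarge : ∀ C : ℝ, ∃ N, C < e N)
    (hns : ∀ N, ∀ (H' : Type) [NormedAddCommGroup H'] [InnerProductSpace ℂ H'] [CompleteSpace H']
        (C' : H' →L[ℂ] H') (A : H N →L[ℂ] H') (B : H' →L[ℂ] H N), ‖C'‖ ≤ 1 →
        (∀ n : ℕ, T N ^ n = B.comp ((C' ^ n).comp A)) → e N ≤ ‖B‖ * ‖A‖) :
    ∃ A : lp H 2 →L[ℂ] lp H 2, Special ε b A ∧ ¬ SimilarToContraction A := by
  -- the direct sums
  have hTn : ∀ N, ‖T N‖ ≤ 1 + ε := by
    intro N
    have h1 := hpoly N (X ^ 1) (bd_pow 1)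
    simpa using h1
  have hUn : ∀ N, ‖U N‖ ≤ 1 := by
    intro N
    apply ContinuousLinearMap.opNorm_le_bound _ zero_le_one
    intro x
    have h1 := (ContinuousLinearMap.norm_map_iff_adjoint_comp_self (U N)).2
      (Unitary.mem_iff.1 (hU N)).1 x
    rw [h1, one_mul]
  have hRn : ∀ N, ‖R N‖ ≤ max (1 + ε) (1 / b 1) := by
    intro N
    have h1 := hRb N 1
    rwa [pow_one] at h1
  have hmax : ∀ n, 0 < max (1 + ε) (1 / b n) := fun n => lt_max_of_lt_left (by linarith)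
  obtain ⟨A, hA, hAn⟩ := exists_ds T (1 + ε) (by linarith) hTn
  obtain ⟨B, hB, hBn⟩ := exists_ds R _ (hmax 1).le hRn
  obtain ⟨V, hV, hVn⟩ := exists_ds U 1 zero_le_one hUn
  obtain ⟨L, hL, hLn⟩ := exists_ds K ε hε.le (fun N => (hKn N).trans (hkap N))
  have hAB : A * B = 1 := by
    apply ds_ext (ds_mul hA hB)
    have : (fun N => T N * R N) = fun N => (1 : H N →L[ℂ] H N) := funext hTR
    rw [this]
    exact ds_one
  have hBA : B * A = 1 := by
    apply ds_ext (ds_mul hB hA)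
    have : (fun N => R N * T N) = fun N => (1 : H N →L[ℂ] H N) := funext hRT
    rw [this]
    exact ds_one
  have hAVL : A = V + L := by
    apply ds_ext hA
    have : T = fun N => U N + K N := funext hTK
    rw [this]
    exact ds_add hV hL
  have hBpow : ∀ n : ℕ, ‖B ^ n‖ ≤ max (1 + ε) (1 / b n) := fun n =>
    ds_norm_le (ds_pow hB n) _ (hmax n).le (fun N => hRb N n)
  have hpolyA : ∀ p : ℂ[X], Bd p → ‖aeval A p‖ ≤ 1 + ε := fun p hp =>
    ds_norm_le (ds_aeval hA p) _ (by linarith) (fun N => hpoly N p hp)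
  have hApow : ∀ n : ℕ, ‖A ^ n‖ ≤ 1 + ε := by
    intro n
    have h1 := hpolyA (X ^ n) (bd_pow n)
    simpa using h1
  have hlow : ∀ (n : ℕ) (x : lp H 2), min (1 / (1 + ε)) (b n) * ‖x‖ ≤ ‖(A ^ n) x‖ := by
    intro n x
    have h3 := lower_of_inv A B hAB hBA _ n (hBpow n) x
    have h5 : 0 ≤ min (1 / (1 + ε)) (b n) := le_min (by positivity) (hb n).le
    have h6 : min (1 / (1 + ε)) (b n) * max (1 + ε) (1 / b n) ≤ 1 := by
      rcases max_cases (1 + ε) (1 / b n) with ⟨h, _⟩ | ⟨h, _⟩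
      · rw [h]
        calc min (1 / (1 + ε)) (b n) * (1 + ε) ≤ 1 / (1 + ε) * (1 + ε) := by
              gcongr
              exact min_le_left _ _
          _ = 1 := by field_simp
      · rw [h]
        have hb := hb n
        calc min (1 / (1 + ε)) (b n) * (1 / b n) ≤ b n * (1 / b n) := by
              gcongr
              exact min_le_right _ _
          _ = 1 := by field_simp
    calc min (1 / (1 + ε)) (b n) * ‖x‖ ≤
          min (1 / (1 + ε)) (b n) * (max (1 + ε) (1 / b n) * ‖(A ^ n) x‖) := by gcongr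
      _ = (min (1 / (1 + ε)) (b n) * max (1 + ε) (1 / b n)) * ‖(A ^ n) x‖ := by ring
      _ ≤ 1 * ‖(A ^ n) x‖ := by gcongr
      _ = _ := one_mul _
  have hne : ∀ x : lp H 2, x ≠ 0 → ∃ N, (x : ∀ N, H N) N ≠ 0 := by
    intro x hx
    by_contra hcon
    push Not at hcon
    apply hx
    apply lp.ext
    funext N
    rw [hcon N]
    rfl
  refine ⟨A, ⟨⟨?_, hApow, ?_⟩, ds_sep hsep, ⟨V, L, hAVL, ds_unitary hV hU,
    ds_compact hL hK (squeeze_zero (fun N => norm_nonneg _) hKn hkt), hLn⟩, ?_, hlow, ?_⟩, ?_⟩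
  · -- class C_11
    intro x hx
    obtain ⟨N, hN⟩ := hne x hx
    have hpos : 0 < ‖(x : ∀ N, H N) N‖ := norm_pos_iff.2 hN
    constructor
    · apply not_tendsto_zero (m := |Mn N|) hpos
      intro n
      have h1 := lower_of_inv (T N) (R N) (hTR N) (hRT N) _ n
        ((hRM N n).trans (le_abs_self _)) ((x : ∀ N, H N) N)
      have h2 : ((A ^ n) x : ∀ N, H N) N = (T N ^ n) ((x : ∀ N, H N) N) := ds_pow hA n x N
      have h3 : ‖((A ^ n) x : ∀ N, H N) N‖ ≤ ‖(A ^ n) x‖ :=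
        lp.norm_apply_le_norm (by norm_num) _ _
      rw [h2] at h3
      exact h1.trans (mul_le_mul_of_nonneg_left h3 (abs_nonneg _))
    · apply not_tendsto_zero (m := |Mn N|) hpos
      intro n
      have e1 : ContinuousLinearMap.adjoint (T N) * ContinuousLinearMap.adjoint (R N) = 1 := by
        rw [← ContinuousLinearMap.star_eq_adjoint, ← ContinuousLinearMap.star_eq_adjoint,
          ← star_mul, hRT, star_one]
      have e2 : ContinuousLinearMap.adjoint (R N) * ContinuousLinearMap.adjoint (T N) = 1 := by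
        rw [← ContinuousLinearMap.star_eq_adjoint, ← ContinuousLinearMap.star_eq_adjoint,
          ← star_mul, hTR, star_one]
      have e3 : ‖ContinuousLinearMap.adjoint (R N) ^ n‖ ≤ |Mn N| := by
        rw [← ContinuousLinearMap.star_eq_adjoint, ← star_pow, norm_star]
        exact (hRM N n).trans (le_abs_self _)
      have h1 := lower_of_inv _ _ e1 e2 _ n e3 ((x : ∀ N, H N) N)
      have h2 : (((ContinuousLinearMap.adjoint A) ^ n) x : ∀ N, H N) N =
          ((ContinuousLinearMap.adjoint (T N)) ^ n) ((x : ∀ N, H N) N) :=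
        ds_pow (ds_adjoint hA) n x N
      have h3 : ‖(((ContinuousLinearMap.adjoint A) ^ n) x : ∀ N, H N) N‖ ≤
          ‖((ContinuousLinearMap.adjoint A) ^ n) x‖ :=
        lp.norm_apply_le_norm (by norm_num) _ _
      rw [h2] at h3
      exact h1.trans (mul_le_mul_of_nonneg_left h3 (abs_nonneg _))
  · -- growth
    have h1 : ∀ᶠ n in atTop, b n < 1 / (1 + ε) := hbt.eventually (gt_mem_nhds (by positivity))
    filter_upwards [h1] with n hn x
    have h4 := hlow n x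
    rwa [min_eq_right hn.le] at h4
  · -- spectrum
    apply spectrum_subset A B hAB hBA (1 + ε) (1 + ε) hApow
    intro n
    refine (hBpow n).trans (max_le ?_ ?_)
    · have : (0 : ℝ) ≤ n := by positivity
      nlinarith
    · have h1 := hb1 n
      have : (0 : ℝ) ≤ n := by positivity
      nlinarith
  · intro p hp
    exact hpolyA p hp
  · rintro ⟨S, hS⟩
    obtain ⟨N, hN⟩ := hlarge (‖(S.symm : lp H 2 →L[ℂ] lp H 2)‖ * ‖(S : lp H 2 →L[ℂ] lp H 2)‖)
    obtain ⟨i, q, hi, hq, hiq⟩ := ds_retract (H := H) N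
    have h1 := hns N (lp H 2) _ ((S : lp H 2 →L[ℂ] lp H 2).comp i)
      (q.comp (S.symm : lp H 2 →L[ℂ] lp H 2)) hS ?_
    · have h2 : ‖q.comp (S.symm : lp H 2 →L[ℂ] lp H 2)‖ ≤
          ‖(S.symm : lp H 2 →L[ℂ] lp H 2)‖ := by
        refine (ContinuousLinearMap.opNorm_comp_le _ _).trans ?_
        calc ‖q‖ * ‖(S.symm : lp H 2 →L[ℂ] lp H 2)‖ ≤
            1 * ‖(S.symm : lp H 2 →L[ℂ] lp H 2)‖ := by gcongr
          _ = _ := one_mul _
      have h3 : ‖(S : lp H 2 →L[ℂ] lp H 2).comp i‖ ≤ ‖(S : lp H 2 →L[ℂ] lp H 2)‖ := by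
        refine (ContinuousLinearMap.opNorm_comp_le _ _).trans ?_
        calc ‖(S : lp H 2 →L[ℂ] lp H 2)‖ * ‖i‖ ≤ ‖(S : lp H 2 →L[ℂ] lp H 2)‖ * 1 := by gcongr
          _ = _ := mul_one _
      have h4 : ‖q.comp (S.symm : lp H 2 →L[ℂ] lp H 2)‖ *
          ‖(S : lp H 2 →L[ℂ] lp H 2).comp i‖ ≤
          ‖(S.symm : lp H 2 →L[ℂ] lp H 2)‖ * ‖(S : lp H 2 →L[ℂ] lp H 2)‖ := by gcongr
      linarith
    · intro n
      rw [hiq T A hA n]
      have h5 : ((S : lp H 2 →L[ℂ] lp H 2).comp (A.comp (S.symm : lp H 2 →L[ℂ] lp H 2))) ^ n =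
          (S : lp H 2 →L[ℂ] lp H 2).comp ((A ^ n).comp (S.symm : lp H 2 →L[ℂ] lp H 2)) := by
        have h6 := conj_aeval A S (X ^ n)
        simpa using h6
      rw [h5]
      ext1 x
      simp

end Pool.Agent.Work.MP_ebd05c_an.H
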