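import Pool.Agent.Work.MP_ebd05c_an.H.CarM

set_option autoImplicit false

open scoped BigOperators ENNReal Topology ComplexConjugate
open Finset Filter Polynomial

/-!
CAR data: operators on EuclideanSpace from the matrices (Matrix.toEuclideanLin /
toEuclideanCLM of the complex matrix). mat: Cauchy-Schwarz and the norm inequality for a = z
(sum |z_k|^2 = N).
-/

namespace Pool.Agent.Work.MP_ebd05c_an.H

private theorem co_ap {ι : Type} [Fintype ι] [DecidableEq ι] (M : Matrix ι ι ℝ)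
    (x : EuclideanSpace ℂ ι) (i : ι) :
    (Matrix.toEuclideanCLM (n := ι) (𝕜 := ℂ) (M.map (fun t : ℝ => (t : ℂ))) x) i =
      ∑ j, (M i j : ℂ) * x j := rfl

private theorem co_sum {N : ℕ} {ι : Type} [Fintype ι] [DecidableEq ι]
    (C : Fin N → Matrix ι ι ℝ) (a : Fin N → ℂ) (x : EuclideanSpace ℂ ι) (i : ι) :
    (∑ k, a k • (Matrix.toEuclideanCLM (n := ι) (𝕜 := ℂ) ((C k).map (fun t : ℝ => (t : ℂ))) x)) i =
      ∑ j, (∑ k, a k * (C k i j : ℂ)) * x j := by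
  have h1 : (∑ k, a k • (Matrix.toEuclideanCLM (n := ι) (𝕜 := ℂ)
      ((C k).map (fun t : ℝ => (t : ℂ))) x)) i =
      ∑ k, a k * ∑ j, (C k i j : ℂ) * x j := by
    rw [WithLp.ofLp_sum, Finset.sum_apply]
    refine Finset.sum_congr rfl fun k _ => ?_
    rw [PiLp.smul_apply, co_ap, smul_eq_mul]
  rw [h1]
  simp only [Finset.mul_sum, Finset.sum_mul]
  rw [Finset.sum_comm]
  refine Finset.sum_congr rfl fun j _ => Finset.sum_congr rfl fun k _ => ?_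
  ring

theorem exists_cardata (N : ℕ) : ∃ (ι : Type) (_ : Fintype ι) (_ : DecidableEq ι)
    (C : Fin N → (EuclideanSpace ℂ ι →L[ℂ] EuclideanSpace ℂ ι)) (c : Fin N → ι → ι → ℝ),
    CarData N ι C c := by
  obtain ⟨ι, h1, h2, C, hc, hin, hhs⟩ := exists_car N
  refine ⟨ι, h1, h2, fun k => Matrix.toEuclideanCLM (n := ι) (𝕜 := ℂ)
    ((C k).map (fun t : ℝ => (t : ℂ))), fun k i j => C k i j, ?_⟩
  refine ⟨hc, ?_, ?_, hhs, ?_⟩
  · intro a x
    rw [EuclideanSpace.norm_sq_eq, EuclideanSpace.norm_sq_eq]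
    refine le_trans (le_of_eq ?_) (hin a x)
    refine Finset.sum_congr rfl fun i _ => ?_
    rw [co_sum]
  · intro k i j
    rw [co_ap, Finset.sum_eq_single j]
    · rw [PiLp.single_apply, if_pos rfl, mul_one]
    · intro b _ hb
      rw [PiLp.single_apply, if_neg hb, mul_zero]
    · intro h
      exact absurd (Finset.mem_univ _) h
  · intro z hz ξ η
    have e1 : ∑ k, ∑ i, ∑ j, z k * ((C k i j : ℝ) : ℂ) * conj (η i) * ξ j =
        ∑ i, conj (η i) * ∑ j, (∑ k, z k * ((C k i j : ℝ) : ℂ)) * ξ j := by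
      rw [Finset.sum_comm]
      refine Finset.sum_congr rfl fun i _ => ?_
      simp only [Finset.mul_sum, Finset.sum_mul]
      rw [Finset.sum_comm]
      refine Finset.sum_congr rfl fun j _ => Finset.sum_congr rfl fun k _ => ?_
      ring
    have e2 := hin z ξ
    have e3 : ∑ k, ‖z k‖ ^ 2 = (N : ℝ) := by
      have e4 : ∀ k, ‖z k‖ ^ 2 = 1 := fun k => by rw [hz k, one_pow]
      rw [Finset.sum_congr rfl fun k _ => e4 k]
      simp
    rw [e3] at e2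
    rw [e1]
    have e5 : ‖∑ i, conj (η i) * ∑ j, (∑ k, z k * ((C k i j : ℝ) : ℂ)) * ξ j‖ ≤
        ∑ i, ‖η i‖ * ‖∑ j, (∑ k, z k * ((C k i j : ℝ) : ℂ)) * ξ j‖ := by
      refine (norm_sum_le _ _).trans (le_of_eq ?_)
      refine Finset.sum_congr rfl fun i _ => ?_
      rw [norm_mul, RCLike.norm_conj]
    have e6 := Real.sum_mul_le_sqrt_mul_sqrt Finset.univ (fun i => ‖η i‖)
      (fun i => ‖∑ j, (∑ k, z k * ((C k i j : ℝ) : ℂ)) * ξ j‖)
    have e7 : Real.sqrt (∑ i, ‖∑ j, (∑ k, z k * ((C k i j : ℝ) : ℂ)) * ξ j‖ ^ 2) ≤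
        Real.sqrt N * Real.sqrt (∑ i, ‖ξ i‖ ^ 2) := by
      rw [← Real.sqrt_mul (Nat.cast_nonneg N)]
      exact Real.sqrt_le_sqrt e2
    calc ‖∑ i, conj (η i) * ∑ j, (∑ k, z k * ((C k i j : ℝ) : ℂ)) * ξ j‖
        ≤ ∑ i, ‖η i‖ * ‖∑ j, (∑ k, z k * ((C k i j : ℝ) : ℂ)) * ξ j‖ := e5
      _ ≤ Real.sqrt (∑ i, ‖η i‖ ^ 2) *
          Real.sqrt (∑ i, ‖∑ j, (∑ k, z k * ((C k i j : ℝ) : ℂ)) * ξ j‖ ^ 2) := e6
      _ ≤ Real.sqrt (∑ i, ‖η i‖ ^ 2) * (Real.sqrt N * Real.sqrt (∑ i, ‖ξ i‖ ^ 2)) :=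
          mul_le_mul_of_nonneg_left e7 (Real.sqrt_nonneg _)
      _ = Real.sqrt N * Real.sqrt (∑ i, ‖ξ i‖ ^ 2) * Real.sqrt (∑ i, ‖η i‖ ^ 2) := by ring

end Pool.Agent.Work.MP_ebd05c_an.H
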