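import Pool.Agent.Work.MP_ebd05c_an.H.Defs

set_option autoImplicit false

open scoped BigOperators ENNReal Topology ComplexConjugate
open Finset Filter Polynomial

/-!
Weighted permutation operators on square summable families with values in E, and compactness
of operators whose values live on a finite index set.
exists_wop: mkContinuous as for any multiplication operator (Memlp from summability of
norm squares, reindexed by the permutation).
wop_compact: T = sum over j in S of single_j o (evaluation at j) o T; each summand factors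
through the finite dimensional space E (isCompactOperator_of_locallyCompactSpace_dom/rng,
comp lemmas of IsCompactOperator, finite sums).
-/

namespace Pool.Agent.Work.MP_ebd05c_an.H

variable {E : Type} [NormedAddCommGroup E] [InnerProductSpace ℂ E]

private theorem wop_two : (0:ℝ) < (2:ℝ≥0∞).toReal := by norm_num

private theorem wop_bound {J : Type} (σ : J ≃ J) (A : J → (E →L[ℂ] E)) (c : ℝ) (hc : 0 ≤ c)
    (hA : ∀ j, ‖A j‖ ≤ c) (x : LS J E) (j : J) :
    ‖A j ((x : J → E) (σ j))‖ ^ (2:ℝ≥0∞).toReal ≤
      c ^ (2:ℝ≥0∞).toReal * ‖(x : J → E) (σ j)‖ ^ (2:ℝ≥0∞).toReal := by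
  rw [← Real.mul_rpow hc (norm_nonneg _)]
  refine Real.rpow_le_rpow (norm_nonneg _) ?_ wop_two.le
  exact ((A j).le_opNorm _).trans (mul_le_mul_of_nonneg_right (hA j) (norm_nonneg _))

omit [InnerProductSpace ℂ E] in
private theorem wop_summ {J : Type} (σ : J ≃ J) (x : LS J E) :
    Summable (fun j => ‖(x : J → E) (σ j)‖ ^ (2:ℝ≥0∞).toReal) :=
  (Equiv.summable_iff σ).2 ((lp.memℓp x).summable wop_two)

private theorem wop_mem {J : Type} (σ : J ≃ J) (A : J → (E →L[ℂ] E)) (c : ℝ) (hc : 0 ≤ c)
    (hA : ∀ j, ‖A j‖ ≤ c) (x : LS J E) :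
    Memℓp (fun j => A j ((x : J → E) (σ j))) 2 := by
  refine memℓp_gen ?_
  exact Summable.of_nonneg_of_le (fun j => Real.rpow_nonneg (norm_nonneg _) _)
    (wop_bound σ A c hc hA x) ((wop_summ σ x).mul_left _)

theorem exists_wop {J : Type} (σ : J ≃ J) (A : J → (E →L[ℂ] E)) (c : ℝ) (hc : 0 ≤ c)
    (hA : ∀ j, ‖A j‖ ≤ c) :
    ∃ T : LS J E →L[ℂ] LS J E,
      (∀ (x : LS J E) (j : J), (T x : J → E) j = A j ((x : J → E) (σ j))) ∧ ‖T‖ ≤ c := by
  let L : LS J E →ₗ[ℂ] LS J E :=
    { toFun := fun x => ⟨fun j => A j ((x : J → E) (σ j)), wop_mem σ A c hc hA x⟩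
      map_add' := by
        intro x y
        ext j
        simp
      map_smul' := by
        intro a x
        ext j
        simp }
  have hb : ∀ x, ‖L x‖ ≤ c * ‖x‖ := by
    intro x
    have h1 : ‖L x‖ ^ (2:ℝ≥0∞).toReal ≤ (c * ‖x‖) ^ (2:ℝ≥0∞).toReal := by
      have h2 : ∑' j, ‖(x : J → E) j‖ ^ (2:ℝ≥0∞).toReal =
          ∑' j, ‖(x : J → E) (σ j)‖ ^ (2:ℝ≥0∞).toReal :=
        (Equiv.tsum_eq σ (fun j => ‖(x : J → E) j‖ ^ (2:ℝ≥0∞).toReal)).symm
      rw [Real.mul_rpow hc (norm_nonneg _), lp.norm_rpow_eq_tsum wop_two (L x),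
        lp.norm_rpow_eq_tsum wop_two x, h2, ← tsum_mul_left]
      refine Summable.tsum_le_tsum (wop_bound σ A c hc hA x) ?_ ((wop_summ σ x).mul_left _)
      exact (lp.memℓp (L x)).summable wop_two
    exact (Real.rpow_le_rpow_iff (norm_nonneg _) (mul_nonneg hc (norm_nonneg _)) wop_two).1 h1
  refine ⟨L.mkContinuous c hb, fun x j => rfl, L.mkContinuous_norm_le hc hb⟩

theorem wop_compact [FiniteDimensional ℂ E] {J : Type} (T : LS J E →L[ℂ] LS J E) (S : Finset J)
    (h : ∀ (x : LS J E) (j : J), j ∉ S → (T x : J → E) j = 0) : IsCompactOperator T := by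
  classical
  have : ProperSpace E := FiniteDimensional.proper ℂ E
  have hone : ∀ j : J, IsCompactOperator
      (fun x : LS J E => (lp.single 2 j ((T x : J → E) j) : LS J E)) := by
    intro j
    have h1 : IsCompactOperator ((lp.evalCLM ℂ (fun _ : J => E) 2 j).comp T) :=
      isCompactOperator_of_locallyCompactSpace_dom _
    exact h1.clm_comp (lp.singleContinuousLinearMap ℂ (fun _ : J => E) 2 j)
  have hsum : ∀ S' : Finset J, IsCompactOperator
      (fun x : LS J E => ∑ j ∈ S', (lp.single 2 j ((T x : J → E) j) : LS J E)) := by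
    intro S'
    induction S' using Finset.induction_on with
    | empty =>
      have h0 : (fun x : LS J E => ∑ j ∈ (∅ : Finset J), (lp.single 2 j ((T x : J → E) j) : LS J E)) =
          (0 : LS J E → LS J E) := by
        funext x
        exact Finset.sum_empty
      rw [h0]
      exact isCompactOperator_zero
    | insert a s ha ih =>
      have h0 : (fun x : LS J E => ∑ j ∈ insert a s, (lp.single 2 j ((T x : J → E) j) : LS J E)) =
          (fun x : LS J E => (lp.single 2 a ((T x : J → E) a) : LS J E)) +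
          (fun x : LS J E => ∑ j ∈ s, (lp.single 2 j ((T x : J → E) j) : LS J E)) := by
        funext x
        exact Finset.sum_insert ha
      rw [h0]
      exact (hone a).add ih
  have : (T : LS J E → LS J E) =
      fun x : LS J E => ∑ j ∈ S, (lp.single 2 j ((T x : J → E) j) : LS J E) := by
    funext x
    ext i
    rw [lp.coeFn_sum, Finset.sum_apply]
    by_cases hi : i ∈ S
    · rw [Finset.sum_eq_single i]
      · rw [lp.single_apply_self]
      · intro b _ hb
        rw [lp.single_apply_ne _ _ _ (Ne.symm hb)]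
      · intro h'; exact absurd hi h'
    · rw [h x i hi, Finset.sum_eq_zero]
      intro b hb
      rw [lp.single_apply_ne]
      rintro rfl
      exact hi hb
  rw [this]
  exact hsum S

end Pool.Agent.Work.MP_ebd05c_an.H
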