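import Pool.Agent.Work.MP_ebd05c_an.H.PolyT
import Pool.Agent.Work.MP_ebd05c_an.H.WOp

set_option autoImplicit false

open scoped BigOperators ENNReal Topology ComplexConjugate
open Finset Filter Polynomial

/-!
Lower bound of the powers of S = T + e X.
Proof: let y = S^n x = T^n x + e Yn x. Write P for the projection on the indices (true, t) (as the sum of
norm squares over the two kinds of indices). |x_true| <= (1/d) |y_true| because
y(true,t) = (rho (t+n)/rho t) x(true,t+n) with ratio >= d (d <= rho <= 1). And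
x(false, s) = (rho s/rho (s+n)) (y(false,s+n) - e (Yn x)(false,s+n)), so
|x_false| <= (1/d)(|y| + e |Yn x|), and Yn x depends only on x_true: |Yn x| <= (3+4Nd)|x_true|
(apply yn_bound to the vector x_true). Sum: |x| <= |x_false| + |x_true|.
-/

namespace Pool.Agent.Work.MP_ebd05c_an.H

variable {E : Type} [NormedAddCommGroup E] [InnerProductSpace ℂ E]

private theorem rho_le_one {rho : ℤ → ℝ} {M : ℕ} {d kap : ℝ} (h : IsRho rho M d kap) (s : ℤ) :
    rho s ≤ 1 := by
  have hanti : Antitone rho := antitone_int_of_succ_le h.anti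
  have h1 := hanti (min_le_left s (-(M : ℤ)))
  rw [h.one _ (min_le_right s (-(M : ℤ)))] at h1
  exact h1

private theorem exists_inv {rho : ℤ → ℝ} {M : ℕ} {d kap : ℝ} (h : IsRho rho M d kap) (hd : 0 < d)
    (n : ℕ) :
    ∃ R : LS (Bool × ℤ) E →L[ℂ] LS (Bool × ℤ) E, ‖R‖ ≤ 1 / d ∧
      (∀ (z : LS (Bool × ℤ) E) (s : ℤ), (R z : Bool × ℤ → E) (false, s) =
        ((rho s / rho (s + n) : ℝ) : ℂ) • (z : Bool × ℤ → E) (false, s + n)) ∧
      (∀ (z : LS (Bool × ℤ) E) (t : ℤ), (R z : Bool × ℤ → E) (true, t) =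
        ((rho (t - n) / rho t : ℝ) : ℂ) • (z : Bool × ℤ → E) (true, t - n)) := by
  have hratio : ∀ s t : ℤ, |rho s / rho t| ≤ 1 / d := by
    intro s t
    have h1 : 0 < rho s := lt_of_lt_of_le hd (h.low s)
    have h2 : 0 < rho t := lt_of_lt_of_le hd (h.low t)
    rw [abs_of_pos (div_pos h1 h2)]
    exact div_le_div₀ zero_le_one (rho_le_one h s) hd (h.low t)
  obtain ⟨R, hR, hRn⟩ := exists_wop (E := E)
    (σ := { toFun := fun j : Bool × ℤ => (j.1, if j.1 then j.2 - n else j.2 + n)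
            invFun := fun j : Bool × ℤ => (j.1, if j.1 then j.2 + n else j.2 - n)
            left_inv := by
              rintro ⟨b, s⟩
              cases b <;> simp
            right_inv := by
              rintro ⟨b, s⟩
              cases b <;> simp })
    (fun j => (((if j.1 then rho (j.2 - n) / rho j.2 else rho j.2 / rho (j.2 + n)) : ℝ) : ℂ) •
      ContinuousLinearMap.id ℂ E) (1 / d) (by positivity) (by
      rintro ⟨b, s⟩
      rw [norm_smul]
      have h1 : ‖ContinuousLinearMap.id ℂ E‖ ≤ 1 := ContinuousLinearMap.norm_id_le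
      have h2 : ‖(((if b then rho (s - n) / rho s else rho s / rho (s + n)) : ℝ) : ℂ)‖ ≤ 1 / d := by
        rw [Complex.norm_real, Real.norm_eq_abs]
        cases b
        · simpa using hratio s (s + n)
        · simpa using hratio (s - n) s
      calc _ ≤ 1 / d * 1 := mul_le_mul h2 h1 (norm_nonneg _) (by positivity)
        _ = 1 / d := mul_one _)
  refine ⟨R, hRn, fun z s => ?_, fun z t => ?_⟩
  · rw [hR z (false, s)]
    simp
  · rw [hR z (true, t)]
    simp

private theorem exists_pt :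
    ∃ P : LS (Bool × ℤ) E →L[ℂ] LS (Bool × ℤ) E, ‖P‖ ≤ 1 ∧
      (∀ (z : LS (Bool × ℤ) E) (s : ℤ), (P z : Bool × ℤ → E) (false, s) = 0) ∧
      (∀ (z : LS (Bool × ℤ) E) (t : ℤ), (P z : Bool × ℤ → E) (true, t) =
        (z : Bool × ℤ → E) (true, t)) := by
  obtain ⟨R, hR, hRn⟩ := exists_wop (E := E) (Equiv.refl (Bool × ℤ))
    (fun j => if j.1 then ContinuousLinearMap.id ℂ E else 0) 1 zero_le_one (by
      rintro ⟨b, s⟩
      cases b
      · simp
      · simpa using ContinuousLinearMap.norm_id_le)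
  refine ⟨R, hRn, fun z s => ?_, fun z t => ?_⟩
  · rw [hR z (false, s)]
    simp
  · rw [hR z (true, t)]
    simp

theorem lower {rho : ℤ → ℝ} {M : ℕ} {d kap : ℝ} (h : IsRho rho M d kap) (hd : 0 < d)
    (hd1 : d ≤ 1) {r N : ℕ} {C : Fin N → (E →L[ℂ] E)} (hC : CAR C)
    {T X : LS (Bool × ℤ) E →L[ℂ] LS (Bool × ℤ) E} (hT : IsT0 rho T) (hX : IsX rho r C X)
    (e : ℝ) (he : 0 ≤ e) (he1 : e ≤ 1) (n : ℕ) (x : LS (Bool × ℤ) E) :
    ‖x‖ ≤ (2 / d + (3 + 4 * N * d) / d ^ 2) * ‖((T + (e : ℂ) • X) ^ n) x‖ := by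
  have hpos : ∀ s, 0 < rho s := fun s => lt_of_lt_of_le hd (h.low s)
  have hne : ∀ s, rho s ≠ 0 := fun s => (hpos s).ne'
  obtain ⟨R, hR, hRf, hRt⟩ := exists_inv (E := E) h hd n
  obtain ⟨P, hP, hPf, hPt⟩ := exists_pt (E := E)
  obtain ⟨hTf, hTt⟩ := T0_pow hpos hT n x
  have hYx := yn_apply hpos hT hX n x
  have hYP := yn_apply hpos hT hX n (P x)
  -- the operator Yn sees only the true part
  have h1 : Yn T X n x = Yn T X n (P x) := by
    apply lp.ext
    funext j
    obtain ⟨b, s⟩ := j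
    cases b
    · rw [hYx.1 s, hYP.1 s]
      apply Finset.sum_congr rfl
      intro k _
      rw [hPt]
    · rw [hYx.2 s, hYP.2 s]
  -- R inverts the powers of T
  have h2 : R ((T ^ n) x) = x := by
    apply lp.ext
    funext j
    obtain ⟨b, s⟩ := j
    cases b
    · rw [hRf, hTf, smul_smul, ← Complex.ofReal_mul, add_sub_cancel_right]
      have h3 : rho s / rho (s + n) * (rho (s + n) / rho s) = 1 := by
        have := hne s
        have := hne (s + n)
        field_simp
      rw [h3, Complex.ofReal_one, one_smul]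
    · rw [hRt, hTt, smul_smul, ← Complex.ofReal_mul, sub_add_cancel]
      have h3 : rho (s - n) / rho s * (rho s / rho (s - n)) = 1 := by
        have := hne s
        have := hne (s - n)
        field_simp
      rw [h3, Complex.ofReal_one, one_smul]
  obtain ⟨y, hy⟩ : ∃ y, y = ((T + (e : ℂ) • X) ^ n) x := ⟨_, rfl⟩
  rw [← hy]
  have h3 : y = (T ^ n) x + (e : ℂ) • Yn T X n x := by
    rw [hy, pow_eq hpos hT hX]
    rfl
  have h4 : (T ^ n) x = y - (e : ℂ) • Yn T X n x := by
    rw [h3, add_sub_cancel_right]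
  have h5 : P x = P (R y) := by
    apply lp.ext
    funext j
    obtain ⟨b, s⟩ := j
    cases b
    · rw [hPf, hPf]
    · rw [hPt, hPt, hRt, h3]
      have h6 : ((T ^ n) x + (e : ℂ) • Yn T X n x : LS (Bool × ℤ) E) (true, s - n) =
          ((T ^ n) x : Bool × ℤ → E) (true, s - n) +
            (e : ℂ) • (Yn T X n x : Bool × ℤ → E) (true, s - n) := rfl
      rw [h6, hYx.2, smul_zero, add_zero, hTt, smul_smul, ← Complex.ofReal_mul, sub_add_cancel]
      have h3 : rho (s - n) / rho s * (rho s / rho (s - n)) = 1 := by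
        have := hne s
        have := hne (s - n)
        field_simp
      rw [h3, Complex.ofReal_one, one_smul]
  have hRy : ∀ z : LS (Bool × ℤ) E, ‖R z‖ ≤ 1 / d * ‖z‖ := fun z =>
    (R.le_opNorm z).trans (mul_le_mul_of_nonneg_right hR (norm_nonneg _))
  have h6 : ‖P x‖ ≤ 1 / d * ‖y‖ := by
    rw [h5]
    refine (P.le_opNorm _).trans ?_
    calc ‖P‖ * ‖R y‖ ≤ 1 * ‖R y‖ := mul_le_mul_of_nonneg_right hP (norm_nonneg _)
      _ = ‖R y‖ := one_mul _
      _ ≤ _ := hRy y
  have hc : (0 : ℝ) ≤ 3 + 4 * N * d := by positivity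
  have h7 : ‖Yn T X n x‖ ≤ (3 + 4 * N * d) * (1 / d * ‖y‖) := by
    rw [h1]
    refine ((Yn T X n).le_opNorm _).trans ?_
    exact mul_le_mul (yn_bound h hd hd1 hC hT hX n) h6 (norm_nonneg _) hc
  have h8 : ‖x‖ ≤ 1 / d * (‖y‖ + (3 + 4 * N * d) * (1 / d * ‖y‖)) := by
    calc ‖x‖ = ‖R ((T ^ n) x)‖ := by rw [h2]
      _ ≤ 1 / d * ‖(T ^ n) x‖ := hRy _
      _ ≤ 1 / d * (‖y‖ + (3 + 4 * N * d) * (1 / d * ‖y‖)) := by
        apply mul_le_mul_of_nonneg_left _ (by positivity)
        rw [h4]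
        refine (norm_sub_le _ _).trans ?_
        apply add_le_add le_rfl
        rw [norm_smul, Complex.norm_real, Real.norm_eq_abs, abs_of_nonneg he]
        calc e * ‖Yn T X n x‖ ≤ 1 * ‖Yn T X n x‖ := mul_le_mul_of_nonneg_right he1 (norm_nonneg _)
          _ = ‖Yn T X n x‖ := one_mul _
          _ ≤ _ := h7
  refine h8.trans ?_
  have h9 : 1 / d * (‖y‖ + (3 + 4 * N * d) * (1 / d * ‖y‖)) =
      (1 / d + (3 + 4 * N * d) / d ^ 2) * ‖y‖ := by
    field_simp
  rw [h9]
  apply mul_le_mul_of_nonneg_right _ (norm_nonneg _)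
  have h10 : 1 / d ≤ 2 / d := div_le_div_of_nonneg_right (by norm_num) hd.le
  linarith

end Pool.Agent.Work.MP_ebd05c_an.H
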