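import Pool.Agent.Work.MP_ebd05c_an.H.Defs

set_option autoImplicit false

open scoped BigOperators ENNReal Topology ComplexConjugate
open Finset Filter Polynomial

/-!
Elementary facts on the ramp functions and lam.
-/

namespace Pool.Agent.Work.MP_ebd05c_an.H

theorem lam_pos (r k : ℕ) : 0 < lam r k := by
  unfold lam
  positivity

theorem lam_inj (r : ℕ) {k l : ℕ} (h : lam r k = lam r l) : k = l := by
  unfold lam at h
  have h1 := Nat.pow_right_injective (le_refl 2) h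
  omega

theorem GG_nonneg (l : ℕ) (s : ℤ) : 0 ≤ GG l s := by
  unfold GG
  exact le_max_left _ _

theorem GG_le_one (l : ℕ) (s : ℤ) : GG l s ≤ 1 := by
  unfold GG
  exact max_le zero_le_one (min_le_left _ _)

theorem GG_low (l : ℕ) (s : ℤ) (h : s ≤ -(l : ℤ)) : GG l s = 0 := by
  unfold GG
  have h1 : (s : ℝ) ≤ -(l : ℝ) := by exact_mod_cast h
  apply max_eq_left
  apply (min_le_right _ _).trans
  exact div_nonpos_of_nonpos_of_nonneg (by linarith) (Nat.cast_nonneg l)

theorem GG_high (l : ℕ) (hl : 0 < l) (s : ℤ) (h : 0 ≤ s) : GG l s = 1 := by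
  unfold GG
  have h1 : (0 : ℝ) ≤ (s : ℝ) := by exact_mod_cast h
  have h2 : (0 : ℝ) < (l : ℝ) := by exact_mod_cast hl
  have h3 : (1 : ℝ) ≤ ((s : ℝ) + l) / l := by
    rw [le_div_iff₀ h2]
    linarith
  rw [min_eq_left h3]
  exact max_eq_right zero_le_one

theorem GG_mid (l : ℕ) (hl : 0 < l) (s : ℤ) (h1 : -(l : ℤ) ≤ s) (h2 : s ≤ 0) :
    GG l s = ((s : ℝ) + l) / l := by
  unfold GG
  have h3 : (s : ℝ) ≤ 0 := by exact_mod_cast h2
  have h4 : -(l : ℝ) ≤ (s : ℝ) := by exact_mod_cast h1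
  have h5 : (0 : ℝ) < (l : ℝ) := by exact_mod_cast hl
  have h6 : ((s : ℝ) + l) / l ≤ 1 := by
    rw [div_le_iff₀ h5]
    linarith
  have h7 : 0 ≤ ((s : ℝ) + l) / l := div_nonneg (by linarith) h5.le
  rw [min_eq_right h6, max_eq_right h7]

/-- the increments of the ramp -/
theorem GG_step (l : ℕ) (hl : 0 < l) (s : ℤ) :
    GG l s - GG l (s - 1) = if -(l : ℤ) < s ∧ s ≤ 0 then 1 / (l : ℝ) else 0 := by
  have h5 : (0 : ℝ) < (l : ℝ) := by exact_mod_cast hl
  split_ifs with h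
  · rw [GG_mid l hl s h.1.le h.2, GG_mid l hl (s - 1) (by omega) (by omega)]
    push_cast
    field_simp
    ring
  · by_cases h1 : s ≤ -(l : ℤ)
    · rw [GG_low l s h1, GG_low l (s - 1) (by omega), sub_zero]
    · have h2 : 0 < s := by
        by_contra h3
        exact h ⟨by omega, by omega⟩
      rw [GG_high l hl s (by omega), GG_high l hl (s - 1) (by omega), sub_self]

theorem gg_edge (l : ℕ) (s t : ℤ) (h : (l : ℤ) + s + t = 0) : gg l s t = 0 := by
  unfold gg
  have h1 : -(l : ℤ) - t = s := by omega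
  rw [h1, sub_self]

theorem gg_neg (l : ℕ) (hl : 0 < l) (s t : ℤ) (hs : s ≤ 0) (ht : t ≤ 0) (h : 0 ≤ (l : ℤ) + s + t) :
    gg l s t = ((l : ℝ) + s + t) / l := by
  unfold gg
  have h5 : (0 : ℝ) < (l : ℝ) := by exact_mod_cast hl
  rw [GG_mid l hl s (by omega) hs, GG_mid l hl (-(l : ℤ) - t) (by omega) (by omega)]
  push_cast
  field_simp
  ring

theorem gg_step (l : ℕ) (s t : ℤ) : gg l s t - gg l (s - 1) t = GG l s - GG l (s - 1) := by
  unfold gg
  ring

end Pool.Agent.Work.MP_ebd05c_an.H
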