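import Pool.Agent.Work.MP_ebd05c_an.H.Defs

set_option autoImplicit false

open scoped BigOperators ENNReal Topology ComplexConjugate
open Finset Filter Polynomial

/-!
Roots of unity: orthogonality and vector valued Parseval identity.
Proof: om M j = zeta^j, zeta = exp(2 pi i/M) primitive; geometric sum. Parseval: expand the norm
square as an inner product, exchange the sums, use om_sum for a = t - s.
(conj (om M j) = (om M j)^(-1).)
-/

namespace Pool.Agent.Work.MP_ebd05c_an.H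

private theorem om_eq (M j : ℕ) : om M j = Complex.exp (((2 * Real.pi * j / M : ℝ) : ℂ) * Complex.I) := by
  unfold om
  congr 1
  push_cast
  ring

theorem om_norm (M j : ℕ) : ‖om M j‖ = 1 := by
  rw [om_eq, Complex.norm_exp_ofReal_mul_I]

private theorem om_ne (M j : ℕ) : om M j ≠ 0 := by
  intro h
  have h1 := om_norm M j
  rw [h, norm_zero] at h1
  exact zero_ne_one h1

private theorem om_pow (M j : ℕ) : om M j = om M 1 ^ j := by
  unfold om
  rw [← Complex.exp_nat_mul]
  congr 1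
  push_cast
  ring

private theorem om_prim {M : ℕ} (hM : 0 < M) : IsPrimitiveRoot (om M 1) M := by
  have h := Complex.isPrimitiveRoot_exp M hM.ne'
  have e : om M 1 = Complex.exp (2 * Real.pi * Complex.I / M) := by
    unfold om
    congr 1
    push_cast
    ring
  rw [e]
  exact h

theorem om_sum {M : ℕ} (hM : 0 < M) (a : ℤ) :
    ∑ j ∈ range M, (om M j) ^ a = if (M : ℤ) ∣ a then (M : ℂ) else 0 := by
  have hp := om_prim hM
  have h1 : ∀ j, om M j ^ a = (om M 1 ^ a) ^ j := by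
    intro j
    rw [om_pow, ← zpow_natCast, ← zpow_natCast, ← zpow_mul, ← zpow_mul, mul_comm]
  rw [Finset.sum_congr rfl fun j _ => h1 j]
  split_ifs with hd
  · have h2 : om M 1 ^ a = 1 := (hp.zpow_eq_one_iff_dvd a).mpr hd
    rw [h2]
    simp
  · have h2 : om M 1 ^ a ≠ 1 := fun h => hd ((hp.zpow_eq_one_iff_dvd a).mp h)
    rw [geom_sum_eq h2]
    have h3 : (om M 1 ^ a) ^ M = 1 := by
      rw [← zpow_natCast, ← zpow_mul, mul_comm, zpow_mul, zpow_natCast, hp.pow_eq_one, one_zpow]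
    rw [h3, sub_self, zero_div]

theorem parseval {E : Type*} [NormedAddCommGroup E] [InnerProductSpace ℂ E] {M : ℕ} (hM : 0 < M)
    (F : Finset ℤ) (hF : ∀ s ∈ F, ∀ t ∈ F, (M : ℤ) ∣ s - t → s = t) (x : ℤ → E) :
    ∑ j ∈ range M, ‖∑ s ∈ F, ((om M j) ^ s) • x s‖ ^ 2 = M * ∑ s ∈ F, ‖x s‖ ^ 2 := by
  have key : ∀ j, ((‖∑ s ∈ F, ((om M j) ^ s) • x s‖ ^ 2 : ℝ) : ℂ) =
      ∑ s ∈ F, ∑ t ∈ F, (om M j) ^ (t - s) * inner ℂ (x s) (x t) := by
    intro j
    have h0 : ((‖∑ s ∈ F, ((om M j) ^ s) • x s‖ ^ 2 : ℝ) : ℂ) =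
        inner ℂ (∑ s ∈ F, ((om M j) ^ s) • x s) (∑ s ∈ F, ((om M j) ^ s) • x s) := by
      rw [inner_self_eq_norm_sq_to_K]
      push_cast
      rfl
    rw [h0, sum_inner]
    refine Finset.sum_congr rfl fun s _ => ?_
    rw [inner_sum]
    refine Finset.sum_congr rfl fun t _ => ?_
    rw [inner_smul_left, inner_smul_right, ← mul_assoc]
    congr 1
    have h1 : conj (om M j ^ s) = om M j ^ (-s) := by
      have h2 : conj (om M j) = (om M j)⁻¹ := by
        rw [Complex.inv_def, Complex.normSq_eq_norm_sq, om_norm]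
        simp
      rw [map_zpow₀, h2, inv_zpow, zpow_neg]
    rw [h1, ← zpow_add₀ (om_ne M j)]
    congr 1
    ring
  have h5 : ((∑ j ∈ range M, ‖∑ s ∈ F, ((om M j) ^ s) • x s‖ ^ 2 : ℝ) : ℂ) =
      ((M * ∑ s ∈ F, ‖x s‖ ^ 2 : ℝ) : ℂ) := by
    rw [Complex.ofReal_sum]
    simp_rw [key]
    rw [Finset.sum_comm]
    have h6 : ∀ s ∈ F, ∑ j ∈ range M, ∑ t ∈ F, (om M j) ^ (t - s) * inner ℂ (x s) (x t) =
        (M : ℂ) * ((‖x s‖ ^ 2 : ℝ) : ℂ) := by
      intro s hs
      rw [Finset.sum_comm]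
      have h7 : ∀ t ∈ F, ∑ j ∈ range M, (om M j) ^ (t - s) * inner ℂ (x s) (x t) =
          if t = s then (M : ℂ) * inner ℂ (x s) (x s) else 0 := by
        intro t ht
        rw [← Finset.sum_mul, om_sum hM]
        by_cases hts : t = s
        · subst hts
          simp
        · rw [if_neg hts, if_neg, zero_mul]
          intro hd
          exact hts (hF t ht s hs hd)
      rw [Finset.sum_congr rfl h7, Finset.sum_ite_eq' F s, if_pos hs, inner_self_eq_norm_sq_to_K]
      push_cast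
      rfl
    rw [Finset.sum_congr rfl h6, ← Finset.mul_sum]
    push_cast
    rfl
  exact_mod_cast h5

end Pool.Agent.Work.MP_ebd05c_an.H
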