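import Pool.Agent.Work.MP_ebd05c_an.H.Defs

set_option autoImplicit false

open scoped BigOperators ENNReal Topology ComplexConjugate
open Finset Filter Polynomial

/-!
The Toeplitz form of a contraction is a Gram form.
Proof: D = the positive square root of 1 - C*C (CFC.sqrt, or any D with D*D = 1 - C*C), so
<D a, D b> = <a, b> - <C a, C b>. s_i(x) = sum_(j<=i) z^j C^(i-j) x (s_0 = x, s_(i+1) = C s_i + z^(i+1) x).
V x = (D s_0 x, ..., D s_(m-2) x, s_(m-1) x), i.e. V x i = if i + 1 < m then D (s_i x) else s_i x.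
By induction on m: <s_(m-1) y, s_(m-1) x> + sum_(i<m-1) (<s_i y, s_i x> - <C s_i y, C s_i x>) equals
sum_(i<m) (sum_(j<=i) conj(z)^(i-j) <y, C^(i-j) x> + sum_(j<i) z^(i-j) <C^(i-j) y, x>)
(from <s_i y, s_i x> - <C s_(i-1) y, C s_(i-1) x> = <u_i y, s_i x> + <C s_(i-1) y, u_i x>, u_i x = z^i x), and
collecting the terms with i - j = p gives the right side.
-/

namespace Pool.Agent.Work.MP_ebd05c_an.H

section aux
variable {H : Type*} [NormedAddCommGroup H] [InnerProductSpace ℂ H] [CompleteSpace H]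

private theorem exists_D (C : H →L[ℂ] H) (hC : ‖C‖ ≤ 1) :
    ∃ D : H →L[ℂ] H, ∀ a b : H, inner ℂ (D a) (D b) = inner ℂ a b - inner ℂ (C a) (C b) := by
  have hpos : (0 : H →L[ℂ] H) ≤ 1 - star C * C := by
    rw [ContinuousLinearMap.nonneg_iff_isPositive]
    refine (ContinuousLinearMap.isPositive_def').2 ⟨?_, fun x => ?_⟩
    · exact (IsSelfAdjoint.one _).sub (IsSelfAdjoint.star_mul_self C)
    · rw [ContinuousLinearMap.reApplyInnerSelf_apply]
      have h1 : inner ℂ ((1 - star C * C : H →L[ℂ] H) x) x =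
          inner ℂ x x - inner ℂ (C x) (C x) := by
        rw [ContinuousLinearMap.sub_apply, inner_sub_left, ContinuousLinearMap.one_apply,
          ContinuousLinearMap.mul_apply, ContinuousLinearMap.star_eq_adjoint,
          ContinuousLinearMap.adjoint_inner_left]
      rw [h1, map_sub, inner_self_eq_norm_sq, inner_self_eq_norm_sq]
      have h2 : ‖C x‖ ≤ ‖x‖ := by
        have := C.le_of_opNorm_le hC x
        rwa [one_mul] at this
      have h3 := norm_nonneg (C x)
      nlinarith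
  obtain ⟨D, hsa, hsq⟩ : ∃ D : H →L[ℂ] H, star D = D ∧ D * D = 1 - star C * C :=
    ⟨CFC.sqrt (1 - star C * C), (IsSelfAdjoint.of_nonneg (CFC.sqrt_nonneg _)).star_eq,
      CFC.sqrt_mul_sqrt_self _ hpos⟩
  refine ⟨D, fun a b => ?_⟩
  calc inner ℂ (D a) (D b) = inner ℂ a ((star D * D) b) := by
        rw [ContinuousLinearMap.mul_apply, ContinuousLinearMap.star_eq_adjoint,
          ContinuousLinearMap.adjoint_inner_right]
    _ = inner ℂ a ((1 - star C * C : H →L[ℂ] H) b) := by rw [hsa, hsq]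
    _ = inner ℂ a b - inner ℂ (C a) (C b) := by
        rw [ContinuousLinearMap.sub_apply, inner_sub_right, ContinuousLinearMap.one_apply,
          ContinuousLinearMap.mul_apply, ContinuousLinearMap.star_eq_adjoint,
          ContinuousLinearMap.adjoint_inner_right]

private noncomputable def SS (C : H →L[ℂ] H) (z : ℂ) : ℕ → (H →L[ℂ] H)
  | 0 => 1
  | i + 1 => C * SS C z i + z ^ (i + 1) • (1 : H →L[ℂ] H)

private theorem SS_succ (C : H →L[ℂ] H) (z : ℂ) (i : ℕ) (x : H) :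
    SS C z (i + 1) x = C (SS C z i x) + z ^ (i + 1) • x := rfl

private theorem SS_sum (C : H →L[ℂ] H) (z : ℂ) (hz : ‖z‖ = 1) (i : ℕ) (x : H) :
    (conj z) ^ i • SS C z i x = ∑ p ∈ range (i + 1), (conj z) ^ p • (C ^ p) x := by
  have hzz : conj z * z = 1 := by
    rw [Complex.conj_mul', hz]
    simp
  induction i with
  | zero => simp [SS]
  | succ i ih =>
    rw [SS_succ, smul_add, smul_smul, ← mul_pow, hzz, one_pow, one_smul, pow_succ', ← smul_smul,
      ← map_smul, ih, map_sum, Finset.smul_sum, Finset.sum_range_succ' _ (i + 1)]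
    refine congrArg₂ (· + ·) (Finset.sum_congr rfl fun p _ => ?_) ?_
    · rw [map_smul, smul_smul, ← pow_succ', pow_succ' C p]
      rfl
    · rw [pow_zero, pow_zero, one_smul, ContinuousLinearMap.one_apply]

private theorem step (C : H →L[ℂ] H) (z : ℂ) (hz : ‖z‖ = 1) (i : ℕ) (x y : H) :
    inner ℂ (SS C z (i + 1) y) (SS C z (i + 1) x) - inner ℂ (C (SS C z i y)) (C (SS C z i x)) =
      inner ℂ y x + ∑ p ∈ range (i + 1), ((conj z) ^ (p + 1) * inner ℂ y ((C ^ (p + 1)) x) +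
        z ^ (p + 1) * inner ℂ ((C ^ (p + 1)) y) x) := by
  have h1 : inner ℂ (z ^ (i + 1) • y) (SS C z (i + 1) x) =
      ∑ p ∈ range (i + 2), (conj z) ^ p * inner ℂ y ((C ^ p) x) := by
    rw [inner_smul_left, map_pow, ← inner_smul_right, SS_sum C z hz, inner_sum]
    exact Finset.sum_congr rfl fun p _ => inner_smul_right _ _ _
  have h2 : inner ℂ (C (SS C z i y)) (z ^ (i + 1) • x) =
      ∑ p ∈ range (i + 1), z ^ (p + 1) * inner ℂ ((C ^ (p + 1)) y) x := by
    have h3 : inner ℂ (C (SS C z i y)) (z ^ (i + 1) • x) =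
        inner ℂ ((conj z) ^ (i + 1) • C (SS C z i y)) x := by
      rw [inner_smul_right, inner_smul_left, map_pow, Complex.conj_conj]
    rw [h3, pow_succ', ← smul_smul, ← map_smul, SS_sum C z hz, map_sum, Finset.smul_sum, sum_inner]
    refine Finset.sum_congr rfl fun p _ => ?_
    rw [map_smul, smul_smul, ← pow_succ', inner_smul_left, map_pow, Complex.conj_conj,
      pow_succ' C p]
    rfl
  have h4 : inner ℂ (SS C z (i + 1) y) (SS C z (i + 1) x) -
      inner ℂ (C (SS C z i y)) (C (SS C z i x)) =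
      inner ℂ (z ^ (i + 1) • y) (SS C z (i + 1) x) +
        inner ℂ (C (SS C z i y)) (z ^ (i + 1) • x) := by
    conv_lhs => rw [SS_succ C z i y, inner_add_left]
    rw [SS_succ C z i x, inner_add_right (C (SS C z i y))]
    ring
  rw [h4, h1, h2, Finset.sum_range_succ', Finset.sum_add_distrib]
  simp only [pow_zero, one_mul, ContinuousLinearMap.one_apply]
  ring

private theorem total (C : H →L[ℂ] H) (z : ℂ) (hz : ‖z‖ = 1) (x y : H) (k : ℕ) :
    ∑ i ∈ range k, (inner ℂ (SS C z i y) (SS C z i x) -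
      inner ℂ (C (SS C z i y)) (C (SS C z i x))) + inner ℂ (SS C z k y) (SS C z k x) =
    ((k : ℂ) + 1) * inner ℂ y x + ∑ p ∈ range k, ((k : ℂ) - p) *
      ((conj z) ^ (p + 1) * inner ℂ y ((C ^ (p + 1)) x) +
        z ^ (p + 1) * inner ℂ ((C ^ (p + 1)) y) x) := by
  induction k with
  | zero => simp [SS]
  | succ k ih =>
    have hs := step C z hz k x y
    rw [Finset.sum_range_succ]
    have h5 : ∑ p ∈ range (k + 1), (((k + 1 : ℕ) : ℂ) - p) *
        ((conj z) ^ (p + 1) * inner ℂ y ((C ^ (p + 1)) x) +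
          z ^ (p + 1) * inner ℂ ((C ^ (p + 1)) y) x) =
        ∑ p ∈ range k, ((k : ℂ) - p) * ((conj z) ^ (p + 1) * inner ℂ y ((C ^ (p + 1)) x) +
          z ^ (p + 1) * inner ℂ ((C ^ (p + 1)) y) x) +
        ∑ p ∈ range (k + 1), ((conj z) ^ (p + 1) * inner ℂ y ((C ^ (p + 1)) x) +
          z ^ (p + 1) * inner ℂ ((C ^ (p + 1)) y) x) := by
      have h6 : ∑ p ∈ range k, ((k : ℂ) - p) *
          ((conj z) ^ (p + 1) * inner ℂ y ((C ^ (p + 1)) x) +
            z ^ (p + 1) * inner ℂ ((C ^ (p + 1)) y) x) =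
          ∑ p ∈ range (k + 1), ((k : ℂ) - p) *
          ((conj z) ^ (p + 1) * inner ℂ y ((C ^ (p + 1)) x) +
            z ^ (p + 1) * inner ℂ ((C ^ (p + 1)) y) x) := by
        rw [Finset.sum_range_succ, sub_self, zero_mul, add_zero]
      rw [h6, ← Finset.sum_add_distrib]
      refine Finset.sum_congr rfl fun p _ => ?_
      rw [Nat.cast_add, Nat.cast_one]
      ring
    rw [h5, Nat.cast_add, Nat.cast_one]
    linear_combination ih + hs

end aux

theorem exists_V {H : Type*} [NormedAddCommGroup H] [InnerProductSpace ℂ H] [CompleteSpace H]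
    (C : H →L[ℂ] H) (hC : ‖C‖ ≤ 1) (m : ℕ) (hm : 0 < m) (z : ℂ) (hz : ‖z‖ = 1) :
    ∃ V : H →ₗ[ℂ] PiLp 2 (fun _ : Fin m => H), ∀ x y : H,
      inner ℂ (V y) (V x) = (m : ℂ) * inner ℂ y x + ∑ p ∈ Ico 1 m, ((m : ℂ) - p) *
        ((conj z) ^ p * inner ℂ y ((C ^ p) x) + z ^ p * inner ℂ ((C ^ p) y) x) := by
  obtain ⟨k, rfl⟩ : ∃ k, m = k + 1 := ⟨m - 1, by omega⟩
  obtain ⟨D, hD⟩ := exists_D C hC
  refine ⟨(WithLp.linearEquiv 2 ℂ (Fin (k + 1) → H)).symm.toLinearMap ∘ₗ
    LinearMap.pi (fun i : Fin (k + 1) =>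
      if (i : ℕ) < k then ((D * SS C z i : H →L[ℂ] H) : H →ₗ[ℂ] H)
      else ((SS C z i : H →L[ℂ] H) : H →ₗ[ℂ] H)), fun x y => ?_⟩
  have happ : ∀ (w : H) (i : Fin (k + 1)),
      (((WithLp.linearEquiv 2 ℂ (Fin (k + 1) → H)).symm.toLinearMap ∘ₗ
    LinearMap.pi (fun i : Fin (k + 1) =>
      if (i : ℕ) < k then ((D * SS C z i : H →L[ℂ] H) : H →ₗ[ℂ] H)
      else ((SS C z i : H →L[ℂ] H) : H →ₗ[ℂ] H))) w : PiLp 2 (fun _ : Fin (k + 1) => H)) i =
      if (i : ℕ) < k then D (SS C z i w) else SS C z i w := by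
    intro w i
    change (if (i : ℕ) < k then ((D * SS C z i : H →L[ℂ] H) : H →ₗ[ℂ] H)
      else ((SS C z i : H →L[ℂ] H) : H →ₗ[ℂ] H)) w = _
    split_ifs <;> rfl
  rw [PiLp.inner_apply]
  simp only [happ]
  rw [Fin.sum_univ_castSucc]
  have h1 : ∀ i : Fin k, inner ℂ (if ((Fin.castSucc i : Fin (k + 1)) : ℕ) < k
      then D (SS C z (Fin.castSucc i : Fin (k + 1)) y) else SS C z (Fin.castSucc i : Fin (k + 1)) y)
      (if ((Fin.castSucc i : Fin (k + 1)) : ℕ) < k
      then D (SS C z (Fin.castSucc i : Fin (k + 1)) x)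
      else SS C z (Fin.castSucc i : Fin (k + 1)) x) =
      inner ℂ (SS C z i y) (SS C z i x) - inner ℂ (C (SS C z i y)) (C (SS C z i x)) := by
    intro i
    have hi : ((Fin.castSucc i : Fin (k + 1)) : ℕ) < k := by
      rw [Fin.val_castSucc]
      exact i.2
    rw [if_pos hi, if_pos hi, hD]
    rfl
  rw [Finset.sum_congr rfl (fun i _ => h1 i)]
  have h2 : ¬ ((Fin.last k : Fin (k + 1)) : ℕ) < k := by simp
  rw [if_neg h2, if_neg h2, Fin.val_last,
    Fin.sum_univ_eq_sum_range (fun i => inner ℂ (SS C z i y) (SS C z i x) -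
      inner ℂ (C (SS C z i y)) (C (SS C z i x))) k, total C z hz x y k,
    Finset.sum_Ico_eq_sum_range, Nat.add_sub_cancel]
  push_cast
  congr 1
  refine Finset.sum_congr rfl fun p _ => ?_
  rw [add_comm 1 p]
  push_cast
  ring

end Pool.Agent.Work.MP_ebd05c_an.H
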