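import Pool.Agent.Work.MP_ebd05c_an.H.VN0
import Pool.Agent.Work.MP_ebd05c_an.H.VNa
import Pool.Agent.Work.MP_ebd05c_an.H.RU

set_option autoImplicit false

open scoped BigOperators ENNReal Topology ComplexConjugate
open Finset Filter Polynomial

/-!
Matrix von Neumann inequality for finitely many powers.
Proof: fix m > all n k, n' >= 2 m; for the n'-th roots of unity z = om n' j take V_j from exists_V.
Average: (1/n') sum_j z^q <V_j y, V_j x> = (m - q) <y, C^q x> for 0 <= q < m (om_sum; q = 0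
included), in particular the average of |V_j x|^2 is m |x|^2. Hence with P(z) = sum_k z^(n k) A k:
sum_k (m - n k) sum_(i,j) A k i j <y_i, C^(n k) x_j> is the average of sum_(i,j) P(z) i j <V y_i, V x_j>, bounded by
matrix_vec and Cauchy-Schwarz over the roots of unity by M m |x| |y|. Divide by m, m -> infinity.
vn_poly: the case of index type Unit and the exponents 0, ..., degree (Bd p).
-/

namespace Pool.Agent.Work.MP_ebd05c_an.H

/-- sums of integer powers of the roots of unity inside one period -/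
private theorem om_sum_small {M : ℕ} (hM : 0 < M) (a : ℤ) (h1 : -(M : ℤ) < a) (h2 : a < M) :
    ∑ j ∈ range M, (om M j) ^ a = if a = 0 then (M : ℂ) else 0 := by
  rw [om_sum hM a]
  by_cases ha : a = 0
  · subst ha
    simp
  · rw [if_neg ha, if_neg]
    intro hd
    exact ha (Int.eq_zero_of_abs_lt_dvd hd (abs_lt.2 ⟨h1, h2⟩))

private theorem om_ne (M j : ℕ) : om M j ≠ 0 := by
  intro h
  have := om_norm M j
  rw [h, norm_zero] at this
  exact zero_ne_one this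

private theorem conj_om (M j : ℕ) : conj (om M j) = (om M j) ^ (-1 : ℤ) := by
  rw [zpow_neg_one, Complex.inv_def, Complex.normSq_eq_norm_sq, om_norm]
  simp

private theorem avg_V {H : Type*} [NormedAddCommGroup H] [InnerProductSpace ℂ H] [CompleteSpace H]
    (C : H →L[ℂ] H) (m : ℕ) (hm : 0 < m)
    (V : ℕ → (H →ₗ[ℂ] PiLp 2 (fun _ : Fin m => H)))
    (hV : ∀ j : ℕ, ∀ x y : H,
      inner ℂ (V j y) (V j x) = (m : ℂ) * inner ℂ y x + ∑ p ∈ Ico 1 m, ((m : ℂ) - p) *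
        ((conj (om (2 * m) j)) ^ p * inner ℂ y ((C ^ p) x) +
          (om (2 * m) j) ^ p * inner ℂ ((C ^ p) y) x)) (q : ℕ) (hq : q < m) (x y : H) :
    ∑ j ∈ range (2 * m), (om (2 * m) j) ^ q * inner ℂ (V j y) (V j x) =
      ((2 * m : ℕ) : ℂ) * (((m : ℂ) - q) * inner ℂ y ((C ^ q) x)) := by
  have h2m : 0 < 2 * m := by omega
  have hterm : ∀ j ∈ range (2 * m), (om (2 * m) j) ^ q * inner ℂ (V j y) (V j x) =
      (om (2 * m) j) ^ (q : ℤ) * ((m : ℂ) * inner ℂ y x) +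
      ∑ p ∈ Ico 1 m, ((om (2 * m) j) ^ ((q : ℤ) - p) * (((m : ℂ) - p) * inner ℂ y ((C ^ p) x)) +
        (om (2 * m) j) ^ ((q : ℤ) + p) * (((m : ℂ) - p) * inner ℂ ((C ^ p) y) x)) := by
    intro j _
    rw [hV j, mul_add, Finset.mul_sum, zpow_natCast]
    congr 1
    refine Finset.sum_congr rfl (fun p _ => ?_)
    rw [conj_om, zpow_sub₀ (om_ne _ _), zpow_add₀ (om_ne _ _), zpow_natCast, zpow_natCast,
      zpow_neg_one, inv_pow]
    field_simp
  rw [Finset.sum_congr rfl hterm, Finset.sum_add_distrib, ← Finset.sum_mul,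
    om_sum_small h2m _ (by omega) (by push_cast; omega), Finset.sum_comm]
  have hinner : ∀ p ∈ Ico 1 m, ∑ j ∈ range (2 * m),
      ((om (2 * m) j) ^ ((q : ℤ) - p) * (((m : ℂ) - p) * inner ℂ y ((C ^ p) x)) +
        (om (2 * m) j) ^ ((q : ℤ) + p) * (((m : ℂ) - p) * inner ℂ ((C ^ p) y) x)) =
      if p = q then ((2 * m : ℕ) : ℂ) * (((m : ℂ) - q) * inner ℂ y ((C ^ q) x)) else 0 := by
    intro p hp
    rw [Finset.mem_Ico] at hp
    rw [Finset.sum_add_distrib, ← Finset.sum_mul, ← Finset.sum_mul,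
      om_sum_small h2m _ (by push_cast; omega) (by push_cast; omega),
      om_sum_small h2m _ (by push_cast; omega) (by push_cast; omega),
      if_neg (show ¬ ((q : ℤ) + p = 0) by omega), zero_mul, add_zero]
    by_cases hpq : p = q
    · subst hpq
      simp
    · rw [if_neg hpq, if_neg (show ¬ ((q : ℤ) - p = 0) by omega), zero_mul]
  rw [Finset.sum_congr rfl hinner, Finset.sum_ite_eq' (Ico 1 m) q]
  by_cases hq0 : q = 0
  · subst hq0
    simp
  · rw [if_neg (show ¬ ((q : ℤ) = 0) by omega), zero_mul, zero_add, if_pos]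
    rw [Finset.mem_Ico]
    omega

private theorem avg_norm {H : Type*} [NormedAddCommGroup H] [InnerProductSpace ℂ H]
    [CompleteSpace H] (C : H →L[ℂ] H) (m : ℕ) (hm : 0 < m)
    (V : ℕ → (H →ₗ[ℂ] PiLp 2 (fun _ : Fin m => H)))
    (hV : ∀ j : ℕ, ∀ x y : H,
      inner ℂ (V j y) (V j x) = (m : ℂ) * inner ℂ y x + ∑ p ∈ Ico 1 m, ((m : ℂ) - p) *
        ((conj (om (2 * m) j)) ^ p * inner ℂ y ((C ^ p) x) +
          (om (2 * m) j) ^ p * inner ℂ ((C ^ p) y) x)) (x : H) :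
    ∑ j ∈ range (2 * m), ‖V j x‖ ^ 2 = ((2 * m : ℕ) : ℝ) * (m * ‖x‖ ^ 2) := by
  have h := avg_V C m hm V hV 0 hm x x
  simp only [pow_zero, one_mul, Nat.cast_zero, sub_zero] at h
  have h' : ∀ j, inner ℂ (V j x) (V j x) = ((‖V j x‖ ^ 2 : ℝ) : ℂ) := by
    intro j
    rw [inner_self_eq_norm_sq_to_K]
    push_cast
    rfl
  simp only [h'] at h
  rw [one_apply_eq_self, inner_self_eq_norm_sq_to_K] at h
  have h2 : ((∑ j ∈ range (2 * m), ‖V j x‖ ^ 2 : ℝ) : ℂ) =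
      ((((2 * m : ℕ) : ℝ) * (m * ‖x‖ ^ 2) : ℝ) : ℂ) := by
    push_cast at h ⊢
    exact h
  exact_mod_cast h2

private theorem vn_fixed {H : Type*} [NormedAddCommGroup H] [InnerProductSpace ℂ H]
    [CompleteSpace H] (C : H →L[ℂ] H) (hC : ‖C‖ ≤ 1) {ι : Type} [Fintype ι] {K : ℕ} (n : Fin K → ℕ)
    (A : Fin K → ι → ι → ℂ) (M : ℝ) (hM : 0 ≤ M)
    (hA : ∀ z : ℂ, ‖z‖ = 1 → ∀ ξ η : ι → ℂ,
      ‖∑ k, ∑ i, ∑ j, z ^ (n k) * A k i j * conj (η i) * ξ j‖ ≤
      M * Real.sqrt (∑ i, ‖ξ i‖ ^ 2) * Real.sqrt (∑ i, ‖η i‖ ^ 2)) (x y : ι → H)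
    (m : ℕ) (hm : 0 < m) (hn : ∀ k, n k < m) :
    ‖∑ k, ∑ i, ∑ j, ((m : ℂ) - n k) * (A k i j * inner ℂ (y i) ((C ^ (n k)) (x j)))‖ ≤
      m * (M * Real.sqrt (∑ i, ‖x i‖ ^ 2) * Real.sqrt (∑ i, ‖y i‖ ^ 2)) := by
  choose V hV using fun j : ℕ => exists_V C hC m hm (om (2 * m) j) (om_norm _ _)
  have h2m : 0 < 2 * m := by omega
  have h2mR : (0 : ℝ) < ((2 * m : ℕ) : ℝ) := by exact_mod_cast h2m
  -- the average
  have key : ((2 * m : ℕ) : ℂ) *
      (∑ k, ∑ i, ∑ j, ((m : ℂ) - n k) * (A k i j * inner ℂ (y i) ((C ^ (n k)) (x j)))) =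
      ∑ t ∈ range (2 * m), ∑ i, ∑ j, (∑ k, (om (2 * m) t) ^ (n k) * A k i j) *
        inner ℂ (V t (y i)) (V t (x j)) := by
    have e1 : ∀ k i j, ((2 * m : ℕ) : ℂ) *
        (((m : ℂ) - n k) * (A k i j * inner ℂ (y i) ((C ^ (n k)) (x j)))) =
        ∑ t ∈ range (2 * m), ((om (2 * m) t) ^ (n k) * A k i j) *
          inner ℂ (V t (y i)) (V t (x j)) := by
      intro k i j
      have := avg_V C m hm V hV (n k) (hn k) (x j) (y i)
      calc ((2 * m : ℕ) : ℂ) *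
          (((m : ℂ) - n k) * (A k i j * inner ℂ (y i) ((C ^ (n k)) (x j))))
          = A k i j * (((2 * m : ℕ) : ℂ) * (((m : ℂ) - n k) *
            inner ℂ (y i) ((C ^ (n k)) (x j)))) := by ring
        _ = A k i j * ∑ t ∈ range (2 * m), (om (2 * m) t) ^ (n k) *
            inner ℂ (V t (y i)) (V t (x j)) := by rw [this]
        _ = _ := by
            rw [Finset.mul_sum]
            refine Finset.sum_congr rfl (fun t _ => ?_)
            ring
    simp only [Finset.mul_sum]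
    simp only [e1, Finset.sum_mul]
    rw [Finset.sum_comm' (s := (Finset.univ : Finset (Fin K)))
      (t := fun _ => (Finset.univ : Finset ι)) (t' := (Finset.univ : Finset ι))
      (s' := fun _ => (Finset.univ : Finset (Fin K))) (by simp)]
    rw [Finset.sum_comm (s := range (2 * m))]
    refine Finset.sum_congr rfl (fun i _ => ?_)
    rw [Finset.sum_comm (s := range (2 * m)), Finset.sum_comm (s := (Finset.univ : Finset (Fin K)))]
    refine Finset.sum_congr rfl (fun j _ => ?_)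
    rw [Finset.sum_comm]
  have hbound : ∀ t ∈ range (2 * m), ‖∑ i, ∑ j, (∑ k, (om (2 * m) t) ^ (n k) * A k i j) *
        inner ℂ (V t (y i)) (V t (x j))‖ ≤
        M * Real.sqrt (∑ i, ‖V t (x i)‖ ^ 2) * Real.sqrt (∑ i, ‖V t (y i)‖ ^ 2) := by
    intro t _
    refine matrix_vec (fun i j => ∑ k, (om (2 * m) t) ^ (n k) * A k i j) M hM ?_
      (fun j => V t (x j)) (fun i => V t (y i))
    intro ξ η
    have := hA (om (2 * m) t) (om_norm _ _) ξ η
    refine le_trans (le_of_eq ?_) this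
    congr 1
    simp only [Finset.sum_mul]
    rw [Finset.sum_comm (s := (Finset.univ : Finset (Fin K)))]
    refine Finset.sum_congr rfl (fun i _ => ?_)
    rw [Finset.sum_comm (s := (Finset.univ : Finset (Fin K)))]
  have hCS : ∑ t ∈ range (2 * m), Real.sqrt (∑ i, ‖V t (x i)‖ ^ 2) *
      Real.sqrt (∑ i, ‖V t (y i)‖ ^ 2) ≤
      Real.sqrt (∑ t ∈ range (2 * m), ∑ i, ‖V t (x i)‖ ^ 2) *
      Real.sqrt (∑ t ∈ range (2 * m), ∑ i, ‖V t (y i)‖ ^ 2) := by
    have := Real.sum_sqrt_mul_sqrt_le (range (2 * m))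
      (f := fun t => ∑ i, ‖V t (x i)‖ ^ 2) (g := fun t => ∑ i, ‖V t (y i)‖ ^ 2)
      (fun t => Finset.sum_nonneg (fun i _ => sq_nonneg _))
      (fun t => Finset.sum_nonneg (fun i _ => sq_nonneg _))
    exact this
  have hsq : ∀ w : ι → H, ∑ t ∈ range (2 * m), ∑ i, ‖V t (w i)‖ ^ 2 =
      ((2 * m : ℕ) : ℝ) * m * ∑ i, ‖w i‖ ^ 2 := by
    intro w
    rw [Finset.sum_comm, Finset.mul_sum]
    refine Finset.sum_congr rfl (fun i _ => ?_)
    rw [avg_norm C m hm V hV (w i)]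
    ring
  have hfin : ((2 * m : ℕ) : ℝ) *
      ‖∑ k, ∑ i, ∑ j, ((m : ℂ) - n k) * (A k i j * inner ℂ (y i) ((C ^ (n k)) (x j)))‖ ≤
      ((2 * m : ℕ) : ℝ) *
        (m * (M * Real.sqrt (∑ i, ‖x i‖ ^ 2) * Real.sqrt (∑ i, ‖y i‖ ^ 2))) := by
    have e : ((2 * m : ℕ) : ℝ) *
      ‖∑ k, ∑ i, ∑ j, ((m : ℂ) - n k) * (A k i j * inner ℂ (y i) ((C ^ (n k)) (x j)))‖ =
      ‖((2 * m : ℕ) : ℂ) *
      (∑ k, ∑ i, ∑ j, ((m : ℂ) - n k) * (A k i j * inner ℂ (y i) ((C ^ (n k)) (x j))))‖ := by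
      rw [norm_mul, Complex.norm_natCast]
    rw [e, key]
    calc ‖∑ t ∈ range (2 * m), ∑ i, ∑ j, (∑ k, (om (2 * m) t) ^ (n k) * A k i j) *
        inner ℂ (V t (y i)) (V t (x j))‖
        ≤ ∑ t ∈ range (2 * m), M * Real.sqrt (∑ i, ‖V t (x i)‖ ^ 2) *
          Real.sqrt (∑ i, ‖V t (y i)‖ ^ 2) := norm_sum_le_of_le _ hbound
      _ = M * ∑ t ∈ range (2 * m), Real.sqrt (∑ i, ‖V t (x i)‖ ^ 2) *
          Real.sqrt (∑ i, ‖V t (y i)‖ ^ 2) := by
          rw [Finset.mul_sum]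
          refine Finset.sum_congr rfl (fun t _ => ?_)
          ring
      _ ≤ M * (Real.sqrt (∑ t ∈ range (2 * m), ∑ i, ‖V t (x i)‖ ^ 2) *
          Real.sqrt (∑ t ∈ range (2 * m), ∑ i, ‖V t (y i)‖ ^ 2)) :=
          mul_le_mul_of_nonneg_left hCS hM
      _ = _ := by
          rw [hsq x, hsq y, Real.sqrt_mul (show (0 : ℝ) ≤ ((2 * m : ℕ) : ℝ) * m by positivity)
            (∑ i, ‖x i‖ ^ 2), Real.sqrt_mul (show (0 : ℝ) ≤ ((2 * m : ℕ) : ℝ) * m by positivity)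
            (∑ i, ‖y i‖ ^ 2)]
          have hs : Real.sqrt (((2 * m : ℕ) : ℝ) * m) * Real.sqrt (((2 * m : ℕ) : ℝ) * m) =
              ((2 * m : ℕ) : ℝ) * m := Real.mul_self_sqrt (by positivity)
          calc M * (Real.sqrt (((2 * m : ℕ) : ℝ) * m) * Real.sqrt (∑ i, ‖x i‖ ^ 2) *
              (Real.sqrt (((2 * m : ℕ) : ℝ) * m) * Real.sqrt (∑ i, ‖y i‖ ^ 2)))
              = (Real.sqrt (((2 * m : ℕ) : ℝ) * m) * Real.sqrt (((2 * m : ℕ) : ℝ) * m)) *
                (M * Real.sqrt (∑ i, ‖x i‖ ^ 2) * Real.sqrt (∑ i, ‖y i‖ ^ 2)) := by ring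
            _ = _ := by rw [hs]; ring
  exact le_of_mul_le_mul_left hfin h2mR

theorem vn {H : Type*} [NormedAddCommGroup H] [InnerProductSpace ℂ H] [CompleteSpace H]
    (C : H →L[ℂ] H) (hC : ‖C‖ ≤ 1) {ι : Type} [Fintype ι] {K : ℕ} (n : Fin K → ℕ)
    (A : Fin K → ι → ι → ℂ) (M : ℝ) (hM : 0 ≤ M)
    (hA : ∀ z : ℂ, ‖z‖ = 1 → ∀ ξ η : ι → ℂ,
      ‖∑ k, ∑ i, ∑ j, z ^ (n k) * A k i j * conj (η i) * ξ j‖ ≤
      M * Real.sqrt (∑ i, ‖ξ i‖ ^ 2) * Real.sqrt (∑ i, ‖η i‖ ^ 2)) (x y : ι → H) :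
    ‖∑ k, ∑ i, ∑ j, A k i j * inner ℂ (y i) ((C ^ (n k)) (x j))‖ ≤
      M * Real.sqrt (∑ i, ‖x i‖ ^ 2) * Real.sqrt (∑ i, ‖y i‖ ^ 2) := by
  obtain ⟨N, hN⟩ : ∃ N : ℕ, ∀ k, n k < N :=
    ⟨(∑ k, n k) + 1, fun k => Nat.lt_succ_of_le
      (Finset.single_le_sum (f := n) (fun i _ => Nat.zero_le _) (Finset.mem_univ k))⟩
  set R : ℝ := M * Real.sqrt (∑ i, ‖x i‖ ^ 2) * Real.sqrt (∑ i, ‖y i‖ ^ 2) with hR
  have hlim : Tendsto (fun m : ℕ => ∑ k, ∑ i, ∑ j, (1 - (n k : ℂ) * ((m : ℂ))⁻¹) *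
      (A k i j * inner ℂ (y i) ((C ^ (n k)) (x j)))) atTop
      (𝓝 (∑ k, ∑ i, ∑ j, A k i j * inner ℂ (y i) ((C ^ (n k)) (x j)))) := by
    refine tendsto_finsetSum _ (fun k _ => tendsto_finsetSum _ (fun i _ =>
      tendsto_finsetSum _ (fun j _ => ?_)))
    have h0 : Tendsto (fun m : ℕ => ((m : ℂ))⁻¹) atTop (𝓝 0) :=
      tendsto_inv_atTop_nhds_zero_nat
    have h1 : Tendsto (fun m : ℕ => (1 - (n k : ℂ) * ((m : ℂ))⁻¹) *
        (A k i j * inner ℂ (y i) ((C ^ (n k)) (x j)))) atTop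
        (𝓝 ((1 - (n k : ℂ) * 0) * (A k i j * inner ℂ (y i) ((C ^ (n k)) (x j))))) :=
      (tendsto_const_nhds.sub (tendsto_const_nhds.mul h0)).mul tendsto_const_nhds
    simpa using h1
  refine le_of_tendsto hlim.norm ?_
  filter_upwards [eventually_ge_atTop (N + 1)] with m hm
  have hm0 : 0 < m := by omega
  have hmR : (0 : ℝ) < m := by exact_mod_cast hm0
  have hmC : (m : ℂ) ≠ 0 := by exact_mod_cast hm0.ne'
  have hb := vn_fixed C hC n A M hM hA x y m hm0 (fun k => (hN k).trans (by omega))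
  have he : (m : ℂ) * (∑ k, ∑ i, ∑ j, (1 - (n k : ℂ) * ((m : ℂ))⁻¹) *
      (A k i j * inner ℂ (y i) ((C ^ (n k)) (x j)))) =
      ∑ k, ∑ i, ∑ j, ((m : ℂ) - n k) * (A k i j * inner ℂ (y i) ((C ^ (n k)) (x j))) := by
    simp only [Finset.mul_sum]
    refine Finset.sum_congr rfl (fun k _ => Finset.sum_congr rfl (fun i _ =>
      Finset.sum_congr rfl (fun j _ => ?_)))
    field_simp
  rw [← he, norm_mul, Complex.norm_natCast] at hb
  exact le_of_mul_le_mul_left hb hmR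

theorem vn_poly {H : Type*} [NormedAddCommGroup H] [InnerProductSpace ℂ H] [CompleteSpace H]
    (C : H →L[ℂ] H) (hC : ‖C‖ ≤ 1) (p : ℂ[X]) (hp : Bd p) : ‖aeval C p‖ ≤ 1 := by
  have heval : ∀ z : ℂ, p.eval z = ∑ k : Fin (p.natDegree + 1), z ^ (k : ℕ) * p.coeff k := by
    intro z
    rw [Polynomial.eval_eq_sum_range, Finset.sum_range (fun i => p.coeff i * z ^ i)]
    exact Finset.sum_congr rfl (fun k _ => mul_comm _ _)
  have hmain : ∀ x y : H, ‖inner ℂ y ((aeval C p) x)‖ ≤ ‖x‖ * ‖y‖ := by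
    intro x y
    have h := vn C hC (ι := Unit) (fun k : Fin (p.natDegree + 1) => (k : ℕ))
      (fun k _ _ => p.coeff k) 1 zero_le_one ?_ (fun _ => x) (fun _ => y)
    · simp only [Finset.univ_unique, Finset.sum_singleton, one_mul,
        Real.sqrt_sq (norm_nonneg _)] at h
      refine le_trans (le_of_eq ?_) h
      congr 1
      rw [Polynomial.aeval_eq_sum_range, Finset.sum_range (fun i => p.coeff i • C ^ i)]
      rw [_root_.sum_apply, inner_sum]
      refine Finset.sum_congr rfl (fun k _ => ?_)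
      rw [smul_apply, inner_smul_right]
    · intro z hz ξ η
      simp only [Finset.univ_unique, Finset.sum_singleton, one_mul,
        Real.sqrt_sq (norm_nonneg _)]
      have e : ∑ k : Fin (p.natDegree + 1), z ^ (k : ℕ) * p.coeff k * conj (η default) *
          ξ default = p.eval z * (conj (η default) * ξ default) := by
        rw [heval z, Finset.sum_mul]
        refine Finset.sum_congr rfl (fun k _ => ?_)
        ring
      rw [e, norm_mul, norm_mul, RCLike.norm_conj]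
      have := hp z hz.le
      have h0 : 0 ≤ ‖η default‖ * ‖ξ default‖ := by positivity
      calc ‖p.eval z‖ * (‖η default‖ * ‖ξ default‖) ≤ 1 * (‖η default‖ * ‖ξ default‖) :=
            mul_le_mul_of_nonneg_right this h0
        _ = ‖ξ default‖ * ‖η default‖ := by ring
  refine ContinuousLinearMap.opNorm_le_bound _ zero_le_one (fun x => ?_)
  have h := hmain x ((aeval C p) x)
  rw [inner_self_eq_norm_sq_to_K] at h
  have h' : ‖((‖(aeval C p) x‖ : ℂ)) ^ 2‖ = ‖(aeval C p) x‖ ^ 2 := by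
    rw [norm_pow]
    simp
  have h2 : ‖(aeval C p) x‖ ^ 2 ≤ ‖x‖ * ‖(aeval C p) x‖ := by
    rw [← h']
    exact h
  by_cases h0 : ‖(aeval C p) x‖ = 0
  · rw [h0]
    positivity
  · have hpos : 0 < ‖(aeval C p) x‖ := lt_of_le_of_ne (norm_nonneg _) (Ne.symm h0)
    rw [one_mul]
    nlinarith

end Pool.Agent.Work.MP_ebd05c_an.H
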