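import Pool.Agent.Work.MP_ebd05c_an.H.PolyT
import Pool.Agent.Work.MP_ebd05c_an.H.Gg
import Pool.Agent.Work.MP_ebd05c_an.H.VN

set_option autoImplicit false

open scoped BigOperators ENNReal Topology ComplexConjugate
open Finset Filter Polynomial

/-!
Lower bound for the similarity constant.
Proof: x_j = lp.single 2 (true, -M) (EuclideanSpace.single j 1), y_i = lp.single 2 (false, -M)
(EuclideanSpace.single i 1), n_k = lam r k - 2M > 0. By pow_eq, T0_pow, yn_apply: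
<y_i, S^(n_k) x_j> = e gg (lam r k) (-M) (-M) rho(-M)^2 (C_k e_j)_i = e (lam - 2M)/lam * c k i j >= 1/2 part
(only the summand k' = k contributes: n_k - lam r k' - (-M) = -M iff lam r k' = lam r k).
So sum_k sum_(i,j) c k i j <y_i, S^(n_k) x_j> is real and at least e/2 * N * card/2.
On the other hand S^(n_k) = B C'^(n_k) A: <y_i, S^n x_j> = <B* y_i, C'^n (A x_j)>; vn with the matrices
c k and M = sqrt N (CarData.mat for z k = z^(n k)): at most
sqrt N (sum |A x_j|^2)^(1/2) (sum |B* y_i|^2)^(1/2) <= sqrt N |A| |B| card.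
-/

namespace Pool.Agent.Work.MP_ebd05c_an.H

/-- the matrix entry of the powers -/
private theorem entry_pow {rho : ℤ → ℝ} {M : ℕ} {d kap : ℝ} (h : IsRho rho M d kap) (hd : 0 < d)
    {r N : ℕ} (hr : 4 * M ≤ 2 ^ r) {ι : Type} [Fintype ι] [DecidableEq ι]
    {C : Fin N → (EuclideanSpace ℂ ι →L[ℂ] EuclideanSpace ℂ ι)} {c : Fin N → ι → ι → ℝ}
    (hC : CarData N ι C c)
    {T X : LS (Bool × ℤ) (EuclideanSpace ℂ ι) →L[ℂ] LS (Bool × ℤ) (EuclideanSpace ℂ ι)}
    (hT : IsT0 rho T) (hX : IsX rho r C X) (e : ℝ) (k : Fin N) (i j : ι) :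
    ∃ g : ℝ, 1 / 2 ≤ g ∧ (∀ i j : ι,
      inner ℂ (lp.single 2 ((false, -(M : ℤ)) : Bool × ℤ) (EuclideanSpace.single i (1 : ℂ)) :
          LS (Bool × ℤ) (EuclideanSpace ℂ ι))
        (((T + (e : ℂ) • X) ^ (lam r k - 2 * M))
          (lp.single 2 ((true, -(M : ℤ)) : Bool × ℤ) (EuclideanSpace.single j (1 : ℂ)) :
            LS (Bool × ℤ) (EuclideanSpace ℂ ι))) = ((e * g * c k i j : ℝ) : ℂ)) := by
  have hpos : ∀ s, 0 < rho s := fun s => hd.trans_le (h.low s)
  have hl4 : 4 * M ≤ lam r k := by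
    unfold lam
    calc 4 * M ≤ 2 ^ r := hr
      _ ≤ 2 ^ (r + (k : ℕ)) := Nat.pow_le_pow_right (by norm_num) (Nat.le_add_right _ _)
  have hlpos : 0 < lam r k := lam_pos r k
  have hlR : (0 : ℝ) < (lam r k : ℝ) := by exact_mod_cast hlpos
  have hcast : ((lam r k - 2 * M : ℕ) : ℤ) = (lam r k : ℤ) - 2 * M := by
    rw [Nat.cast_sub (by omega)]
    push_cast
    rfl
  have hl4' : (4 * M : ℝ) ≤ (lam r k : ℝ) := by exact_mod_cast hl4
  have hgg : gg (lam r k) (-(M : ℤ)) (-(M : ℤ)) = ((lam r k : ℝ) - 2 * M) / lam r k := by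
    rw [gg_neg _ hlpos _ _ (by omega) (by omega) (by omega)]
    push_cast
    ring
  refine ⟨((lam r k : ℝ) - 2 * M) / lam r k, ?_, ?_⟩
  · rw [div_le_div_iff₀ (by norm_num) hlR]
    linarith
  · intro i j
    set xj : LS (Bool × ℤ) (EuclideanSpace ℂ ι) :=
      lp.single 2 ((true, -(M : ℤ)) : Bool × ℤ) (EuclideanSpace.single j (1 : ℂ)) with hxj
    have hx1 : ∀ t : ℤ, (xj : Bool × ℤ → EuclideanSpace ℂ ι) (false, t) = 0 := by
      intro t
      rw [hxj, lp.single_apply_ne]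
      intro e1
      exact absurd (congrArg Prod.fst e1) (by simp)
    have hx2 : (xj : Bool × ℤ → EuclideanSpace ℂ ι) (true, -(M : ℤ))
        = EuclideanSpace.single j (1 : ℂ) := by
      rw [hxj, lp.single_apply_self]
    have hx3 : ∀ t : ℤ, t ≠ -(M : ℤ) →
        (xj : Bool × ℤ → EuclideanSpace ℂ ι) (true, t) = 0 := by
      intro t ht
      rw [hxj, lp.single_apply_ne]
      intro e1
      exact ht (congrArg Prod.snd e1)
    rw [pow_eq hpos hT hX, lp.inner_single_left]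
    have h1 : (((T ^ (lam r k - 2 * M) + (e : ℂ) • Yn T X (lam r k - 2 * M)) xj :
        LS (Bool × ℤ) (EuclideanSpace ℂ ι)) : Bool × ℤ → EuclideanSpace ℂ ι)
          (false, -(M : ℤ)) = (((e * (((lam r k : ℝ) - 2 * M) / lam r k) : ℝ) : ℂ)) •
            C k (EuclideanSpace.single j (1 : ℂ)) := by
      rw [ContinuousLinearMap.add_apply, ContinuousLinearMap.smul_apply, lp.coeFn_add,
        lp.coeFn_smul, Pi.add_apply, Pi.smul_apply, (T0_pow hpos hT _ _).1, hx1, smul_zero,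
        zero_add, (yn_apply hpos hT hX _ _).1]
      rw [Finset.sum_eq_single k]
      · have e1 : ((lam r k - 2 * M : ℕ) : ℤ) - (lam r k : ℤ) - -(M : ℤ) = -(M : ℤ) := by
          rw [hcast]
          ring
        rw [e1, hx2, hgg, h.one _ le_rfl, mul_one, mul_one, smul_smul]
        push_cast
        rfl
      · intro k' _ hk'
        rw [hx3, map_zero, smul_zero]
        intro e1
        rw [hcast] at e1
        have e2 : lam r k' = lam r k := by omega
        exact hk' (Fin.ext (lam_inj r e2))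
      · intro h2
        exact absurd (Finset.mem_univ _) h2
    rw [h1, inner_smul_right, EuclideanSpace.inner_single_left, hC.entry]
    simp
    
theorem nonsim {rho : ℤ → ℝ} {M : ℕ} {d kap : ℝ} (h : IsRho rho M d kap) (hd : 0 < d)
    (hd1 : d ≤ 1) {r N : ℕ} (hr : 4 * M ≤ 2 ^ r) {ι : Type} [Fintype ι] [DecidableEq ι]
    {C : Fin N → (EuclideanSpace ℂ ι →L[ℂ] EuclideanSpace ℂ ι)} {c : Fin N → ι → ι → ℝ}
    (hC : CarData N ι C c)
    {T X : LS (Bool × ℤ) (EuclideanSpace ℂ ι) →L[ℂ] LS (Bool × ℤ) (EuclideanSpace ℂ ι)}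
    (hT : IsT0 rho T) (hX : IsX rho r C X) (e : ℝ) (he : 0 ≤ e)
    {H' : Type} [NormedAddCommGroup H'] [InnerProductSpace ℂ H'] [CompleteSpace H']
    (C' : H' →L[ℂ] H') (hC' : ‖C'‖ ≤ 1) (A : LS (Bool × ℤ) (EuclideanSpace ℂ ι) →L[ℂ] H')
    (B : H' →L[ℂ] LS (Bool × ℤ) (EuclideanSpace ℂ ι))
    (hAB : ∀ n : ℕ, (T + (e : ℂ) • X) ^ n = B.comp ((C' ^ n).comp A)) :
    e * Real.sqrt N / 4 ≤ ‖B‖ * ‖A‖ := by
  obtain ⟨j0⟩ : Nonempty ι := Fintype.card_pos_iff.1 hC.card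
  choose g hg1 hg2 using fun k : Fin N => entry_pow h hd hr hC hT hX e k j0 j0
  set n : Fin N → ℕ := fun k => lam r k - 2 * M with hn
  set x : ι → LS (Bool × ℤ) (EuclideanSpace ℂ ι) := fun j =>
    lp.single 2 ((true, -(M : ℤ)) : Bool × ℤ) (EuclideanSpace.single j (1 : ℂ)) with hx
  set y : ι → LS (Bool × ℤ) (EuclideanSpace ℂ ι) := fun i =>
    lp.single 2 ((false, -(M : ℤ)) : Bool × ℤ) (EuclideanSpace.single i (1 : ℂ)) with hy
  have hxn : ∀ j, ‖x j‖ = 1 := fun j => by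
    rw [hx]
    simp only
    rw [lp.norm_single (by norm_num), EuclideanSpace.norm_single, norm_one]
  have hyn : ∀ j, ‖y j‖ = 1 := fun j => by
    rw [hy]
    simp only
    rw [lp.norm_single (by norm_num), EuclideanSpace.norm_single, norm_one]
  set B' := ContinuousLinearMap.adjoint B with hB'
  have hmat : ∀ z : ℂ, ‖z‖ = 1 → ∀ ξ η : ι → ℂ,
      ‖∑ k, ∑ i, ∑ j, z ^ (n k) * (c k i j : ℂ) * conj (η i) * ξ j‖ ≤
      Real.sqrt N * Real.sqrt (∑ i, ‖ξ i‖ ^ 2) * Real.sqrt (∑ i, ‖η i‖ ^ 2) := by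
    intro z hz ξ η
    exact hC.mat (fun k => z ^ (n k)) (fun k => by rw [norm_pow, hz, one_pow]) ξ η
  have hvn := vn C' hC' n (fun k i j => (c k i j : ℂ)) (Real.sqrt N) (Real.sqrt_nonneg _) hmat
    (fun j => A (x j)) (fun i => B' (y i))
  have hent : ∀ k i j, inner ℂ (B' (y i)) ((C' ^ (n k)) (A (x j)))
      = ((e * g k * c k i j : ℝ) : ℂ) := by
    intro k i j
    rw [hB', ContinuousLinearMap.adjoint_inner_left, ← hg2 k i j, hAB (lam r k - 2 * M)]
    rfl
  have hcard : (0 : ℝ) < (Fintype.card ι : ℝ) := by exact_mod_cast hC.card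
  have hlow : e * N * (Fintype.card ι : ℝ) / 4 ≤
      ‖∑ k, ∑ i, ∑ j, (c k i j : ℂ) * inner ℂ (B' (y i)) ((C' ^ (n k)) (A (x j)))‖ := by
    have h1 : ∑ k, ∑ i, ∑ j, (c k i j : ℂ) * inner ℂ (B' (y i)) ((C' ^ (n k)) (A (x j)))
        = ((∑ k, e * g k * ((Fintype.card ι : ℝ) / 2) : ℝ) : ℂ) := by
      rw [Complex.ofReal_sum]
      apply Finset.sum_congr rfl
      intro k _
      rw [← hC.hs k, Finset.mul_sum, Complex.ofReal_sum]
      apply Finset.sum_congr rfl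
      intro i _
      rw [Finset.mul_sum, Complex.ofReal_sum]
      apply Finset.sum_congr rfl
      intro j _
      rw [hent]
      push_cast
      ring
    rw [h1, Complex.norm_real]
    refine le_trans ?_ (Real.le_norm_self _)
    have h2 : ∀ k : Fin N, e * (1 / 2) * ((Fintype.card ι : ℝ) / 2)
        ≤ e * g k * ((Fintype.card ι : ℝ) / 2) := by
      intro k
      have h3 := hg1 k
      gcongr
    calc e * N * (Fintype.card ι : ℝ) / 4
        = ∑ _k : Fin N, e * (1 / 2) * ((Fintype.card ι : ℝ) / 2) := by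
          rw [Finset.sum_const, Finset.card_univ, Fintype.card_fin, nsmul_eq_mul]
          ring
      _ ≤ _ := Finset.sum_le_sum fun k _ => h2 k
  have hA1 : Real.sqrt (∑ i, ‖A (x i)‖ ^ 2) ≤ Real.sqrt (Fintype.card ι) * ‖A‖ := by
    rw [← Real.sqrt_sq (norm_nonneg A), ← Real.sqrt_mul (Nat.cast_nonneg _)]
    apply Real.sqrt_le_sqrt
    calc ∑ i, ‖A (x i)‖ ^ 2 ≤ ∑ _i : ι, ‖A‖ ^ 2 := by
          apply Finset.sum_le_sum
          intro i _
          have h3 := A.le_opNorm (x i)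
          rw [hxn, mul_one] at h3
          gcongr
      _ = (Fintype.card ι : ℝ) * ‖A‖ ^ 2 := by
          rw [Finset.sum_const, Finset.card_univ, nsmul_eq_mul]
  have hB1 : Real.sqrt (∑ i, ‖B' (y i)‖ ^ 2) ≤ Real.sqrt (Fintype.card ι) * ‖B‖ := by
    rw [← Real.sqrt_sq (norm_nonneg B), ← Real.sqrt_mul (Nat.cast_nonneg _)]
    apply Real.sqrt_le_sqrt
    calc ∑ i, ‖B' (y i)‖ ^ 2 ≤ ∑ _i : ι, ‖B‖ ^ 2 := by
          apply Finset.sum_le_sum
          intro i _
          have h3 := B'.le_opNorm (y i)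
          rw [hyn, mul_one] at h3
          have h4 : ‖B'‖ = ‖B‖ := LinearIsometryEquiv.norm_map _ _
          rw [h4] at h3
          gcongr
      _ = (Fintype.card ι : ℝ) * ‖B‖ ^ 2 := by
          rw [Finset.sum_const, Finset.card_univ, nsmul_eq_mul]
  have hmain : e * N * (Fintype.card ι : ℝ) / 4 ≤
      Real.sqrt N * (‖B‖ * ‖A‖) * (Fintype.card ι : ℝ) := by
    calc e * N * (Fintype.card ι : ℝ) / 4
        ≤ ‖∑ k, ∑ i, ∑ j, (c k i j : ℂ) * inner ℂ (B' (y i)) ((C' ^ (n k)) (A (x j)))‖ := hlow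
      _ ≤ Real.sqrt N * Real.sqrt (∑ i, ‖A (x i)‖ ^ 2) * Real.sqrt (∑ i, ‖B' (y i)‖ ^ 2) := hvn
      _ ≤ Real.sqrt N * (Real.sqrt (Fintype.card ι) * ‖A‖) *
          (Real.sqrt (Fintype.card ι) * ‖B‖) := by gcongr
      _ = Real.sqrt N * (‖B‖ * ‖A‖) *
          (Real.sqrt (Fintype.card ι) * Real.sqrt (Fintype.card ι)) := by ring
      _ = Real.sqrt N * (‖B‖ * ‖A‖) * (Fintype.card ι : ℝ) := by
          rw [Real.mul_self_sqrt (Nat.cast_nonneg _)]
  rcases Nat.eq_zero_or_pos N with hN | hN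
  · rw [hN]
    simp only [Nat.cast_zero, Real.sqrt_zero, mul_zero, zero_div]
    positivity
  · have hN' : (0 : ℝ) < Real.sqrt N := Real.sqrt_pos.2 (by exact_mod_cast hN)
    have h1 : (e * Real.sqrt N / 4) * (Real.sqrt N * (Fintype.card ι : ℝ)) ≤
        (‖B‖ * ‖A‖) * (Real.sqrt N * (Fintype.card ι : ℝ)) := by
      have h2 : (e * Real.sqrt N / 4) * (Real.sqrt N * (Fintype.card ι : ℝ))
          = e * (Real.sqrt N * Real.sqrt N) * (Fintype.card ι : ℝ) / 4 := by ring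
      rw [h2, Real.mul_self_sqrt (Nat.cast_nonneg _)]
      linarith [hmain]
    exact le_of_mul_le_mul_right h1 (mul_pos hN' hcard)

end Pool.Agent.Work.MP_ebd05c_an.H
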