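import Pool.Agent.Work.MP_ebd05c_an.H.Defs

set_option autoImplicit false

open scoped BigOperators ENNReal Topology ComplexConjugate
open Finset Filter Polynomial

/-!
Consequences of the CAR norm inequality (general inner product space).
dual: take a_k = conj (inner y (C_k x)) in CAR and Cauchy-Schwarz. norm_le: a = Pi.single k 1.
-/

namespace Pool.Agent.Work.MP_ebd05c_an.H

variable {E : Type} [NormedAddCommGroup E] [InnerProductSpace ℂ E]

theorem CAR.dual {N : ℕ} {C : Fin N → (E →L[ℂ] E)} (h : CAR C) (x y : E) :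
    ∑ k, ‖inner ℂ y (C k x)‖ ^ 2 ≤ ‖x‖ ^ 2 * ‖y‖ ^ 2 := by
  set s : ℝ := ∑ k, ‖inner ℂ y (C k x)‖ ^ 2 with hs
  have hs0 : 0 ≤ s := Finset.sum_nonneg (fun k _ => by positivity)
  have h1 := h (fun k => conj (inner ℂ y (C k x))) x
  have h2 : ∑ k, ‖conj (inner ℂ y (C k x))‖ ^ 2 = s := by
    simp only [RCLike.norm_conj, hs]
  rw [h2] at h1
  have h3 : inner ℂ y (∑ k, (conj (inner ℂ y (C k x))) • C k x) = (s : ℂ) := by
    rw [inner_sum, hs]
    push_cast
    apply Finset.sum_congr rfl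
    intro k _
    rw [inner_smul_right, mul_comm, Complex.mul_conj, Complex.normSq_eq_norm_sq]
    push_cast
    rfl
  have h4 : s ≤ ‖y‖ * ‖∑ k, (conj (inner ℂ y (C k x))) • C k x‖ := by
    have h5 := norm_inner_le_norm (𝕜 := ℂ) y (∑ k, (conj (inner ℂ y (C k x))) • C k x)
    rw [h3, Complex.norm_real, Real.norm_of_nonneg hs0] at h5
    exact h5
  set t : ℝ := ‖∑ k, (conj (inner ℂ y (C k x))) • C k x‖ with ht
  have ht0 : 0 ≤ t := norm_nonneg _
  have h6 : s ^ 2 ≤ ‖y‖ ^ 2 * (s * ‖x‖ ^ 2) := by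
    calc s ^ 2 ≤ (‖y‖ * t) ^ 2 := pow_le_pow_left₀ hs0 h4 2
      _ = ‖y‖ ^ 2 * t ^ 2 := by ring
      _ ≤ ‖y‖ ^ 2 * (s * ‖x‖ ^ 2) := by
        apply mul_le_mul_of_nonneg_left h1 (by positivity)
  rcases hs0.eq_or_lt with h0 | h0
  · rw [← h0]
    positivity
  · have h7 : s * s ≤ s * (‖x‖ ^ 2 * ‖y‖ ^ 2) := by
      calc s * s = s ^ 2 := by ring
        _ ≤ _ := h6
        _ = _ := by ring
    exact le_of_mul_le_mul_left h7 h0

theorem CAR.norm_le {N : ℕ} {C : Fin N → (E →L[ℂ] E)} (h : CAR C) (k : Fin N) (x : E) :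
    ‖C k x‖ ≤ ‖x‖ := by
  classical
  have h1 := h (Pi.single k 1) x
  have h2 : ∑ j, (Pi.single k 1 : Fin N → ℂ) j • C j x = C k x := by
    rw [Finset.sum_eq_single k]
    · rw [Pi.single_eq_same, one_smul]
    · intro j _ hj
      rw [Pi.single_eq_of_ne hj, zero_smul]
    · intro hk
      exact absurd (Finset.mem_univ k) hk
  have h3 : ∑ j, ‖(Pi.single k 1 : Fin N → ℂ) j‖ ^ 2 = 1 := by
    rw [Finset.sum_eq_single k]
    · rw [Pi.single_eq_same, norm_one, one_pow]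
    · intro j _ hj
      rw [Pi.single_eq_of_ne hj, norm_zero]
      norm_num
    · intro hk
      exact absurd (Finset.mem_univ k) hk
  rw [h2, h3, one_mul] at h1
  exact le_of_sq_le_sq h1 (norm_nonneg x)

end Pool.Agent.Work.MP_ebd05c_an.H
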