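import Pool.Agent.Work.MP_ebd05c_an.H.WOp
import Pool.Agent.Work.MP_ebd05c_an.H.Car0
import Pool.Agent.Work.MP_ebd05c_an.H.Gg

set_option autoImplicit false

open scoped BigOperators ENNReal Topology ComplexConjugate
open Finset Filter Polynomial

/-!
The coupling X: sum over k of the operators x -> [(false, s) |-> coefficient . C_k x(true, 1-lam-s)],
weighted permutations for the involution (false, s) <-> (true, 1 - lam - s) with weight 0 on the
indices (true, t). Each coefficient is at most 1/lam_k (GG_step) and vanishes outside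
-lam < s <= 0; |C_k| <= 1; sum of 2^-(r+k) <= 2/2^r.
-/

namespace Pool.Agent.Work.MP_ebd05c_an.H

variable {E : Type} [NormedAddCommGroup E] [InnerProductSpace ℂ E] [FiniteDimensional ℂ E]
  [CompleteSpace E]

omit [FiniteDimensional ℂ E] [CompleteSpace E] in
private theorem exists_Xk (rho : ℤ → ℝ) (h0 : ∀ s, 0 ≤ rho s) (h1 : ∀ s, rho s ≤ 1) (r k : ℕ)
    (C : E →L[ℂ] E) (hC : ‖C‖ ≤ 1) :
    ∃ X : LS (Bool × ℤ) E →L[ℂ] LS (Bool × ℤ) E, ‖X‖ ≤ 1 / (lam r k : ℝ) ∧
      (∀ (x : LS (Bool × ℤ) E) (s : ℤ), (X x : Bool × ℤ → E) (false, s) =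
      (((GG (lam r k) s - GG (lam r k) (s - 1)) * rho s * rho (1 - lam r k - s) : ℝ) : ℂ) •
        C ((x : Bool × ℤ → E) (true, 1 - lam r k - s))) ∧
      (∀ (x : LS (Bool × ℤ) E) (t : ℤ), (X x : Bool × ℤ → E) (true, t) = 0) := by
  obtain ⟨l, hl⟩ : ∃ l, l = lam r k := ⟨_, rfl⟩
  have hlp : 0 < l := hl ▸ lam_pos r k
  rw [← hl]
  have hcoef : ∀ s : ℤ,
      ‖(((GG l s - GG l (s - 1)) * rho s * rho (1 - l - s) : ℝ) : ℂ)‖ ≤ 1 / (l : ℝ) := by
    intro s
    have h3 : 0 ≤ GG l s - GG l (s - 1) ∧ GG l s - GG l (s - 1) ≤ 1 / (l : ℝ) := by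
      rw [GG_step l hlp s]
      split_ifs
      · exact ⟨by positivity, le_rfl⟩
      · exact ⟨le_rfl, by positivity⟩
    rw [Complex.norm_real, Real.norm_eq_abs,
      abs_of_nonneg (mul_nonneg (mul_nonneg h3.1 (h0 _)) (h0 _))]
    calc (GG l s - GG l (s - 1)) * rho s * rho (1 - l - s)
        ≤ (1 / (l : ℝ)) * 1 * 1 := by
          apply mul_le_mul (mul_le_mul h3.2 (h1 _) (h0 _) (by positivity)) (h1 _) (h0 _)
          positivity
      _ = 1 / (l : ℝ) := by ring
  obtain ⟨X, hX, hXn⟩ := exists_wop (E := E)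
    (σ := { toFun := fun j : Bool × ℤ => (!j.1, 1 - l - j.2)
            invFun := fun j : Bool × ℤ => (!j.1, 1 - l - j.2)
            left_inv := by
              rintro ⟨b, s⟩
              simp
            right_inv := by
              rintro ⟨b, s⟩
              simp })
    (fun j => if j.1 then 0 else
      ((((GG l j.2 - GG l (j.2 - 1)) * rho j.2 * rho (1 - l - j.2)) : ℝ) : ℂ) • C)
    (1 / (l : ℝ)) (by positivity) (by
      rintro ⟨b, s⟩
      cases b
      · simp only [Bool.false_eq_true, if_false]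
        rw [norm_smul]
        calc _ ≤ 1 / (l : ℝ) * 1 := mul_le_mul (hcoef s) hC (norm_nonneg _) (by positivity)
          _ = 1 / (l : ℝ) := mul_one _
      · simp only [if_true, norm_zero]
        positivity)
  refine ⟨X, hXn, fun x s => ?_, fun x t => ?_⟩
  · rw [hX x (false, s)]
    simp
  · rw [hX x (true, t)]
    simp

theorem exists_X (rho : ℤ → ℝ) (h0 : ∀ s, 0 ≤ rho s) (h1 : ∀ s, rho s ≤ 1) (r : ℕ) {N : ℕ}
    (C : Fin N → (E →L[ℂ] E)) (hC : CAR C) :
    ∃ X : LS (Bool × ℤ) E →L[ℂ] LS (Bool × ℤ) E, IsX rho r C X ∧ IsCompactOperator X ∧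
      ‖X‖ ≤ 2 / 2 ^ r := by
  have hCn : ∀ k, ‖C k‖ ≤ 1 := fun k =>
    ContinuousLinearMap.opNorm_le_bound _ zero_le_one (fun x => by
      rw [one_mul]
      exact hC.norm_le k x)
  choose X hXn hXf hXt using fun k : Fin N => exists_Xk rho h0 h1 r k (C k) (hCn k)
  have hf : ∀ (x : LS (Bool × ℤ) E) (j : Bool × ℤ),
      ((∑ k, X k) x : Bool × ℤ → E) j = ∑ k, (X k x : Bool × ℤ → E) j := by
    intro x j
    rw [_root_.sum_apply, lp.coeFn_sum, Finset.sum_apply]
  have hIs : IsX rho r C (∑ k, X k) := by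
    refine ⟨fun x s => ?_, fun x t => ?_⟩
    · rw [hf]
      exact Finset.sum_congr rfl fun k _ => hXf k x s
    · rw [hf]
      exact Finset.sum_eq_zero fun k _ => hXt k x t
  refine ⟨∑ k, X k, hIs, ?_, ?_⟩
  · apply wop_compact _ ((univ : Finset Bool) ×ˢ
      ((univ : Finset (Fin N)).biUnion fun k => Finset.Ioc (-(lam r k : ℤ)) 0))
    rintro x ⟨b, s⟩ hj
    cases b
    · rw [hIs.1]
      apply Finset.sum_eq_zero
      intro k _
      have h2 : ¬ (-(lam r k : ℤ) < s ∧ s ≤ 0) := by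
        intro h3
        apply hj
        rw [Finset.mem_product, Finset.mem_biUnion]
        exact ⟨Finset.mem_univ _, k, Finset.mem_univ _, Finset.mem_Ioc.2 h3⟩
      rw [GG_step _ (lam_pos r k), if_neg h2, zero_mul, zero_mul, Complex.ofReal_zero, zero_smul]
    · exact hIs.2 x s
  · refine (norm_sum_le _ _).trans ?_
    have h2 : ∑ k : Fin N, ‖X k‖ ≤ ∑ k : Fin N, 1 / (lam r k : ℝ) :=
      Finset.sum_le_sum fun k _ => hXn k
    refine h2.trans ?_
    have h3 : ∑ k : Fin N, 1 / (lam r k : ℝ) = ∑ k ∈ range N, 1 / (lam r k : ℝ) :=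
      Fin.sum_univ_eq_sum_range (fun k => 1 / (lam r k : ℝ)) N
    rw [h3]
    have h4 : ∀ m : ℕ, ∑ k ∈ range m, 1 / (lam r k : ℝ) = 2 / 2 ^ r - 2 / 2 ^ (r + m) := by
      intro m
      induction m with
      | zero => simp
      | succ m ih =>
        rw [Finset.sum_range_succ, ih, lam]
        push_cast
        have h5 : (2 : ℝ) ^ (r + (m + 1)) = 2 ^ (r + m) * 2 := by
          rw [← add_assoc, pow_succ]
        rw [h5]
        field_simp
        ring
    rw [h4]
    have h5 : (0 : ℝ) ≤ 2 / 2 ^ (r + N) := by positivity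
    linarith

end Pool.Agent.Work.MP_ebd05c_an.H
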