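import Pool.Agent.Work.MP_ebd05c_an.H.Defs

set_option autoImplicit false

open scoped BigOperators ENNReal Topology ComplexConjugate
open Finset Filter Polynomial

/-!
Existence of the weights: linear interpolation
rho s = 1 - (1 - d) * max 0 (min 1 ((s + M)/M)) with M >= 1/(d kap), M > 0.
-/

namespace Pool.Agent.Work.MP_ebd05c_an.H

theorem exists_rho (d kap : ℝ) (hd : 0 < d) (hd1 : d ≤ 1) (hk : 0 < kap) :
    ∃ (rho : ℤ → ℝ) (M : ℕ), IsRho rho M d kap := by
  obtain ⟨M, hM⟩ := exists_nat_gt (1 / (d * kap))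
  have hdk : 0 < d * kap := mul_pos hd hk
  have hM0 : (0 : ℝ) < M := lt_trans (by positivity) hM
  have hMk : 1 / (M : ℝ) ≤ d * kap := by
    rw [div_le_iff₀ hM0]
    rw [div_lt_iff₀ hdk] at hM
    linarith
  set m : ℤ → ℝ := fun s => max 0 (min 1 (((s : ℝ) + M) / M)) with hm
  have hm1 : ∀ s, m s ≤ 1 := fun s => max_le zero_le_one (min_le_left _ _)
  have hm0 : ∀ s, 0 ≤ m s := fun s => le_max_left _ _
  have hstep : ∀ s : ℤ, m s ≤ m (s + 1) := by
    intro s
    simp only [hm]
    refine max_le_max le_rfl (min_le_min le_rfl ?_)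
    refine (div_le_div_iff_of_pos_right hM0).mpr ?_
    push_cast
    linarith
  have hstep2 : ∀ s : ℤ, m (s + 1) ≤ m s + 1 / M := by
    intro s
    have h1M : 0 < 1 / (M : ℝ) := by positivity
    have e : (((s + 1 : ℤ) : ℝ) + M) / M = ((s : ℝ) + M) / M + 1 / M := by
      push_cast
      field_simp
      ring
    simp only [hm]
    rw [e]
    rcases le_total (((s : ℝ) + M) / M) 1 with h | h
    · rw [min_eq_right h]
      refine max_le ?_ ?_
      · have := le_max_left (0 : ℝ) (((s : ℝ) + M) / M)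
        linarith
      · refine (min_le_right _ _).trans ?_
        have := le_max_right (0 : ℝ) (((s : ℝ) + M) / M)
        linarith
    · rw [min_eq_left h]
      refine max_le ?_ ?_
      · have := le_max_left (0 : ℝ) (1 : ℝ)
        linarith
      · refine (min_le_left _ _).trans ?_
        have := le_max_right (0 : ℝ) (1 : ℝ)
        linarith
  have hlow : ∀ s : ℤ, d ≤ 1 - (1 - d) * m s := by
    intro s
    have := mul_le_mul_of_nonneg_left (hm1 s) (sub_nonneg.mpr hd1)
    linarith
  refine ⟨fun s => 1 - (1 - d) * m s, M, ?_, ?_, ?_, hlow, ?_⟩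
  · intro s hs
    have hs' : (s : ℝ) ≤ -(M : ℝ) := by exact_mod_cast hs
    have : ((s : ℝ) + M) / M ≤ 0 := div_nonpos_of_nonpos_of_nonneg (by linarith) hM0.le
    have hms : m s = 0 := by
      simp only [hm]
      exact max_eq_left ((min_le_right _ _).trans this)
    simp only [hms]
    ring
  · intro s hs
    have hs' : (0 : ℝ) ≤ (s : ℝ) := by exact_mod_cast hs
    have : 1 ≤ ((s : ℝ) + M) / M := by
      rw [le_div_iff₀ hM0]
      linarith
    have hms : m s = 1 := by
      simp only [hm]
      rw [min_eq_left this]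
      exact max_eq_right zero_le_one
    simp only [hms]
    ring
  · intro s
    have := mul_le_mul_of_nonneg_left (hstep s) (sub_nonneg.mpr hd1)
    show 1 - (1 - d) * m (s + 1) ≤ 1 - (1 - d) * m s
    linarith
  · intro s
    have hpos : 0 < 1 - (1 - d) * m s := lt_of_lt_of_le hd (hlow s)
    show 1 - kap ≤ (1 - (1 - d) * m (s + 1)) / (1 - (1 - d) * m s)
    rw [le_div_iff₀ hpos]
    have h1 := mul_le_mul_of_nonneg_left (hstep2 s) (sub_nonneg.mpr hd1)
    have h2 : (1 - d) * (1 / (M : ℝ)) ≤ 1 / M := by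
      have : 0 < 1 / (M : ℝ) := by positivity
      nlinarith
    have h3 : kap * d ≤ kap * (1 - (1 - d) * m s) := mul_le_mul_of_nonneg_left (hlow s) hk.le
    nlinarith

end Pool.Agent.Work.MP_ebd05c_an.H
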