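import Pool.Agent.Work.MP_ebd05c_an.H.OpT
import Pool.Agent.Work.MP_ebd05c_an.H.OpX
import Pool.Agent.Work.MP_ebd05c_an.H.Low
import Pool.Agent.Work.MP_ebd05c_an.H.NonS
import Pool.Agent.Work.MP_ebd05c_an.H.CarO
import Pool.Agent.Work.MP_ebd05c_an.H.Rho

set_option autoImplicit false

open scoped BigOperators ENNReal Topology ComplexConjugate
open Finset Filter Polynomial

/-!
The block with N matrices.
d = 1/N; rho, M from exists_rho for kap/2; r with 4 M <= 2^r and 2/2^r <= kap/2; T0, U, X; the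
operator T = T0 + e X = U + K, K = (T0 - U) + e X, |K| <= kap. T is invertible: |K| < 1 and U is unitary
(Neumann series, Units.oneSub or the like), R = T^(-1), |R| <= 1/(1 - kap), since
|T x| >= (1 - kap)|x|. |R^n| <= 9 N^2 by lower (2N + (3+4) N^2 <= 9 N^2). Separable: E is finite
dimensional, the index set is countable (dense span of the single vectors).
-/

namespace Pool.Agent.Work.MP_ebd05c_an.H

private theorem sep_LS (E : Type) [NormedAddCommGroup E] [InnerProductSpace ℂ E]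
    [TopologicalSpace.SeparableSpace E] : TopologicalSpace.SeparableSpace (LS (Bool × ℤ) E) := by
  classical
  rw [← TopologicalSpace.isSeparable_univ_iff]
  have h1 : TopologicalSpace.IsSeparable
      (⋃ i : Bool × ℤ, Set.range (lp.singleContinuousLinearMap ℂ (fun _ : Bool × ℤ => E) 2 i)) :=
    TopologicalSpace.IsSeparable.iUnion fun i =>
      TopologicalSpace.isSeparable_range
        (lp.singleContinuousLinearMap ℂ (fun _ : Bool × ℤ => E) 2 i).continuous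
  have h2 := (TopologicalSpace.IsSeparable.span (R := ℂ) h1).closure
  refine h2.mono fun f _ => ?_
  have h3 := lp.hasSum_single (p := 2) (E := fun _ : Bool × ℤ => E) ENNReal.ofNat_ne_top f
  refine mem_closure_of_tendsto h3 (Filter.Eventually.of_forall fun s => ?_)
  refine Submodule.sum_mem _ fun i _ => Submodule.subset_span ?_
  exact Set.mem_iUnion.mpr ⟨i, ⟨f i, rfl⟩⟩

private theorem inv_of_pert {H : Type} [NormedAddCommGroup H] [InnerProductSpace ℂ H]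
    [CompleteSpace H] (U K : H →L[ℂ] H) (hU : U ∈ unitary (H →L[ℂ] H)) (kap : ℝ)
    (hk1 : kap < 1) (hK : ‖K‖ ≤ kap) :
    ∃ R : H →L[ℂ] H, (U + K) * R = 1 ∧ R * (U + K) = 1 ∧ ‖R‖ ≤ 1 / (1 - kap) := by
  have hU1 : star U * U = 1 := Unitary.star_mul_self_of_mem hU
  have hU2 : U * star U = 1 := Unitary.mul_star_self_of_mem hU
  have hn : ‖-(star U * K)‖ < 1 := by
    rw [norm_neg]
    refine lt_of_le_of_lt ?_ (hK.trans_lt hk1)
    refine ContinuousLinearMap.opNorm_le_bound _ (norm_nonneg _) fun x => ?_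
    change ‖(star U) (K x)‖ ≤ _
    rw [ContinuousLinearMap.norm_map_of_mem_unitary (Unitary.star_mem hU)]
    exact K.le_opNorm x
  set u := Units.oneSub (-(star U * K)) hn with hu
  have hval : (u : H →L[ℂ] H) = 1 + star U * K := by
    rw [hu, Units.val_oneSub, sub_neg_eq_add]
  have hT : U + K = U * u := by
    rw [hval, mul_add, mul_one, ← mul_assoc, hU2, one_mul]
  have e1 : (U + K) * ((↑u⁻¹ : H →L[ℂ] H) * star U) = 1 := by
    rw [hT, mul_assoc, ← mul_assoc (u : H →L[ℂ] H), Units.mul_inv, one_mul, hU2]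
  have e2 : ((↑u⁻¹ : H →L[ℂ] H) * star U) * (U + K) = 1 := by
    rw [hT, mul_assoc, ← mul_assoc (star U), hU1, one_mul, Units.inv_mul]
  refine ⟨(↑u⁻¹ : H →L[ℂ] H) * star U, e1, e2, ?_⟩
  have hpos : 0 < 1 - kap := by linarith
  refine ContinuousLinearMap.opNorm_le_bound _ (by positivity) fun y => ?_
  set x := ((↑u⁻¹ : H →L[ℂ] H) * star U) y with hx
  have hy : U x + K x = y := by
    have h := congrArg (fun A : H →L[ℂ] H => A y) e1
    exact h
  have h1 : ‖U x‖ = ‖x‖ := ContinuousLinearMap.norm_map_of_mem_unitary hU x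
  have h2 : ‖K x‖ ≤ kap * ‖x‖ := (K.le_opNorm x).trans
    (mul_le_mul_of_nonneg_right hK (norm_nonneg _))
  have h3 : ‖x‖ ≤ ‖y‖ + kap * ‖x‖ := by
    rw [← h1]
    have h4 : U x = y - K x := by rw [← hy]; abel
    calc ‖U x‖ = ‖y - K x‖ := by rw [h4]
      _ ≤ ‖y‖ + ‖K x‖ := norm_sub_le _ _
      _ ≤ ‖y‖ + kap * ‖U x‖ := by rw [h1]; gcongr
  rw [one_div, ← div_eq_inv_mul, le_div_iff₀ hpos]
  linarith

theorem block (N : ℕ) (hN : 0 < N) (e : ℝ) (he : 0 < e) (he1 : e ≤ 1) (kap : ℝ) (hk : 0 < kap)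
    (hk1 : kap ≤ 1 / 2) :
    ∃ (H : Type) (_ : NormedAddCommGroup H) (_ : InnerProductSpace ℂ H) (_ : CompleteSpace H)
      (T R U K : H →L[ℂ] H), TopologicalSpace.SeparableSpace H ∧ T * R = 1 ∧ R * T = 1 ∧
      U ∈ unitary (H →L[ℂ] H) ∧ T = U + K ∧ IsCompactOperator K ∧ ‖K‖ ≤ kap ∧
      ‖R‖ ≤ 1 / (1 - kap) ∧ (∀ n : ℕ, ‖R ^ n‖ ≤ 9 * (N : ℝ) ^ 2) ∧
      (∀ p : ℂ[X], Bd p → ‖aeval T p‖ ≤ 1 + 7 * e) ∧
      (∀ (H' : Type) [NormedAddCommGroup H'] [InnerProductSpace ℂ H'] [CompleteSpace H']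
        (C' : H' →L[ℂ] H') (A : H →L[ℂ] H') (B : H' →L[ℂ] H), ‖C'‖ ≤ 1 →
        (∀ n : ℕ, T ^ n = B.comp ((C' ^ n).comp A)) → e * Real.sqrt N / 4 ≤ ‖B‖ * ‖A‖) := by
  have hN' : (0 : ℝ) < N := by exact_mod_cast hN
  have hN1 : (1 : ℝ) ≤ N := by exact_mod_cast hN
  have hd : (0 : ℝ) < 1 / N := by positivity
  have hd1 : (1 : ℝ) / N ≤ 1 := by rw [div_le_one hN']; exact hN1
  obtain ⟨rho, M, hrho⟩ := exists_rho (1 / N) (kap / 2) hd hd1 (by linarith)
  obtain ⟨r, hr1, hr2⟩ : ∃ r : ℕ, 4 * M ≤ 2 ^ r ∧ (2 : ℝ) / 2 ^ r ≤ kap / 2 := by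
    obtain ⟨r1, h1⟩ := pow_unbounded_of_one_lt (4 * M : ℝ) (one_lt_two)
    obtain ⟨r2, h2⟩ := pow_unbounded_of_one_lt (4 / kap : ℝ) (one_lt_two)
    refine ⟨max r1 r2, ?_, ?_⟩
    · have h3 : (4 * M : ℝ) ≤ 2 ^ (max r1 r2) :=
        h1.le.trans (pow_le_pow_right₀ one_le_two (le_max_left _ _))
      exact_mod_cast h3
    · have h3 : (4 / kap : ℝ) ≤ 2 ^ (max r1 r2) :=
        h2.le.trans (pow_le_pow_right₀ one_le_two (le_max_right _ _))
      rw [div_le_iff₀ hk] at h3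
      rw [div_le_iff₀ (by positivity)]
      nlinarith
  obtain ⟨ι, i1, i2, C, c, hC⟩ := exists_cardata N
  obtain ⟨T0, U, hT0, hT1, hU, hc1, hn1⟩ :=
    exists_T0 (E := EuclideanSpace ℂ ι) rho M (1 / N) (kap / 2) hrho hd
  have hr0 : ∀ s, 0 ≤ rho s := fun s => hd.le.trans (hrho.low s)
  have hrle : ∀ s, rho s ≤ 1 := by
    have hanti : Antitone rho := antitone_int_of_succ_le hrho.anti
    intro s
    have h1 : rho (min s (-(M : ℤ))) = 1 := hrho.one _ (min_le_right _ _)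
    rw [← h1]
    exact hanti (min_le_left _ _)
  obtain ⟨X, hX, hc2, hn2⟩ := exists_X (E := EuclideanSpace ℂ ι) rho hr0 hrle r C hC.car
  have hKn : ‖(T0 - U) + (e : ℂ) • X‖ ≤ kap := by
    refine (norm_add_le _ _).trans ?_
    rw [norm_smul, Complex.norm_real, Real.norm_eq_abs, abs_of_nonneg he.le]
    have h1 : e * ‖X‖ ≤ 1 * (kap / 2) := mul_le_mul he1 (hn2.trans hr2) (norm_nonneg _) zero_le_one
    linarith
  have hTU : T0 + (e : ℂ) • X = U + ((T0 - U) + (e : ℂ) • X) := by abel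
  obtain ⟨R, hR1, hR2, hR3⟩ := inv_of_pert U ((T0 - U) + (e : ℂ) • X) hU kap (by linarith) hKn
  rw [← hTU] at hR1 hR2
  have : TopologicalSpace.SeparableSpace (LS (Bool × ℤ) (EuclideanSpace ℂ ι)) := sep_LS _
  refine ⟨LS (Bool × ℤ) (EuclideanSpace ℂ ι), inferInstance, inferInstance, inferInstance,
    T0 + (e : ℂ) • X, R, U, (T0 - U) + (e : ℂ) • X, inferInstance, hR1, hR2, hU, hTU,
    hc1.add (hc2.smul (e : ℂ)), hKn, hR3, ?_, ?_, ?_⟩
  · intro n
    refine ContinuousLinearMap.opNorm_le_bound _ (by positivity) fun y => ?_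
    have h1 : (T0 + (e : ℂ) • X) ^ n * R ^ n = 1 := by
      have hcomm : Commute (T0 + (e : ℂ) • X) R := hR1.trans hR2.symm
      rw [← hcomm.mul_pow, hR1, one_pow]
    have h2 : ((T0 + (e : ℂ) • X) ^ n) ((R ^ n) y) = y := by
      have h := congrArg (fun A : LS (Bool × ℤ) (EuclideanSpace ℂ ι) →L[ℂ]
        LS (Bool × ℤ) (EuclideanSpace ℂ ι) => A y) h1
      exact h
    have h3 := lower hrho hd hd1 hC.car hT0 hX e he.le he1 n ((R ^ n) y)
    rw [h2] at h3
    refine h3.trans (mul_le_mul_of_nonneg_right ?_ (norm_nonneg _))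
    have h4 : 2 / (1 / (N : ℝ)) + (3 + 4 * N * (1 / N)) / (1 / (N : ℝ)) ^ 2 =
        2 * N + 7 * (N : ℝ) ^ 2 := by
      field_simp
      ring
    rw [h4]
    nlinarith
  · intro p hp
    have h1 := poly_bound hrho hd hd1 hC.car hT0 hT1 hX e he.le p hp
    have h2 : 1 + e * (3 + 4 * N * (1 / (N : ℝ))) = 1 + 7 * e := by
      field_simp
      ring
    rw [h2] at h1
    exact h1
  · intro H' _ _ _ C' A B hC' hAB
    exact nonsim hrho hd hd1 hr1 hC hT0 hX e he.le C' hC' A B hAB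

end Pool.Agent.Work.MP_ebd05c_an.H
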