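import Pool.Agent.Work.MP_ebd05c_an.H.Defs

set_option autoImplicit false

open scoped BigOperators ENNReal Topology ComplexConjugate
open Finset Filter Polynomial

/-!
CAR matrices with real entries 0, 1, -1, by induction on N.
Strengthen: for A = sum a_k C_k (complex matrix) A * A^H + A^H * A = (sum |a_k|^2) 1.
Step: index type ι + ι, C_k -> fromBlocks C_k 0 0 (-C_k), new matrix fromBlocks 0 1 0 0, i.e.
A -> fromBlocks A (a 1) 0 (-A). Then |A x|^2 <= <(A^H A + A A^H) x, x> = |a|^2 |x|^2.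
Hilbert-Schmidt norm: for the old ones 2 * card/2 = card(ι + ι)/2, for the new one card ι.
Start: N = 0, ι = Unit.
-/

namespace Pool.Agent.Work.MP_ebd05c_an.H

open Matrix in
private lemma sq_sum_eq {ι : Type} [Fintype ι] (A : Matrix ι ι ℂ) (x : ι → ℂ) :
    ((∑ i, ‖(A *ᵥ x) i‖ ^ 2 : ℝ) : ℂ) = star x ⬝ᵥ ((Aᴴ * A) *ᵥ x) := by
  rw [← Matrix.mulVec_mulVec, Matrix.dotProduct_mulVec, ← Matrix.star_mulVec]
  simp only [dotProduct, Pi.star_apply, Complex.ofReal_sum]
  refine Finset.sum_congr rfl fun i _ => ?_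
  rw [show star ((A *ᵥ x) i) = conj ((A *ᵥ x) i) from rfl, ← Complex.normSq_eq_conj_mul_self,
    Complex.normSq_eq_norm_sq]

open Matrix in
private lemma car_strong (N : ℕ) : ∃ (ι : Type) (_ : Fintype ι) (_ : DecidableEq ι)
    (C : Fin N → Matrix ι ι ℝ), 0 < Fintype.card ι ∧
    (∀ a : Fin N → ℂ, (∑ k, a k • (C k).map (fun t : ℝ => (t : ℂ))) *
        (∑ k, a k • (C k).map (fun t : ℝ => (t : ℂ)))ᴴ +
        (∑ k, a k • (C k).map (fun t : ℝ => (t : ℂ)))ᴴ *
        (∑ k, a k • (C k).map (fun t : ℝ => (t : ℂ))) =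
        ((∑ k, ‖a k‖ ^ 2 : ℝ) : ℂ) • (1 : Matrix ι ι ℂ)) ∧
    (∀ k, ∑ i, ∑ j, (C k i j) ^ 2 = (Fintype.card ι : ℝ) / 2) := by
  induction N with
  | zero =>
    refine ⟨Unit, inferInstance, inferInstance, fun k => k.elim0, by simp, ?_, fun k => k.elim0⟩
    intro a
    simp
  | succ N ih =>
    obtain ⟨ι, i1, i2, C, hcard, hcar, hhs⟩ := ih
    refine ⟨ι ⊕ ι, inferInstance, inferInstance,
      Fin.cons (fromBlocks 0 1 0 0) (fun k => fromBlocks (C k) 0 0 (-(C k))), ?_, ?_, ?_⟩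
    · simp only [Fintype.card_sum]; omega
    · intro a
      set A : Matrix ι ι ℂ := ∑ k : Fin N, a k.succ • (C k).map (fun t : ℝ => (t : ℂ)) with hA
      have hsum : (∑ k, a k • ((Fin.cons (fromBlocks 0 1 0 0)
          (fun k => fromBlocks (C k) 0 0 (-(C k))) : Fin (N + 1) → Matrix (ι ⊕ ι) (ι ⊕ ι) ℝ) k).map
          (fun t : ℝ => (t : ℂ))) = fromBlocks A (a 0 • 1) 0 (-A) := by
        rw [Fin.sum_univ_succ]
        simp only [Fin.cons_zero, Fin.cons_succ]
        ext i j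
        rcases i with i | i <;> rcases j with j | j <;>
          simp [Matrix.sum_apply, hA, Matrix.one_apply, Finset.sum_neg_distrib]
        split_ifs <;> simp
      rw [hsum]
      have h1 := hcar (fun k => a k.succ)
      rw [← hA] at h1
      rw [Matrix.fromBlocks_conjTranspose, Matrix.fromBlocks_multiply, Matrix.fromBlocks_multiply,
        Matrix.fromBlocks_add]
      have hn : (a 0 * conj (a 0)) = ((‖a 0‖ ^ 2 : ℝ) : ℂ) := by
        rw [Complex.mul_conj, Complex.normSq_eq_norm_sq]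
      have hstar : star (a 0) = conj (a 0) := rfl
      rw [Fin.sum_univ_succ]
      ext i j
      have h2 := congrFun (congrFun h1 (i.elim id id)) (j.elim id id)
      rcases i with i | i <;> rcases j with j | j
      · simp only [Matrix.fromBlocks_apply₁₁, Sum.elim_inl, id] at h2 ⊢
        have h3 : (a 0 • (1 : Matrix ι ι ℂ)) * (a 0 • (1 : Matrix ι ι ℂ))ᴴ =
            ((‖a 0‖ ^ 2 : ℝ) : ℂ) • 1 := by
          rw [Matrix.conjTranspose_smul, Matrix.conjTranspose_one, Matrix.smul_mul,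
            Matrix.mul_smul, one_mul, smul_smul, hstar, hn]
        rw [h3]
        simp only [Matrix.add_apply, Matrix.smul_apply, smul_eq_mul, Matrix.conjTranspose_zero,
          Matrix.mul_zero, Matrix.zero_apply, add_zero] at h2 ⊢
        rw [show ((1 : Matrix (ι ⊕ ι) (ι ⊕ ι) ℂ) (Sum.inl i) (Sum.inl j)) = (1 : Matrix ι ι ℂ) i j by
          simp [Matrix.one_apply]]
        push_cast at h2 ⊢
        linear_combination h2
      · simp [Matrix.one_apply]
      · simp [Matrix.one_apply]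
      · simp only [Matrix.fromBlocks_apply₂₂, Sum.elim_inr, id] at h2 ⊢
        have h3 : (a 0 • (1 : Matrix ι ι ℂ))ᴴ * (a 0 • (1 : Matrix ι ι ℂ)) =
            ((‖a 0‖ ^ 2 : ℝ) : ℂ) • 1 := by
          rw [Matrix.conjTranspose_smul, Matrix.conjTranspose_one, Matrix.smul_mul,
            Matrix.mul_smul, one_mul, smul_smul, hstar, mul_comm, hn]
        rw [h3]
        simp only [Matrix.add_apply, Matrix.smul_apply, smul_eq_mul, Matrix.conjTranspose_zero,
          Matrix.zero_mul, Matrix.zero_apply, add_zero, zero_add, Matrix.conjTranspose_neg,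
          neg_mul_neg] at h2 ⊢
        rw [show ((1 : Matrix (ι ⊕ ι) (ι ⊕ ι) ℂ) (Sum.inr i) (Sum.inr j)) = (1 : Matrix ι ι ℂ) i j by
          simp [Matrix.one_apply]]
        push_cast at h2 ⊢
        linear_combination h2
    · intro k
      refine Fin.cases ?_ (fun k => ?_) k
      · simp only [Fin.cons_zero, Fintype.sum_sum_type, Matrix.fromBlocks_apply₁₁,
          Matrix.fromBlocks_apply₁₂, Matrix.fromBlocks_apply₂₁, Matrix.fromBlocks_apply₂₂,
          Fintype.card_sum]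
        simp [Matrix.one_apply]
      · simp only [Fin.cons_succ, Fintype.sum_sum_type, Matrix.fromBlocks_apply₁₁,
          Matrix.fromBlocks_apply₁₂, Matrix.fromBlocks_apply₂₁, Matrix.fromBlocks_apply₂₂,
          Fintype.card_sum, Matrix.neg_apply, neg_sq, Matrix.zero_apply]
        have := hhs k
        simp only [ne_eq, OfNat.ofNat_ne_zero, not_false_eq_true, zero_pow, Finset.sum_const_zero,
          add_zero, zero_add]
        rw [this]
        push_cast
        ring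

open Matrix in
theorem exists_car (N : ℕ) : ∃ (ι : Type) (_ : Fintype ι) (_ : DecidableEq ι)
    (C : Fin N → Matrix ι ι ℝ), 0 < Fintype.card ι ∧
    (∀ (a : Fin N → ℂ) (x : ι → ℂ),
      ∑ i, ‖∑ j, (∑ k, a k * (C k i j : ℂ)) * x j‖ ^ 2 ≤ (∑ k, ‖a k‖ ^ 2) * ∑ j, ‖x j‖ ^ 2) ∧
    (∀ k, ∑ i, ∑ j, (C k i j) ^ 2 = (Fintype.card ι : ℝ) / 2) := by
  obtain ⟨ι, i1, i2, C, hcard, hcar, hhs⟩ := car_strong N
  refine ⟨ι, i1, i2, C, hcard, ?_, hhs⟩
  intro a x
  set A : Matrix ι ι ℂ := ∑ k : Fin N, a k • (C k).map (fun t : ℝ => (t : ℂ)) with hA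
  have h1 := hcar a
  rw [← hA] at h1
  have e1 : ∀ i, ∑ j, (∑ k, a k * (C k i j : ℂ)) * x j = (A *ᵥ x) i := by
    intro i
    simp only [Matrix.mulVec, dotProduct, hA, Matrix.sum_apply, Matrix.smul_apply, Matrix.map_apply,
      smul_eq_mul]
  simp only [e1]
  have h2 := sq_sum_eq A x
  have h3 := sq_sum_eq Aᴴ x
  rw [Matrix.conjTranspose_conjTranspose] at h3
  have h4 : ((∑ i, ‖(A *ᵥ x) i‖ ^ 2 : ℝ) : ℂ) + ((∑ i, ‖(Aᴴ *ᵥ x) i‖ ^ 2 : ℝ) : ℂ) =
      (((∑ k, ‖a k‖ ^ 2) * ∑ j, ‖x j‖ ^ 2 : ℝ) : ℂ) := by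
    rw [h2, h3, add_comm, ← dotProduct_add, ← Matrix.add_mulVec, h1, Matrix.smul_mulVec,
      Matrix.one_mulVec, dotProduct_smul]
    simp only [smul_eq_mul, dotProduct, Pi.star_apply]
    rw [Complex.ofReal_mul, Complex.ofReal_sum (f := fun j => ‖x j‖ ^ 2)]
    congr 1
    refine Finset.sum_congr rfl fun i _ => ?_
    rw [show star (x i) = conj (x i) from rfl, ← Complex.normSq_eq_conj_mul_self,
      Complex.normSq_eq_norm_sq]
  have h5 : (∑ i, ‖(A *ᵥ x) i‖ ^ 2 : ℝ) + (∑ i, ‖(Aᴴ *ᵥ x) i‖ ^ 2 : ℝ) =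
      (∑ k, ‖a k‖ ^ 2) * ∑ j, ‖x j‖ ^ 2 := by exact_mod_cast h4
  have h6 : (0 : ℝ) ≤ ∑ i, ‖(Aᴴ *ᵥ x) i‖ ^ 2 := Finset.sum_nonneg fun i _ => by positivity
  linarith

end Pool.Agent.Work.MP_ebd05c_an.H
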