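import Pool.Agent.Work.MP_ebd05c_an.H.Pv
import Pool.Agent.Work.MP_ebd05c_an.H.Gg
import Pool.Agent.Work.MP_ebd05c_an.H.Car0

set_option autoImplicit false

open scoped BigOperators ENNReal Topology ComplexConjugate
open Finset Filter Polynomial

/-!
Crude estimate for all index sets.
hank: the Laurent (bilateral Hankel) form. For M larger than all differences and than the
degree of p plus l plus the sums: the form is the average over the M-th roots of unity om of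
p(om) om^(-l) <sum_s om^s w_s, C (sum_t om^(-t) v_t)>; bound by Cauchy-Schwarz and parseval.
(Only n = l + s + t in [0, degree] contribute, choose M so large that l + s + t = n mod M forces
equality for s, t in F, 0 <= n <= degree.)
crude1: gg l s t = GG l s - GG l (-l - t): apply hank to the vectors (GG l s) w_s, v_t and to
w_s, (GG l (-l-t)) v_t.
crude: sum over k, each C_k is a contraction (CAR.norm_le).
-/

namespace Pool.Agent.Work.MP_ebd05c_an.H

variable {E : Type} [NormedAddCommGroup E] [InnerProductSpace ℂ E]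

private theorem cru_coef (p : ℂ[X]) {M : ℕ} (hM : 0 < M) (a : ℤ)
    (h1 : (p.natDegree : ℤ) - a < M) (h2 : a < M) (h3 : -(M : ℤ) < a)  :
    ∑ j ∈ range M, p.eval (om M j) * (om M j) ^ (-a) = M * cz p a := by
  have hne : ∀ j, om M j ≠ 0 := by
    intro j h
    have := om_norm M j
    rw [h, norm_zero] at this
    exact zero_ne_one this
  have e1 : ∀ j ∈ range M, p.eval (om M j) * (om M j) ^ (-a) =
      ∑ n ∈ range (p.natDegree + 1), p.coeff n * (om M j) ^ ((n : ℤ) - a) := by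
    intro j _
    rw [Polynomial.eval_eq_sum_range, Finset.sum_mul]
    refine Finset.sum_congr rfl fun n _ => ?_
    rw [mul_assoc, ← zpow_natCast, ← zpow_add₀ (hne j), sub_eq_add_neg]
  rw [Finset.sum_congr rfl e1, Finset.sum_comm]
  have e2 : ∀ n ∈ range (p.natDegree + 1), ∑ j ∈ range M, p.coeff n * (om M j) ^ ((n : ℤ) - a) =
      if (n : ℤ) = a then (M : ℂ) * p.coeff n else 0 := by
    intro n hn
    have hn' : n ≤ p.natDegree := Nat.lt_succ_iff.1 (Finset.mem_range.1 hn)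
    rw [← Finset.mul_sum, om_sum hM]
    by_cases h : (n : ℤ) = a
    · rw [if_pos h, if_pos (by rw [h, sub_self]; exact dvd_zero _)]
      ring
    · rw [if_neg h, if_neg, mul_zero]
      intro hd
      obtain ⟨c, hc⟩ := hd
      have hMZ : (0 : ℤ) < M := by exact_mod_cast hM
      have h4 : (n : ℤ) - a < M := by
        have : (n : ℤ) ≤ p.natDegree := by exact_mod_cast hn'
        omega
      have h5 : -(M : ℤ) < (n : ℤ) - a := by
        have : (0 : ℤ) ≤ n := by positivity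
        omega
      rw [hc] at h4 h5
      have h6 : c < 1 := by nlinarith
      have h7 : -1 < c := by nlinarith
      have h8 : c = 0 := by omega
      rw [h8, mul_zero] at hc
      omega
  rw [Finset.sum_congr rfl e2]
  unfold cz
  by_cases h : 0 ≤ a
  · rw [if_pos h]
    obtain ⟨n, rfl⟩ := Int.eq_ofNat_of_zero_le h
    rw [Int.toNat_natCast]
    by_cases hn : n ∈ range (p.natDegree + 1)
    · rw [Finset.sum_eq_single n]
      · rw [if_pos rfl]
      · intro b _ hb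
        rw [if_neg]
        intro h'
        exact hb (by exact_mod_cast h')
      · intro h'
        exact absurd hn h'
    · rw [Finset.sum_eq_zero, Polynomial.coeff_eq_zero_of_natDegree_lt, mul_zero]
      · rw [Finset.mem_range] at hn
        omega
      · intro b hb
        rw [if_neg]
        intro h'
        have : b = n := by exact_mod_cast h'
        rw [this] at hb
        exact hn hb
  · rw [if_neg h, mul_zero]
    refine Finset.sum_eq_zero fun n _ => ?_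
    rw [if_neg]
    intro h'
    apply h
    rw [← h']
    positivity

private theorem cru_par {M : ℕ} (hM : 0 < M) (F : Finset ℤ) (R : ℕ) (hR : ∀ s ∈ F, |s| ≤ R)
    (hRM : 2 * R < M) (v : ℤ → E) :
    ∑ j ∈ range M, ‖∑ t ∈ F, ((om M j) ^ (-t)) • v t‖ ^ 2 = M * ∑ t ∈ F, ‖v t‖ ^ 2 := by
  classical
  have hinj : ∀ x ∈ F, ∀ y ∈ F, -x = -y → x = y := fun x _ y _ h => neg_injective h
  have h1 := parseval hM (F.image (fun s => -s)) (by
    intro s hs t ht hd
    obtain ⟨s', hs', rfl⟩ := Finset.mem_image.1 hs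
    obtain ⟨t', ht', rfl⟩ := Finset.mem_image.1 ht
    have a1 := abs_le.1 (hR s' hs')
    have a2 := abs_le.1 (hR t' ht')
    obtain ⟨c, hc⟩ := hd
    have hMZ : (0 : ℤ) < M := by exact_mod_cast hM
    have hRM' : 2 * (R : ℤ) < M := by exact_mod_cast hRM
    have h6 : c < 1 := by nlinarith
    have h7 : -1 < c := by nlinarith
    have h8 : c = 0 := by omega
    rw [h8, mul_zero] at hc
    omega) (fun s => v (-s))
  rw [Finset.sum_image hinj] at h1
  simp only [neg_neg] at h1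
  rw [← h1]
  refine Finset.sum_congr rfl fun j _ => ?_
  rw [Finset.sum_image hinj]
  simp only [neg_neg]

private theorem cru_par2 {M : ℕ} (hM : 0 < M) (F : Finset ℤ) (R : ℕ) (hR : ∀ s ∈ F, |s| ≤ R)
    (hRM : 2 * R < M) (v : ℤ → E) :
    ∑ j ∈ range M, ‖∑ t ∈ F, ((om M j) ^ t) • v t‖ ^ 2 = M * ∑ t ∈ F, ‖v t‖ ^ 2 := by
  refine parseval hM F (fun s hs t ht hd => ?_) v
  have a1 := abs_le.1 (hR s hs)
  have a2 := abs_le.1 (hR t ht)
  obtain ⟨c, hc⟩ := hd
  have hMZ : (0 : ℤ) < M := by exact_mod_cast hM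
  have hRM' : 2 * (R : ℤ) < M := by exact_mod_cast hRM
  have h6 : c < 1 := by nlinarith
  have h7 : -1 < c := by nlinarith
  have h8 : c = 0 := by omega
  rw [h8, mul_zero] at hc
  omega

theorem hank (p : ℂ[X]) (hp : Bd p) (l : ℕ) (C : E →L[ℂ] E) (hC : ∀ x, ‖C x‖ ≤ ‖x‖)
    (F : Finset ℤ) (v w : ℤ → E) :
    ‖∑ s ∈ F, ∑ t ∈ F, cz p ((l : ℤ) + s + t) * inner ℂ (w s) (C (v t))‖ ≤
      Real.sqrt (∑ i ∈ F, ‖v i‖ ^ 2) * Real.sqrt (∑ i ∈ F, ‖w i‖ ^ 2) := by
  classical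
  obtain ⟨R, hR⟩ : ∃ R : ℕ, ∀ s ∈ F, |s| ≤ (R : ℤ) := by
    refine ⟨∑ s ∈ F, s.natAbs, fun s hs => ?_⟩
    rw [Int.abs_eq_natAbs]
    exact_mod_cast Finset.single_le_sum (f := fun s : ℤ => s.natAbs) (fun _ _ => Nat.zero_le _) hs
  obtain ⟨M, hMdef⟩ : ∃ M : ℕ, M = p.natDegree + l + 2 * R + 1 := ⟨_, rfl⟩
  have hM : 0 < M := by omega
  have hRM : 2 * R < M := by omega
  have hMR : (0 : ℝ) < M := by exact_mod_cast hM
  have hne : ∀ j, om M j ≠ 0 := by
    intro j h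
    have := om_norm M j
    rw [h, norm_zero] at this
    exact zero_ne_one this
  have hconj : ∀ (j : ℕ) (s : ℤ), conj ((om M j) ^ s) = (om M j) ^ (-s) := by
    intro j s
    have h1 : conj (om M j) = (om M j)⁻¹ := by
      rw [Complex.inv_def, Complex.normSq_eq_norm_sq, om_norm]
      simp
    rw [map_zpow₀, h1, inv_zpow, zpow_neg]
  -- the average
  have key : (M : ℂ) * ∑ s ∈ F, ∑ t ∈ F, cz p ((l : ℤ) + s + t) * inner ℂ (w s) (C (v t)) =
      ∑ j ∈ range M, (p.eval (om M j) * (om M j) ^ (-(l : ℤ))) *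
        inner ℂ (∑ s ∈ F, ((om M j) ^ s) • w s) (C (∑ t ∈ F, ((om M j) ^ (-t)) • v t)) := by
    have e1 : ∀ j ∈ range M, (p.eval (om M j) * (om M j) ^ (-(l : ℤ))) *
        inner ℂ (∑ s ∈ F, ((om M j) ^ s) • w s) (C (∑ t ∈ F, ((om M j) ^ (-t)) • v t)) =
        ∑ s ∈ F, ∑ t ∈ F, (p.eval (om M j) * (om M j) ^ (-((l : ℤ) + s + t))) *
          inner ℂ (w s) (C (v t)) := by
      intro j _
      rw [sum_inner, Finset.mul_sum]
      refine Finset.sum_congr rfl fun s _ => ?_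
      rw [map_sum, inner_sum, Finset.mul_sum]
      refine Finset.sum_congr rfl fun t _ => ?_
      rw [map_smul, inner_smul_left, inner_smul_right, hconj]
      have e2 : (om M j) ^ (-((l : ℤ) + s + t)) =
          (om M j) ^ (-(l : ℤ)) * (om M j) ^ (-s) * (om M j) ^ (-t) := by
        rw [← zpow_add₀ (hne j), ← zpow_add₀ (hne j)]
        congr 1
        ring
      rw [e2]
      ring
    rw [Finset.sum_congr rfl e1, Finset.sum_comm (s := range M) (t := F), Finset.mul_sum]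
    refine Finset.sum_congr rfl fun s hs => ?_
    rw [Finset.sum_comm (s := range M) (t := F), Finset.mul_sum]
    refine Finset.sum_congr rfl fun t ht => ?_
    rw [← Finset.sum_mul, cru_coef p hM ((l : ℤ) + s + t), mul_assoc]
    · have a1 := abs_le.1 (hR s hs)
      have a2 := abs_le.1 (hR t ht)
      have : (M : ℤ) = p.natDegree + l + 2 * R + 1 := by rw [hMdef]; push_cast; ring
      omega
    · have a1 := abs_le.1 (hR s hs)
      have a2 := abs_le.1 (hR t ht)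
      have : (M : ℤ) = p.natDegree + l + 2 * R + 1 := by rw [hMdef]; push_cast; ring
      omega
    · have a1 := abs_le.1 (hR s hs)
      have a2 := abs_le.1 (hR t ht)
      have : (M : ℤ) = p.natDegree + l + 2 * R + 1 := by rw [hMdef]; push_cast; ring
      omega
  have hb : ‖(M : ℂ) * ∑ s ∈ F, ∑ t ∈ F, cz p ((l : ℤ) + s + t) * inner ℂ (w s) (C (v t))‖ ≤
      ∑ j ∈ range M, ‖∑ t ∈ F, ((om M j) ^ (-t)) • v t‖ * ‖∑ s ∈ F, ((om M j) ^ s) • w s‖ := by
    rw [key]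
    refine (norm_sum_le _ _).trans (Finset.sum_le_sum fun j _ => ?_)
    rw [norm_mul, norm_mul, norm_zpow, om_norm, one_zpow, mul_one]
    have h1 : ‖p.eval (om M j)‖ ≤ 1 := hp _ (om_norm M j).le
    have h2 := norm_inner_le_norm (𝕜 := ℂ) (∑ s ∈ F, ((om M j) ^ s) • w s)
      (C (∑ t ∈ F, ((om M j) ^ (-t)) • v t))
    have h3 := hC (∑ t ∈ F, ((om M j) ^ (-t)) • v t)
    calc ‖p.eval (om M j)‖ * ‖inner ℂ (∑ s ∈ F, ((om M j) ^ s) • w s)
          (C (∑ t ∈ F, ((om M j) ^ (-t)) • v t))‖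
        ≤ 1 * (‖∑ s ∈ F, ((om M j) ^ s) • w s‖ * ‖∑ t ∈ F, ((om M j) ^ (-t)) • v t‖) :=
          mul_le_mul h1 (h2.trans (mul_le_mul_of_nonneg_left h3 (norm_nonneg _)))
            (norm_nonneg _) zero_le_one
      _ = _ := by ring
  have hcs := Real.sum_mul_le_sqrt_mul_sqrt (range M)
    (fun j => ‖∑ t ∈ F, ((om M j) ^ (-t)) • v t‖) (fun j => ‖∑ s ∈ F, ((om M j) ^ s) • w s‖)
  rw [cru_par hM F R hR hRM v, cru_par2 hM F R hR hRM w] at hcs
  have hfin := hb.trans hcs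
  rw [norm_mul, Complex.norm_natCast, Real.sqrt_mul hMR.le, Real.sqrt_mul hMR.le] at hfin
  have hss : Real.sqrt M * Real.sqrt M = M := Real.mul_self_sqrt hMR.le
  have e3 : Real.sqrt M * Real.sqrt (∑ t ∈ F, ‖v t‖ ^ 2) *
      (Real.sqrt M * Real.sqrt (∑ t ∈ F, ‖w t‖ ^ 2)) =
      M * (Real.sqrt (∑ i ∈ F, ‖v i‖ ^ 2) * Real.sqrt (∑ i ∈ F, ‖w i‖ ^ 2)) := by
    calc _ = (Real.sqrt M * Real.sqrt M) *
        (Real.sqrt (∑ i ∈ F, ‖v i‖ ^ 2) * Real.sqrt (∑ i ∈ F, ‖w i‖ ^ 2)) := by ring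
      _ = _ := by rw [hss]
  rw [e3] at hfin
  exact le_of_mul_le_mul_left hfin hMR

private theorem cru_sqrt (F : Finset ℤ) (v : ℤ → E) (g : ℤ → ℝ) (h0 : ∀ s, 0 ≤ g s)
    (h1 : ∀ s, g s ≤ 1) : Real.sqrt (∑ i ∈ F, ‖((g i : ℝ) : ℂ) • v i‖ ^ 2) ≤
      Real.sqrt (∑ i ∈ F, ‖v i‖ ^ 2) := by
  refine Real.sqrt_le_sqrt (Finset.sum_le_sum fun i _ => ?_)
  rw [norm_smul, Complex.norm_real, Real.norm_eq_abs, abs_of_nonneg (h0 i)]
  have : g i * ‖v i‖ ≤ ‖v i‖ := by
    calc g i * ‖v i‖ ≤ 1 * ‖v i‖ := mul_le_mul_of_nonneg_right (h1 i) (norm_nonneg _)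
      _ = ‖v i‖ := one_mul _
  exact pow_le_pow_left₀ (mul_nonneg (h0 i) (norm_nonneg _)) this 2

theorem crude1 (p : ℂ[X]) (hp : Bd p) (l : ℕ) (C : E →L[ℂ] E) (hC : ∀ x, ‖C x‖ ≤ ‖x‖)
    (F : Finset ℤ) (v w : ℤ → E) :
    ‖∑ s ∈ F, ∑ t ∈ F, (cz p ((l : ℤ) + s + t) * ((gg l s t : ℝ) : ℂ)) *
        inner ℂ (w s) (C (v t))‖ ≤
      2 * Real.sqrt (∑ i ∈ F, ‖v i‖ ^ 2) * Real.sqrt (∑ i ∈ F, ‖w i‖ ^ 2) := by
  have h1 := hank p hp l C hC F v (fun s => ((GG l s : ℝ) : ℂ) • w s)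
  have h2 := hank p hp l C hC F (fun t => ((GG l (-(l : ℤ) - t) : ℝ) : ℂ) • v t) w
  have e : ∑ s ∈ F, ∑ t ∈ F, (cz p ((l : ℤ) + s + t) * ((gg l s t : ℝ) : ℂ)) *
        inner ℂ (w s) (C (v t)) =
      ∑ s ∈ F, ∑ t ∈ F, cz p ((l : ℤ) + s + t) *
        inner ℂ (((GG l s : ℝ) : ℂ) • w s) (C (v t)) -
      ∑ s ∈ F, ∑ t ∈ F, cz p ((l : ℤ) + s + t) *
        inner ℂ (w s) (C (((GG l (-(l : ℤ) - t) : ℝ) : ℂ) • v t)) := by
    rw [← Finset.sum_sub_distrib]
    refine Finset.sum_congr rfl fun s _ => ?_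
    rw [← Finset.sum_sub_distrib]
    refine Finset.sum_congr rfl fun t _ => ?_
    rw [map_smul, inner_smul_left, inner_smul_right, Complex.conj_ofReal, gg]
    push_cast
    ring
  rw [e]
  have s1 := cru_sqrt F w (fun s => GG l s) (fun s => GG_nonneg l s) (fun s => GG_le_one l s)
  have s2 := cru_sqrt F v (fun t => GG l (-(l : ℤ) - t)) (fun s => GG_nonneg l _)
    (fun s => GG_le_one l _)
  have h1' := h1.trans (mul_le_mul_of_nonneg_left s1 (Real.sqrt_nonneg _))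
  have h2' := h2.trans (mul_le_mul_of_nonneg_right s2 (Real.sqrt_nonneg _))
  refine (norm_sub_le _ _).trans ?_
  linarith

theorem crude {N : ℕ} (r : ℕ) (p : ℂ[X]) (hp : Bd p) (C : Fin N → (E →L[ℂ] E)) (hC : CAR C)
    (F : Finset ℤ) (v w : ℤ → E) :
    ‖frm r C p F v w‖ ≤
      2 * N * Real.sqrt (∑ i ∈ F, ‖v i‖ ^ 2) * Real.sqrt (∑ i ∈ F, ‖w i‖ ^ 2) := by
  unfold frm
  refine (norm_sum_le _ _).trans ?_
  calc _ ≤ ∑ _k : Fin N, 2 * Real.sqrt (∑ i ∈ F, ‖v i‖ ^ 2) * Real.sqrt (∑ i ∈ F, ‖w i‖ ^ 2) :=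
        Finset.sum_le_sum fun k _ => crude1 p hp (lam r k) (C k) (hC.norm_le k) F v w
    _ = _ := by
        rw [Finset.sum_const, Finset.card_univ, Fintype.card_fin, nsmul_eq_mul]
        ring

end Pool.Agent.Work.MP_ebd05c_an.H
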