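import Mathlib

set_option autoImplicit false

open scoped BigOperators ENNReal Topology ComplexConjugate
open Finset Filter Polynomial

/-!
Definitions for the polynomially bounded examples of class C_11 (Foguel-Hankel blocks on l2(Z)).
-/

namespace Pool.Agent.Work.MP_ebd05c_an.H

/-- square summable families indexed by `J` with values in `E` -/
abbrev LS (J : Type) (E : Type) [NormedAddCommGroup E] : Type := lp (fun _ : J => E) 2

/-- the lacunary frequencies -/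
def lam (r k : ℕ) : ℕ := 2 ^ (r + k)

/-- ramp function: `0` for `s ≤ -l`, `1` for `s ≥ 0` -/
noncomputable def GG (l : ℕ) (s : ℤ) : ℝ := max 0 (min 1 (((s : ℝ) + l) / l))

/-- the coefficients of the off-diagonal corner of the powers -/
noncomputable def gg (l : ℕ) (s t : ℤ) : ℝ := GG l s - GG l (-(l : ℤ) - t)

/-- coefficients of a polynomial with integer index -/
noncomputable def cz (p : ℂ[X]) (n : ℤ) : ℂ := if 0 ≤ n then p.coeff n.toNat else 0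

/-- polynomials bounded by one on the closed unit disc -/
def Bd (p : ℂ[X]) : Prop := ∀ z : ℂ, ‖z‖ ≤ 1 → ‖p.eval z‖ ≤ 1

/-- the `M`-th roots of unity -/
noncomputable def om (M j : ℕ) : ℂ := Complex.exp (2 * Real.pi * Complex.I * j / M)

/-- square norm of the coefficient sequence -/
noncomputable def sqn (f : ℂ[X]) : ℝ := ∑ m ∈ range (f.natDegree + 1), ‖f.coeff m‖ ^ 2

section
variable {E : Type} [NormedAddCommGroup E] [InnerProductSpace ℂ E]

/-- the norm inequality of the CAR family -/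
def CAR {N : ℕ} (C : Fin N → (E →L[ℂ] E)) : Prop :=
  ∀ (a : Fin N → ℂ) (x : E), ‖∑ k, a k • C k x‖ ^ 2 ≤ (∑ k, ‖a k‖ ^ 2) * ‖x‖ ^ 2

/-- the sesquilinear form of the corner of `p(T)` -/
noncomputable def frm (r : ℕ) {N : ℕ} (C : Fin N → (E →L[ℂ] E)) (p : ℂ[X]) (F : Finset ℤ)
    (v w : ℤ → E) : ℂ :=
  ∑ k : Fin N, ∑ s ∈ F, ∑ t ∈ F,
    (cz p ((lam r k : ℤ) + s + t) * ((gg (lam r k) s t : ℝ) : ℂ)) * inner ℂ (w s) (C k (v t))

/-- the diagonal part: weighted bilateral shifts -/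
def IsT0 (rho : ℤ → ℝ) (T : LS (Bool × ℤ) E →L[ℂ] LS (Bool × ℤ) E) : Prop :=
  (∀ (x : LS (Bool × ℤ) E) (s : ℤ), (T x : Bool × ℤ → E) (false, s) =
    ((rho s / rho (s - 1) : ℝ) : ℂ) • (x : Bool × ℤ → E) (false, s - 1)) ∧
  (∀ (x : LS (Bool × ℤ) E) (t : ℤ), (T x : Bool × ℤ → E) (true, t) =
    ((rho (t + 1) / rho t : ℝ) : ℂ) • (x : Bool × ℤ → E) (true, t + 1))

/-- the coupling -/
def IsX (rho : ℤ → ℝ) (r : ℕ) {N : ℕ} (C : Fin N → (E →L[ℂ] E))
    (T : LS (Bool × ℤ) E →L[ℂ] LS (Bool × ℤ) E) : Prop :=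
  (∀ (x : LS (Bool × ℤ) E) (s : ℤ), (T x : Bool × ℤ → E) (false, s) = ∑ k : Fin N,
      (((GG (lam r k) s - GG (lam r k) (s - 1)) * rho s * rho (1 - lam r k - s) : ℝ) : ℂ) •
        C k ((x : Bool × ℤ → E) (true, 1 - lam r k - s))) ∧
  (∀ (x : LS (Bool × ℤ) E) (t : ℤ), (T x : Bool × ℤ → E) (true, t) = 0)

end

/-- corner of the powers -/
def Yn {A : Type*} [Ring A] (T X : A) : ℕ → A
  | 0 => 0
  | n + 1 => T * Yn T X n + X * T ^ n

/-- weights: equal to `1` up to `-M`, equal to `d` from `0` on, decreasing slowly -/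
structure IsRho (rho : ℤ → ℝ) (M : ℕ) (d kap : ℝ) : Prop where
  one : ∀ s : ℤ, s ≤ -(M : ℤ) → rho s = 1
  const : ∀ s : ℤ, 0 ≤ s → rho s = d
  anti : ∀ s : ℤ, rho (s + 1) ≤ rho s
  low : ∀ s : ℤ, d ≤ rho s
  slow : ∀ s : ℤ, 1 - kap ≤ rho (s + 1) / rho s

/-- CAR matrices with real entries -/
structure CarData (N : ℕ) (ι : Type) [Fintype ι] [DecidableEq ι]
    (C : Fin N → (EuclideanSpace ℂ ι →L[ℂ] EuclideanSpace ℂ ι)) (c : Fin N → ι → ι → ℝ) :
    Prop where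
  card : 0 < Fintype.card ι
  car : CAR C
  entry : ∀ k i j, (C k (EuclideanSpace.single j 1)) i = (c k i j : ℂ)
  hs : ∀ k, ∑ i, ∑ j, (c k i j) ^ 2 = (Fintype.card ι : ℝ) / 2
  mat : ∀ z : Fin N → ℂ, (∀ k, ‖z k‖ = 1) → ∀ ξ η : ι → ℂ,
    ‖∑ k, ∑ i, ∑ j, z k * (c k i j : ℂ) * conj (η i) * ξ j‖ ≤
      Real.sqrt N * Real.sqrt (∑ i, ‖ξ i‖ ^ 2) * Real.sqrt (∑ i, ‖η i‖ ^ 2)

end Pool.Agent.Work.MP_ebd05c_an.H
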