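import Pool.Agent.Work.MP_ebd05c_an.H.Defs

set_option autoImplicit false

open scoped BigOperators ENNReal Topology ComplexConjugate
open Finset Filter Polynomial

/-!
An operator is bounded by its values on finitely supported vectors.
Proof: the finitely supported vectors are dense (lp.hasSum_single or lp.isSUM...; every x is the limit of
the sums over univ x F, F finite set of integers, along atTop); for unit vectors take limits in
v and w; |A x| is the supremum of |<y, A x>|, |y| <= 1 (ContinuousLinearMap.opNorm_le_bound and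
norm_inner...). The norm of sum of single i (v i) is sqrt (sum |v i|^2).
-/

namespace Pool.Agent.Work.MP_ebd05c_an.H

variable {E : Type} [NormedAddCommGroup E] [InnerProductSpace ℂ E]

omit [InnerProductSpace ℂ E] in
private theorem sumLe (x : LS (Bool × ℤ) E) (s : Finset (Bool × ℤ)) :
    Real.sqrt (∑ i ∈ s, ‖(x : Bool × ℤ → E) i‖ ^ 2) ≤ ‖x‖ := by
  have h := lp.sum_rpow_le_norm_rpow (p := 2) (E := fun _ : Bool × ℤ => E) (by norm_num) x s
  have h2 : ∑ i ∈ s, ‖(x : Bool × ℤ → E) i‖ ^ 2 ≤ ‖x‖ ^ 2 := by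
    have h3 : (2 : ℝ≥0∞).toReal = ((2 : ℕ) : ℝ) := by norm_num
    rw [h3] at h
    simpa only [Real.rpow_natCast] using h
  calc Real.sqrt (∑ i ∈ s, ‖(x : Bool × ℤ → E) i‖ ^ 2) ≤ Real.sqrt (‖x‖ ^ 2) := Real.sqrt_le_sqrt h2
    _ = ‖x‖ := Real.sqrt_sq (norm_nonneg x)

omit [InnerProductSpace ℂ E] in
private theorem tendAux (x : LS (Bool × ℤ) E) :
    Tendsto (fun F : Finset ℤ => (∑ i ∈ (univ : Finset Bool) ×ˢ F,
      lp.single 2 i ((x : Bool × ℤ → E) i) : LS (Bool × ℤ) E)) atTop (𝓝 x) := by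
  have h := lp.hasSum_single (p := 2) (E := fun _ : Bool × ℤ => E) (by norm_num) x
  have h2 : Tendsto (fun F : Finset ℤ => (univ : Finset Bool) ×ˢ F) atTop atTop := by
    refine tendsto_atTop_finset_of_monotone ?_ ?_
    · intro F G hFG
      exact Finset.product_subset_product_right hFG
    · intro i
      exact ⟨{i.2}, Finset.mem_product.2 ⟨Finset.mem_univ _, Finset.mem_singleton_self _⟩⟩
  have h3 : Tendsto (fun s : Finset (Bool × ℤ) => (∑ i ∈ s,
      lp.single 2 i ((x : Bool × ℤ → E) i) : LS (Bool × ℤ) E)) atTop (𝓝 x) := by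
    simpa only [HasSum, SummationFilter.unconditional_filter] using h
  exact h3.comp h2

theorem norm_le_of_finite (A : LS (Bool × ℤ) E →L[ℂ] LS (Bool × ℤ) E) (c : ℝ) (hc : 0 ≤ c)
    (h : ∀ (F : Finset ℤ) (v w : Bool × ℤ → E),
      ‖inner ℂ (∑ i ∈ (univ : Finset Bool) ×ˢ F, lp.single 2 i (w i) : LS (Bool × ℤ) E)
        (A (∑ i ∈ (univ : Finset Bool) ×ˢ F, lp.single 2 i (v i)))‖ ≤
      c * Real.sqrt (∑ i ∈ (univ : Finset Bool) ×ˢ F, ‖v i‖ ^ 2) *
        Real.sqrt (∑ i ∈ (univ : Finset Bool) ×ˢ F, ‖w i‖ ^ 2)) : ‖A‖ ≤ c := by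
  have key : ∀ x y : LS (Bool × ℤ) E, ‖inner ℂ y (A x)‖ ≤ c * ‖x‖ * ‖y‖ := by
    intro x y
    have hx := tendAux x
    have hy := tendAux y
    have hAx := (A.continuous.tendsto x).comp hx
    have hlim := (hy.inner (𝕜 := ℂ) hAx).norm
    refine le_of_tendsto hlim (Eventually.of_forall fun F => ?_)
    refine (h F (fun i => (x : Bool × ℤ → E) i) (fun i => (y : Bool × ℤ → E) i)).trans ?_
    have h1 := sumLe x ((univ : Finset Bool) ×ˢ F)
    have h2 := sumLe y ((univ : Finset Bool) ×ˢ F)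
    exact mul_le_mul (mul_le_mul_of_nonneg_left h1 hc) h2 (Real.sqrt_nonneg _)
      (mul_nonneg hc (norm_nonneg x))
  refine ContinuousLinearMap.opNorm_le_bound _ hc fun x => ?_
  have h1 := key x (A x)
  rcases (norm_nonneg (A x)).eq_or_lt with h0 | h0
  · rw [← h0]
    exact mul_nonneg hc (norm_nonneg x)
  · rw [inner_self_eq_norm_sq_to_K] at h1
    have h2 : ‖((‖A x‖ : ℂ)) ^ 2‖ = ‖A x‖ * ‖A x‖ := by
      rw [norm_pow, Complex.norm_real, Real.norm_of_nonneg (norm_nonneg _), sq]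
    have h3 : ‖A x‖ * ‖A x‖ ≤ c * ‖x‖ * ‖A x‖ := by
      rw [← h2]
      exact h1
    exact le_of_mul_le_mul_right h3 h0

end Pool.Agent.Work.MP_ebd05c_an.H
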