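import Pool.Agent.Work.MP_ebd05c_an.H.Defs

set_option autoImplicit false

open scoped BigOperators ENNReal Topology ComplexConjugate
open Finset Filter Polynomial

/-!
Direct sums of operators: the space lp H 2 for a sequence of Hilbert spaces.
exists_ds: mkContinuous. The algebraic lemmas by ext. ds_unitary: T* T = 1 and T T* = 1 by
components (ds_adjoint, ds_mul). ds_retract: i = single N, q = evaluation at N.
-/

namespace Pool.Agent.Work.MP_ebd05c_an.H

variable {H : ℕ → Type} [∀ N, NormedAddCommGroup (H N)] [∀ N, InnerProductSpace ℂ (H N)]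
  [∀ N, CompleteSpace (H N)]

/-- `A` is the direct sum of the operators `T N` -/
def IsDs (T : ∀ N, H N →L[ℂ] H N) (A : lp H 2 →L[ℂ] lp H 2) : Prop :=
  ∀ (x : lp H 2) (N : ℕ), (A x : ∀ N, H N) N = T N ((x : ∀ N, H N) N)

omit [∀ N, CompleteSpace (H N)] in
private theorem lp_norm_le (c : ℝ) (hc : 0 ≤ c) (x y : lp H 2)
    (h : ∀ N, ‖(y : ∀ N, H N) N‖ ≤ c * ‖(x : ∀ N, H N) N‖) : ‖y‖ ≤ c * ‖x‖ := by
  have h2 : (0 : ℝ) < (2 : ℝ≥0∞).toReal := by norm_num
  have hx := lp.hasSum_norm h2 x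
  have hy := lp.hasSum_norm h2 y
  have hle : ‖y‖ ^ (2 : ℝ≥0∞).toReal ≤ c ^ (2 : ℝ≥0∞).toReal * ‖x‖ ^ (2 : ℝ≥0∞).toReal := by
    refine hasSum_le (fun N => ?_) hy (hx.mul_left (c ^ (2 : ℝ≥0∞).toReal))
    rw [← Real.mul_rpow hc (norm_nonneg _)]
    exact Real.rpow_le_rpow (norm_nonneg _) (h N) (by norm_num)
  rw [← Real.mul_rpow hc (norm_nonneg _)] at hle
  exact (Real.rpow_le_rpow_iff (norm_nonneg _) (by positivity) h2).mp hle

omit [∀ N, CompleteSpace (H N)] in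
theorem exists_ds (T : ∀ N, H N →L[ℂ] H N) (c : ℝ) (hc : 0 ≤ c) (h : ∀ N, ‖T N‖ ≤ c) :
    ∃ A : lp H 2 →L[ℂ] lp H 2, IsDs T A ∧ ‖A‖ ≤ c := by
  have hmem : ∀ x : lp H 2, Memℓp (fun N => T N ((x : ∀ N, H N) N)) 2 := by
    intro x
    have h1 : Memℓp (fun N => (x : ∀ N, H N) N) 2 := lp.memℓp x
    rw [memℓp_gen_iff (by norm_num)] at h1 ⊢
    have h2 : Summable fun N => c ^ (2 : ℝ≥0∞).toReal * ‖(x : ∀ N, H N) N‖ ^ (2 : ℝ≥0∞).toReal :=
      h1.mul_left _
    refine Summable.of_nonneg_of_le (fun N => by positivity) (fun N => ?_) h2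
    rw [← Real.mul_rpow hc (norm_nonneg _)]
    refine Real.rpow_le_rpow (norm_nonneg _) ?_ (by norm_num)
    exact (T N).le_of_opNorm_le (h N) _
  let L : lp H 2 →ₗ[ℂ] lp H 2 :=
    { toFun := fun x => ⟨fun N => T N ((x : ∀ N, H N) N), hmem x⟩
      map_add' := by
        intro x y
        ext N
        show T N ((x + y : lp H 2) N) = T N ((x : ∀ N, H N) N) + T N ((y : ∀ N, H N) N)
        rw [lp.coeFn_add, Pi.add_apply, map_add]
      map_smul' := by
        intro a x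
        ext N
        show T N ((a • x : lp H 2) N) = a • T N ((x : ∀ N, H N) N)
        rw [lp.coeFn_smul, Pi.smul_apply, map_smul] }
  have hL : ∀ x, ‖L x‖ ≤ c * ‖x‖ := fun x =>
    lp_norm_le c hc x (L x) fun N => (T N).le_of_opNorm_le (h N) _
  refine ⟨L.mkContinuous c hL, fun x N => rfl, ?_⟩
  exact LinearMap.mkContinuous_norm_le _ hc _

omit [∀ N, CompleteSpace (H N)] in
theorem ds_ext {T : ∀ N, H N →L[ℂ] H N} {A B : lp H 2 →L[ℂ] lp H 2} (hA : IsDs T A)
    (hB : IsDs T B) : A = B := by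
  ext x N
  rw [hA x N, hB x N]

omit [∀ N, CompleteSpace (H N)] in
theorem ds_norm_le {T : ∀ N, H N →L[ℂ] H N} {A : lp H 2 →L[ℂ] lp H 2} (hA : IsDs T A) (c : ℝ)
    (hc : 0 ≤ c) (h : ∀ N, ‖T N‖ ≤ c) : ‖A‖ ≤ c := by
  obtain ⟨B, hB, hBn⟩ := exists_ds T c hc h
  rw [ds_ext hA hB]
  exact hBn

omit [∀ N, CompleteSpace (H N)] in
theorem ds_one : IsDs (fun N => (1 : H N →L[ℂ] H N)) 1 := by
  intro x N
  rfl

omit [∀ N, CompleteSpace (H N)] in
theorem ds_mul {T S : ∀ N, H N →L[ℂ] H N} {A B : lp H 2 →L[ℂ] lp H 2} (hA : IsDs T A)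
    (hB : IsDs S B) : IsDs (fun N => T N * S N) (A * B) := by
  intro x N
  show (A (B x) : ∀ N, H N) N = T N (S N ((x : ∀ N, H N) N))
  rw [hA, hB]

omit [∀ N, CompleteSpace (H N)] in
theorem ds_add {T S : ∀ N, H N →L[ℂ] H N} {A B : lp H 2 →L[ℂ] lp H 2} (hA : IsDs T A)
    (hB : IsDs S B) : IsDs (fun N => T N + S N) (A + B) := by
  intro x N
  show ((A x + B x : lp H 2) : ∀ N, H N) N = T N ((x : ∀ N, H N) N) + S N ((x : ∀ N, H N) N)
  rw [lp.coeFn_add, Pi.add_apply, hA, hB]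

omit [∀ N, CompleteSpace (H N)] in
private theorem ds_smul {T : ∀ N, H N →L[ℂ] H N} {A : lp H 2 →L[ℂ] lp H 2} (hA : IsDs T A)
    (a : ℂ) : IsDs (fun N => a • T N) (a • A) := by
  intro x N
  show ((a • A x : lp H 2) : ∀ N, H N) N = a • T N ((x : ∀ N, H N) N)
  rw [lp.coeFn_smul, Pi.smul_apply, hA]

omit [∀ N, CompleteSpace (H N)] in
theorem ds_pow {T : ∀ N, H N →L[ℂ] H N} {A : lp H 2 →L[ℂ] lp H 2} (hA : IsDs T A) (n : ℕ) :
    IsDs (fun N => T N ^ n) (A ^ n) := by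
  induction n with
  | zero =>
    simp only [pow_zero]
    exact ds_one
  | succ n ih =>
    simp only [pow_succ]
    exact ds_mul ih hA

omit [∀ N, CompleteSpace (H N)] in
theorem ds_aeval {T : ∀ N, H N →L[ℂ] H N} {A : lp H 2 →L[ℂ] lp H 2} (hA : IsDs T A)
    (p : ℂ[X]) : IsDs (fun N => aeval (T N) p) (aeval A p) := by
  induction p using Polynomial.induction_on' with
  | add p q hp hq =>
    simp only [map_add]
    exact ds_add hp hq
  | monomial n a =>
    have e : ∀ {R : Type} [Ring R] [Algebra ℂ R] (r : R), aeval r (monomial n a) = a • r ^ n := by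
      intro R _ _ r
      rw [aeval_monomial, ← Algebra.smul_def]
    simp only [e]
    exact ds_smul (ds_pow hA n) a

theorem ds_adjoint {T : ∀ N, H N →L[ℂ] H N} {A : lp H 2 →L[ℂ] lp H 2} (hA : IsDs T A) :
    IsDs (fun N => ContinuousLinearMap.adjoint (T N)) (ContinuousLinearMap.adjoint A) := by
  intro x N
  refine ext_inner_left ℂ fun v => ?_
  have h1 : inner ℂ (lp.single 2 N v) (ContinuousLinearMap.adjoint A x) =
      inner ℂ (A (lp.single 2 N v)) x := ContinuousLinearMap.adjoint_inner_right A _ _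
  rw [lp.inner_single_left] at h1
  rw [h1, ContinuousLinearMap.adjoint_inner_right]
  have h2 : A (lp.single 2 N v) = lp.single 2 N (T N v) := by
    ext M
    rw [hA]
    by_cases hM : M = N
    · subst hM
      rw [lp.single_apply_self, lp.single_apply_self]
    · rw [lp.single_apply_ne _ _ _ hM, lp.single_apply_ne _ _ _ hM, map_zero]
  rw [h2, lp.inner_single_left]

theorem ds_unitary {T : ∀ N, H N →L[ℂ] H N} {A : lp H 2 →L[ℂ] lp H 2} (hA : IsDs T A)
    (h : ∀ N, T N ∈ unitary (H N →L[ℂ] H N)) : A ∈ unitary (lp H 2 →L[ℂ] lp H 2) := by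
  have hs := ds_adjoint hA
  rw [Unitary.mem_iff]
  constructor
  · have h1 := ds_mul hs hA
    have h2 : (fun N => ContinuousLinearMap.adjoint (T N) * T N) =
        fun N => (1 : H N →L[ℂ] H N) := by
      funext N
      exact (Unitary.mem_iff.mp (h N)).1
    rw [h2] at h1
    exact ds_ext h1 ds_one
  · have h1 := ds_mul hA hs
    have h2 : (fun N => T N * ContinuousLinearMap.adjoint (T N)) =
        fun N => (1 : H N →L[ℂ] H N) := by
      funext N
      exact (Unitary.mem_iff.mp (h N)).2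
    rw [h2] at h1
    exact ds_ext h1 ds_one

omit [∀ N, CompleteSpace (H N)] in
theorem ds_retract (N : ℕ) : ∃ (i : H N →L[ℂ] lp H 2) (q : lp H 2 →L[ℂ] H N), ‖i‖ ≤ 1 ∧
    ‖q‖ ≤ 1 ∧ ∀ (T : ∀ N, H N →L[ℂ] H N) (A : lp H 2 →L[ℂ] lp H 2), IsDs T A →
      ∀ n : ℕ, T N ^ n = q.comp ((A ^ n).comp i) := by
  have hn : ∀ v : H N, ‖(lp.single 2 N v : lp H 2)‖ = ‖v‖ := fun v =>
    lp.norm_single (by norm_num) N v
  let I : H N →ₗ[ℂ] lp H 2 :=
    { toFun := fun v => lp.single 2 N v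
      map_add' := fun v w => lp.single_add 2 N v w
      map_smul' := fun a v => lp.single_smul 2 N a v }
  let P : lp H 2 →ₗ[ℂ] H N :=
    { toFun := fun x => (x : ∀ N, H N) N
      map_add' := fun x y => by rw [lp.coeFn_add, Pi.add_apply]
      map_smul' := fun a x => by rw [lp.coeFn_smul, Pi.smul_apply, RingHom.id_apply] }
  have hI : ∀ v, ‖I v‖ ≤ 1 * ‖v‖ := fun v => by
    rw [one_mul]
    exact (hn v).le
  have hP : ∀ x, ‖P x‖ ≤ 1 * ‖x‖ := fun x => by
    rw [one_mul]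
    exact lp.norm_apply_le_norm (by norm_num) x N
  refine ⟨I.mkContinuous 1 hI, P.mkContinuous 1 hP, LinearMap.mkContinuous_norm_le _ zero_le_one _,
    LinearMap.mkContinuous_norm_le _ zero_le_one _, ?_⟩
  intro T A hA n
  ext v
  show (T N ^ n) v = ((A ^ n) (lp.single 2 N v) : ∀ N, H N) N
  rw [ds_pow hA n, lp.single_apply_self]

end Pool.Agent.Work.MP_ebd05c_an.H
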