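import Pool.Agent.Work.MP_ebd05c_an.H.Ds

set_option autoImplicit false

open scoped BigOperators ENNReal Topology ComplexConjugate
open Finset Filter Polynomial

/-!
Compactness and separability of direct sums.
ds_compact: A is the norm limit of the operators A_n = direct sum of T N for N < n and 0 beyond;
|A - A_n| <= sup_(N >= n) |T N| -> 0 (ds_norm_le), A_n is a finite sum of compact operators
single_N o T N o eval_N; isCompactOperator_of_tendsto. ds_sep: the union over N of the finite sums
of images of countable dense sets (closure of the span of the ranges of single).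
-/

namespace Pool.Agent.Work.MP_ebd05c_an.H

variable {H : ℕ → Type} [∀ N, NormedAddCommGroup (H N)] [∀ N, InnerProductSpace ℂ (H N)]
  [∀ N, CompleteSpace (H N)]

theorem ds_compact {T : ∀ N, H N →L[ℂ] H N} {A : lp H 2 →L[ℂ] lp H 2} (hA : IsDs T A)
    (h : ∀ N, IsCompactOperator (T N)) (h0 : Tendsto (fun N => ‖T N‖) atTop (𝓝 0)) :
    IsCompactOperator A := by
  classical
  set F : ℕ → (lp H 2 →L[ℂ] lp H 2) := fun n => ∑ N ∈ range n,
    (lp.singleContinuousLinearMap ℂ H 2 N).comp ((T N).comp (lp.evalCLM ℂ H 2 N)) with hF
  have hFc : ∀ n, IsCompactOperator (F n) := by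
    intro n
    have hmem : F n ∈ (compactOperator (RingHom.id ℂ) (lp H 2) (lp H 2)) := by
      rw [hF]
      apply Submodule.sum_mem
      intro N _
      change IsCompactOperator _
      exact ((h N).comp_clm (lp.evalCLM ℂ H 2 N)).clm_comp
        (lp.singleContinuousLinearMap ℂ H 2 N)
    exact hmem
  have hFa : ∀ (n : ℕ) (x : lp H 2) (N : ℕ), (F n x : ∀ N, H N) N =
      if N < n then T N ((x : ∀ N, H N) N) else 0 := by
    intro n x N
    have h1 : F n x = ∑ M ∈ range n, lp.single 2 M (T M ((x : ∀ N, H N) M)) := by
      rw [hF]
      simp only [ContinuousLinearMap.sum_apply]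
      rfl
    rw [h1, lp.coeFn_sum, Finset.sum_apply]
    split_ifs with hN
    · rw [Finset.sum_eq_single N]
      · exact lp.single_apply_self _ _ _
      · intro M _ hM
        exact lp.single_apply_ne _ _ _ (Ne.symm hM)
      · intro hM
        exact absurd (Finset.mem_range.2 hN) hM
    · apply Finset.sum_eq_zero
      intro M hM
      apply lp.single_apply_ne
      rintro rfl
      exact hN (Finset.mem_range.1 hM)
  refine isCompactOperator_of_tendsto (l := atTop) (F := F) ?_ (Eventually.of_forall hFc)
  rw [Metric.tendsto_atTop]
  intro ε hε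
  rw [Metric.tendsto_atTop] at h0
  obtain ⟨n₀, hn₀⟩ := h0 (ε / 2) (by positivity)
  refine ⟨n₀, fun n hn => ?_⟩
  rw [dist_eq_norm, ← norm_neg, neg_sub]
  have hds : IsDs (fun N => if N < n then 0 else T N) (A - F n) := by
    intro x N
    change ((A x - F n x : lp H 2) : ∀ N, H N) N = _
    rw [lp.coeFn_sub, Pi.sub_apply, hA x N, hFa n x N]
    by_cases hN : N < n
    · simp [hN]
    · simp [hN]
  have hle : ‖A - F n‖ ≤ ε / 2 := by
    apply ds_norm_le hds (ε / 2) (by positivity)
    intro N
    by_cases hN : N < n
    · simp only [hN, if_true, norm_zero]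
      positivity
    · simp only [hN, if_false]
      have h2 := hn₀ N (by omega)
      rw [dist_zero_right, norm_norm] at h2
      exact h2.le
  linarith

theorem ds_sep (h : ∀ N, TopologicalSpace.SeparableSpace (H N)) :
    TopologicalSpace.SeparableSpace (lp H 2) := by
  classical
  have hcd : ∀ N, ∃ s : Set (H N), s.Countable ∧ Dense s := fun N =>
    (h N).exists_countable_dense
  choose s hsc hsd using hcd
  set R : Set (lp H 2) := ⋃ N, (fun a => lp.single 2 N a) '' s N with hR
  have hRc : R.Countable := Set.countable_iUnion fun N => (hsc N).image _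
  have hRs : TopologicalSpace.IsSeparable R := hRc.isSeparable
  have hspan : TopologicalSpace.IsSeparable (Submodule.span ℂ R : Set (lp H 2)) := hRs.span
  have hclos : TopologicalSpace.IsSeparable (closure (Submodule.span ℂ R : Set (lp H 2))) :=
    hspan.closure
  have hsingle : ∀ (N : ℕ) (a : H N), lp.single 2 N a ∈
      (Submodule.span ℂ R).topologicalClosure := by
    intro N a
    have hcont : Continuous fun a : H N => (lp.single 2 N a : lp H 2) :=
      (lp.isometry_single (E := H) (p := 2) N).continuous
    have h1 : a ∈ closure (s N) := hsd N a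
    have h2 : (lp.single 2 N a : lp H 2) ∈ closure ((fun a => lp.single 2 N a) '' s N) :=
      (image_closure_subset_closure_image hcont) ⟨a, h1, rfl⟩
    have h3 : ((fun a => (lp.single 2 N a : lp H 2)) '' s N) ⊆
        (Submodule.span ℂ R : Set (lp H 2)) := by
      intro x hx
      apply Submodule.subset_span
      rw [hR]
      exact Set.mem_iUnion.2 ⟨N, hx⟩
    exact closure_mono h3 h2
  have huniv : (closure (Submodule.span ℂ R : Set (lp H 2))) = Set.univ := by
    rw [Set.eq_univ_iff_forall]
    intro x
    have hx := lp.hasSum_single (E := H) (p := 2) (by norm_num) x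
    have hcl : IsClosed ((Submodule.span ℂ R).topologicalClosure : Set (lp H 2)) :=
      Submodule.isClosed_topologicalClosure _
    have hm : x ∈ ((Submodule.span ℂ R).topologicalClosure : Set (lp H 2)) := by
      refine hcl.mem_of_tendsto hx (Eventually.of_forall fun t => ?_)
      exact Submodule.sum_mem _ fun N _ => hsingle N _
    exact hm
  rw [huniv] at hclos
  exact TopologicalSpace.isSeparable_univ_iff.1 hclos

end Pool.Agent.Work.MP_ebd05c_an.H
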