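import Pool.Agent.Work.MP_ebd05c_an.H.Key
import Pool.Agent.Work.MP_ebd05c_an.H.Gg

set_option autoImplicit false

open scoped BigOperators ENNReal Topology ComplexConjugate
open Finset Filter Polynomial

/-!
Key estimate in terms of frm, for index sets in the non positive integers.
F consists of s <= 0: put i = -s, j = -t; gg l s t = (l - i - j)/l if i + j < l (gg_neg), else
cz p (l + s + t) * gg = 0 (gg = 0 at l = i + j by gg_edge, cz = 0 beyond).
-/

namespace Pool.Agent.Work.MP_ebd05c_an.H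

variable {E : Type} [NormedAddCommGroup E] [InnerProductSpace ℂ E]

private theorem coef_eq (l : ℕ) (hl : 0 < l) (p : ℂ[X]) (s t : ℤ) (hs : s ≤ 0) (ht : t ≤ 0) :
    (if (-s).toNat + (-t).toNat < l then
      (((l - ((-s).toNat + (-t).toNat) : ℕ) : ℂ) / l) *
        p.coeff (l - ((-s).toNat + (-t).toNat)) else 0) =
      cz p ((l : ℤ) + s + t) * ((gg l s t : ℝ) : ℂ) := by
  split_ifs with h
  · have h1 : 0 ≤ (l : ℤ) + s + t := by omega
    have h2 : ((l : ℤ) + s + t).toNat = l - ((-s).toNat + (-t).toNat) := by omega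
    rw [gg_neg l hl s t hs ht h1, cz, if_pos h1, h2]
    have h3 : ((l : ℝ) + s + t) = ((l - ((-s).toNat + (-t).toNat) : ℕ) : ℝ) := by
      have h4 : (l : ℤ) + s + t = ((l - ((-s).toNat + (-t).toNat) : ℕ) : ℤ) := by omega
      exact_mod_cast h4
    rw [h3]
    push_cast
    ring
  · rcases lt_or_eq_of_le (not_lt.1 h) with h1 | h1
    · have h2 : ¬ 0 ≤ (l : ℤ) + s + t := by omega
      rw [cz, if_neg h2, zero_mul]
    · have h2 : (l : ℤ) + s + t = 0 := by omega
      rw [gg_edge l s t h2]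
      simp

theorem keyneg {N : ℕ} (r : ℕ) (p : ℂ[X]) (hp : Bd p) (C : Fin N → (E →L[ℂ] E)) (hC : CAR C)
    (F : Finset ℤ) (hF : ∀ s ∈ F, s ≤ 0) (v w : ℤ → E) :
    ‖frm r C p F v w‖ ≤
      3 * Real.sqrt (∑ i ∈ F, ‖v i‖ ^ 2) * Real.sqrt (∑ i ∈ F, ‖w i‖ ^ 2) := by
  classical
  have hinj : Set.InjOn (fun s : ℤ => (-s).toNat) (F : Set ℤ) := by
    intro a ha b hb h
    have h1 := hF a ha
    have h2 := hF b hb
    simp only at h
    omega
  have hcast : ∀ s ∈ F, -(((-s).toNat : ℕ) : ℤ) = s := by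
    intro s hs
    have h1 := hF s hs
    omega
  have hk := key r p hp C hC (F.image (fun s : ℤ => (-s).toNat)) (fun j => v (-(j : ℤ)))
    (fun i => w (-(i : ℤ)))
  simp only [Finset.sum_image hinj] at hk
  have e1 : ∑ s ∈ F, ‖v (-(((-s).toNat : ℕ) : ℤ))‖ ^ 2 = ∑ s ∈ F, ‖v s‖ ^ 2 :=
    Finset.sum_congr rfl (fun s hs => by rw [hcast s hs])
  have e2 : ∑ s ∈ F, ‖w (-(((-s).toNat : ℕ) : ℤ))‖ ^ 2 = ∑ s ∈ F, ‖w s‖ ^ 2 :=
    Finset.sum_congr rfl (fun s hs => by rw [hcast s hs])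
  rw [e1, e2] at hk
  refine le_trans (le_of_eq ?_) hk
  congr 1
  unfold frm
  refine Finset.sum_congr rfl (fun k _ => Finset.sum_congr rfl (fun s hs =>
    Finset.sum_congr rfl (fun t ht => ?_)))
  rw [coef_eq (lam r k) (lam_pos r k) p s t (hF s hs) (hF t ht), hcast s hs, hcast t ht]

end Pool.Agent.Work.MP_ebd05c_an.H
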