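import Pool.Agent.Work.MP_ebd05c_an.H.Crude
import Pool.Agent.Work.MP_ebd05c_an.H.KeyNeg

set_option autoImplicit false

open scoped BigOperators ENNReal Topology ComplexConjugate
open Finset Filter Polynomial

/-!
The estimate of the form with weights.
Proof: frm is additive in v and w. Split F into s <= 0 and s > 0: v = v- + v+, w = w- + w+
(restrict by zero). frm(v,w) = frm(v-,w-) + frm(v-,w+) + frm(v+,w). keyneg for the first (index
set F.filter (<= 0), the vectors rho v with |rho| <= 1), crude for the other two: a vector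
rho t v t supported on t > 0 has norm at most d |v|, so each is at most 2 N d |v| |w|.
-/

namespace Pool.Agent.Work.MP_ebd05c_an.H

variable {E : Type} [NormedAddCommGroup E] [InnerProductSpace ℂ E]

private lemma frm_add_v {N : ℕ} (r : ℕ) (C : Fin N → (E →L[ℂ] E)) (p : ℂ[X]) (F : Finset ℤ)
    (v v' w : ℤ → E) : frm r C p F (fun t => v t + v' t) w = frm r C p F v w + frm r C p F v' w := by
  simp only [frm, map_add, inner_add_right, mul_add, Finset.sum_add_distrib]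

private lemma frm_add_w {N : ℕ} (r : ℕ) (C : Fin N → (E →L[ℂ] E)) (p : ℂ[X]) (F : Finset ℤ)
    (v w w' : ℤ → E) : frm r C p F v (fun t => w t + w' t) = frm r C p F v w + frm r C p F v w' := by
  simp only [frm, inner_add_left, mul_add, Finset.sum_add_distrib]

private lemma frm_restrict {N : ℕ} (r : ℕ) (C : Fin N → (E →L[ℂ] E)) (p : ℂ[X]) (F : Finset ℤ)
    (P : ℤ → Prop) [DecidablePred P] (v w : ℤ → E) (hv : ∀ t, ¬ P t → v t = 0)
    (hw : ∀ t, ¬ P t → w t = 0) : frm r C p F v w = frm r C p (F.filter P) v w := by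
  unfold frm
  apply Finset.sum_congr rfl
  intro k _
  rw [Finset.sum_filter]
  apply Finset.sum_congr rfl
  intro s _
  by_cases hs : P s
  · rw [if_pos hs, Finset.sum_filter]
    apply Finset.sum_congr rfl
    intro t _
    by_cases ht : P t
    · rw [if_pos ht]
    · rw [if_neg ht, hv t ht, map_zero, inner_zero_right, mul_zero]
  · rw [if_neg hs]
    apply Finset.sum_eq_zero
    intro t _
    rw [hw s hs, inner_zero_left, mul_zero]

private lemma sqrt_sum_le (F G : Finset ℤ) (hG : G ⊆ F) (a : ℝ) (ha : 0 ≤ a) (v' v : ℤ → E)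
    (h : ∀ t ∈ G, ‖v' t‖ ≤ a * ‖v t‖) :
    Real.sqrt (∑ i ∈ G, ‖v' i‖ ^ 2) ≤ a * Real.sqrt (∑ i ∈ F, ‖v i‖ ^ 2) := by
  have h1 : ∑ i ∈ G, ‖v' i‖ ^ 2 ≤ a ^ 2 * ∑ i ∈ F, ‖v i‖ ^ 2 := by
    calc ∑ i ∈ G, ‖v' i‖ ^ 2 ≤ ∑ i ∈ G, a ^ 2 * ‖v i‖ ^ 2 := by
          apply Finset.sum_le_sum
          intro i hi
          have := h i hi
          rw [← mul_pow]
          exact pow_le_pow_left₀ (norm_nonneg _) this 2
      _ ≤ ∑ i ∈ F, a ^ 2 * ‖v i‖ ^ 2 :=
          Finset.sum_le_sum_of_subset_of_nonneg hG (fun i _ _ => by positivity)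
      _ = _ := by rw [Finset.mul_sum]
  calc Real.sqrt (∑ i ∈ G, ‖v' i‖ ^ 2) ≤ Real.sqrt (a ^ 2 * ∑ i ∈ F, ‖v i‖ ^ 2) :=
        Real.sqrt_le_sqrt h1
    _ = a * Real.sqrt (∑ i ∈ F, ‖v i‖ ^ 2) := by
        rw [Real.sqrt_mul (by positivity), Real.sqrt_sq ha]

theorem form_bound {N : ℕ} (r : ℕ) (p : ℂ[X]) (hp : Bd p) (C : Fin N → (E →L[ℂ] E))
    (hC : CAR C) (rho : ℤ → ℝ) (h0 : ∀ s, 0 ≤ rho s) (h1 : ∀ s, rho s ≤ 1) (d : ℝ) (hd : 0 ≤ d)
    (h2 : ∀ s, 0 < s → rho s ≤ d) (F : Finset ℤ) (v w : ℤ → E) :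
    ‖frm r C p F (fun t => ((rho t : ℝ) : ℂ) • v t) (fun s => ((rho s : ℝ) : ℂ) • w s)‖ ≤
      (3 + 4 * N * d) * Real.sqrt (∑ i ∈ F, ‖v i‖ ^ 2) * Real.sqrt (∑ i ∈ F, ‖w i‖ ^ 2) := by
  set V := Real.sqrt (∑ i ∈ F, ‖v i‖ ^ 2) with hV
  set W := Real.sqrt (∑ i ∈ F, ‖w i‖ ^ 2) with hW
  have hV0 : 0 ≤ V := Real.sqrt_nonneg _
  have hW0 : 0 ≤ W := Real.sqrt_nonneg _
  have hn : ∀ (x : E) (t : ℤ), ‖((rho t : ℝ) : ℂ) • x‖ = rho t * ‖x‖ := by
    intro x t
    rw [norm_smul, Complex.norm_real, Real.norm_of_nonneg (h0 t)]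
  -- the parts
  set vm : ℤ → E := fun t => if t ≤ 0 then ((rho t : ℝ) : ℂ) • v t else 0 with hvm
  set vp : ℤ → E := fun t => if t ≤ 0 then 0 else ((rho t : ℝ) : ℂ) • v t with hvp
  set wm : ℤ → E := fun t => if t ≤ 0 then ((rho t : ℝ) : ℂ) • w t else 0 with hwm
  set wp : ℤ → E := fun t => if t ≤ 0 then 0 else ((rho t : ℝ) : ℂ) • w t with hwp
  have ev : (fun t => ((rho t : ℝ) : ℂ) • v t) = fun t => vm t + vp t := by
    funext t
    by_cases ht : t ≤ 0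
    · simp only [hvm, hvp, if_pos ht, add_zero]
    · simp only [hvm, hvp, if_neg ht, zero_add]
  have ew : (fun t => ((rho t : ℝ) : ℂ) • w t) = fun t => wm t + wp t := by
    funext t
    by_cases ht : t ≤ 0
    · simp only [hwm, hwp, if_pos ht, add_zero]
    · simp only [hwm, hwp, if_neg ht, zero_add]
  have bm : ∀ (x : ℤ → E) (t : ℤ), ‖(if t ≤ 0 then ((rho t : ℝ) : ℂ) • x t else 0)‖ ≤ 1 * ‖x t‖ := by
    intro x t
    split_ifs
    · rw [hn]
      exact mul_le_mul_of_nonneg_right (h1 t) (norm_nonneg _)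
    · rw [norm_zero]; positivity
  have bp : ∀ (x : ℤ → E) (t : ℤ), ‖(if t ≤ 0 then 0 else ((rho t : ℝ) : ℂ) • x t)‖ ≤ d * ‖x t‖ := by
    intro x t
    split_ifs with ht
    · rw [norm_zero]; positivity
    · rw [hn]
      exact mul_le_mul_of_nonneg_right (h2 t (by omega)) (norm_nonneg _)
  have bw : ∀ t, ‖((rho t : ℝ) : ℂ) • w t‖ ≤ 1 * ‖w t‖ := by
    intro t
    rw [hn]
    exact mul_le_mul_of_nonneg_right (h1 t) (norm_nonneg _)
  -- the decomposition
  have e1 : frm r C p F (fun t => ((rho t : ℝ) : ℂ) • v t) (fun s => ((rho s : ℝ) : ℂ) • w s) =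
      frm r C p F vm wm + frm r C p F vm wp + frm r C p F vp (fun s => ((rho s : ℝ) : ℂ) • w s) := by
    rw [ev, frm_add_v]
    congr 1
    rw [ew, frm_add_w]
  have i1 : ‖frm r C p F vm wm‖ ≤ 3 * V * W := by
    rw [frm_restrict r C p F (fun t => t ≤ 0) vm wm
      (fun t ht => by simp only [hvm, if_neg ht]) (fun t ht => by simp only [hwm, if_neg ht])]
    refine (keyneg r p hp C hC _ (fun s hs => (Finset.mem_filter.1 hs).2) vm wm).trans ?_
    have a1 := sqrt_sum_le F (F.filter fun t => t ≤ 0) (Finset.filter_subset _ _) 1 zero_le_one vm v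
      (fun t _ => bm v t)
    have a2 := sqrt_sum_le F (F.filter fun t => t ≤ 0) (Finset.filter_subset _ _) 1 zero_le_one wm w
      (fun t _ => bm w t)
    rw [one_mul] at a1 a2
    gcongr
  have i2 : ‖frm r C p F vm wp‖ ≤ 2 * N * d * V * W := by
    refine (crude r p hp C hC F vm wp).trans ?_
    have a1 := sqrt_sum_le F F subset_rfl 1 zero_le_one vm v (fun t _ => bm v t)
    have a2 := sqrt_sum_le F F subset_rfl d hd wp w (fun t _ => bp w t)
    rw [one_mul] at a1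
    calc 2 * (N : ℝ) * Real.sqrt (∑ i ∈ F, ‖vm i‖ ^ 2) * Real.sqrt (∑ i ∈ F, ‖wp i‖ ^ 2)
        ≤ 2 * (N : ℝ) * V * (d * W) := by gcongr
      _ = _ := by ring
  have i3 : ‖frm r C p F vp (fun s => ((rho s : ℝ) : ℂ) • w s)‖ ≤ 2 * N * d * V * W := by
    refine (crude r p hp C hC F vp _).trans ?_
    have a1 := sqrt_sum_le F F subset_rfl d hd vp v (fun t _ => bp v t)
    have a2 := sqrt_sum_le F F subset_rfl 1 zero_le_one (fun s => ((rho s : ℝ) : ℂ) • w s) w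
      (fun t _ => bw t)
    rw [one_mul] at a2
    calc 2 * (N : ℝ) * Real.sqrt (∑ i ∈ F, ‖vp i‖ ^ 2) *
          Real.sqrt (∑ i ∈ F, ‖((rho i : ℝ) : ℂ) • w i‖ ^ 2)
        ≤ 2 * (N : ℝ) * (d * V) * W := by gcongr
      _ = _ := by ring
  rw [e1]
  calc _ ≤ ‖frm r C p F vm wm‖ + ‖frm r C p F vm wp‖ +
        ‖frm r C p F vp (fun s => ((rho s : ℝ) : ℂ) • w s)‖ := norm_add₃_le
    _ ≤ 3 * V * W + 2 * N * d * V * W + 2 * N * d * V * W := by gcongr
    _ = _ := by ring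

end Pool.Agent.Work.MP_ebd05c_an.H
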