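import Pool.Agent.Work.MP_ebd05c_an.H.Re

set_option autoImplicit false

open scoped BigOperators ENNReal Topology ComplexConjugate
open Finset Filter Polynomial

/-!
Approximate outer factor by polynomials.
Proof: Q with |Re Q - log w| <= eta' on the circle; h, g = Taylor polynomials (composed with
Q/2 resp. -Q/2) of exp (Q/2), exp (-Q/2) of high order: they converge uniformly on the circle
(Q is bounded there). |exp(Q/2)|^2 = exp (Re Q) is within a factor exp(eta') of w. w has a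
positive lower and a finite upper bound on the circle (compactness).
-/

namespace Pool.Agent.Work.MP_ebd05c_an.H

private theorem hg_exp_poly (P : ℂ[X]) (ε : ℝ) (hε : 0 < ε) :
    ∃ h : ℂ[X], ∀ z : ℂ, ‖z‖ = 1 → ‖h.eval z - Complex.exp (P.eval z)‖ ≤ ε := by
  obtain ⟨M, hM⟩ := (isCompact_sphere (0 : ℂ) 1).exists_bound_of_continuousOn
    (f := fun z => P.eval z) P.continuous.continuousOn
  have hu := Real.summable_pow_div_factorial M
  have h1 : TendstoUniformlyOn (fun (N : ℕ) (z : ℂ) => ∑ n ∈ Finset.range N,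
      (P.eval z) ^ n / (n.factorial : ℂ)) (fun z => ∑' n : ℕ, (P.eval z) ^ n / (n.factorial : ℂ))
      atTop (Metric.sphere 0 1) := by
    refine tendstoUniformlyOn_tsum_nat hu fun n z hz => ?_
    rw [norm_div, norm_pow, Complex.norm_natCast]
    exact div_le_div_of_nonneg_right (pow_le_pow_left₀ (norm_nonneg _) (hM z hz) n)
      (Nat.cast_nonneg _)
  rw [Metric.tendstoUniformlyOn_iff] at h1
  obtain ⟨N, hN⟩ := (h1 ε hε).exists
  refine ⟨∑ n ∈ Finset.range N, C (1 / (n.factorial : ℂ)) * P ^ n, fun z hz => ?_⟩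
  have hz' : z ∈ Metric.sphere (0 : ℂ) 1 := by simpa using hz
  have h2 := (hN z hz').le
  rw [dist_comm, dist_eq_norm] at h2
  have h3 : (∑' n : ℕ, (P.eval z) ^ n / (n.factorial : ℂ)) = Complex.exp (P.eval z) := by
    rw [Complex.exp_eq_exp_ℂ, NormedSpace.exp_eq_tsum_div]
  rw [h3] at h2
  have h4 : (∑ n ∈ Finset.range N, C (1 / (n.factorial : ℂ)) * P ^ n).eval z =
      ∑ n ∈ Finset.range N, (P.eval z) ^ n / (n.factorial : ℂ) := by
    rw [eval_finsetSum]
    refine Finset.sum_congr rfl fun n _ => ?_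
    rw [eval_mul, eval_C, eval_pow]
    ring
  rw [h4]
  exact h2

theorem exists_hg (w : ℂ → ℝ) (hw : ContinuousOn w (Metric.sphere 0 1))
    (hpos : ∀ z : ℂ, ‖z‖ = 1 → 0 < w z) (eta : ℝ) (he : 0 < eta) :
    ∃ h g : ℂ[X], ∀ z : ℂ, ‖z‖ = 1 → ‖h.eval z * g.eval z - 1‖ ≤ eta ∧
      ‖h.eval z‖ ^ 2 ≤ (1 + eta) * w z ∧ ‖g.eval z‖ ^ 2 * w z ≤ 1 + eta := by
  have hne : ∀ z ∈ Metric.sphere (0 : ℂ) 1, w z ≠ 0 := fun z hz => (hpos z (by simpa using hz)).ne'
  have hlog : ContinuousOn (fun z => Real.log (w z)) (Metric.sphere 0 1) := hw.log hne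
  have he1 : (1 : ℝ) < 1 + eta / 2 := by linarith
  obtain ⟨Q, hQ⟩ := exists_re _ hlog (Real.log (1 + eta / 2)) (Real.log_pos he1)
  have hS := isCompact_sphere (0 : ℂ) 1
  have hc1 : Continuous fun z : ℂ => (C (1 / 2) * Q).eval z := Polynomial.continuous _
  have hc2 : Continuous fun z : ℂ => (-(C (1 / 2) * Q)).eval z := Polynomial.continuous _
  obtain ⟨K1, hK1⟩ := hS.exists_bound_of_continuousOn
    (f := fun z => Complex.exp ((C (1 / 2) * Q).eval z)) hc1.cexp.continuousOn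
  obtain ⟨K2, hK2⟩ := hS.exists_bound_of_continuousOn
    (f := fun z => Complex.exp ((-(C (1 / 2) * Q)).eval z)) hc2.cexp.continuousOn
  obtain ⟨K3, hK3⟩ := hS.exists_bound_of_continuousOn hw
  obtain ⟨K4, hK4⟩ := hS.exists_bound_of_continuousOn (hw.inv₀ hne)
  set K : ℝ := 1 + |K1| + |K2| + |K3| + |K4| with hK
  have hK1' : K1 ≤ K := by
    have := le_abs_self K1
    have := abs_nonneg K2
    have := abs_nonneg K3
    have := abs_nonneg K4
    linarith
  have hK2' : K2 ≤ K := by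
    have := le_abs_self K2
    have := abs_nonneg K1
    have := abs_nonneg K3
    have := abs_nonneg K4
    linarith
  have hK3' : K3 ≤ K := by
    have := le_abs_self K3
    have := abs_nonneg K1
    have := abs_nonneg K2
    have := abs_nonneg K4
    linarith
  have hK4' : K4 ≤ K := by
    have := le_abs_self K4
    have := abs_nonneg K1
    have := abs_nonneg K2
    have := abs_nonneg K3
    linarith
  have hK0 : 1 ≤ K := by
    have := abs_nonneg K1
    have := abs_nonneg K2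
    have := abs_nonneg K3
    have := abs_nonneg K4
    linarith
  clear_value K
  have hKp : 0 < K := by linarith
  set ε : ℝ := min 1 (eta / (6 * K ^ 2)) with hεd
  have hε : 0 < ε := lt_min one_pos (by positivity)
  have hε1 : ε ≤ 1 := min_le_left _ _
  have hε2 : 6 * K ^ 2 * ε ≤ eta := by
    have h1 : ε ≤ eta / (6 * K ^ 2) := min_le_right _ _
    rw [le_div_iff₀ (by positivity)] at h1
    linarith
  clear_value ε
  obtain ⟨h, hh⟩ := hg_exp_poly (C (1 / 2) * Q) ε hε
  obtain ⟨g, hg⟩ := hg_exp_poly (-(C (1 / 2) * Q)) ε hε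
  refine ⟨h, g, fun z hz => ?_⟩
  have hz' : z ∈ Metric.sphere (0 : ℂ) 1 := by simpa using hz
  have hw0 : 0 < w z := hpos z hz
  have e1 : ‖Complex.exp ((C (1 / 2) * Q).eval z)‖ ≤ K := (hK1 z hz').trans hK1'
  have e2 : ‖Complex.exp ((-(C (1 / 2) * Q)).eval z)‖ ≤ K := (hK2 z hz').trans hK2'
  have e3 : w z ≤ K := (le_abs_self _).trans ((hK3 z hz').trans hK3')
  have e4 : 1 ≤ K * w z := by
    have h1 : (w z)⁻¹ ≤ K := (le_abs_self _).trans ((hK4 z hz').trans hK4')
    rw [inv_le_iff_one_le_mul₀ hw0] at h1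
    linarith
  have e5 : Complex.exp ((C (1 / 2) * Q).eval z) * Complex.exp ((-(C (1 / 2) * Q)).eval z) = 1 := by
    rw [← Complex.exp_add, eval_neg, add_neg_cancel, Complex.exp_zero]
  have hre : ((C (1 / 2) * Q).eval z).re = (Q.eval z).re / 2 := by
    rw [eval_mul, eval_C]
    have h2 : (1 / 2 : ℂ) * Q.eval z = ((1 / 2 : ℝ) : ℂ) * Q.eval z := by push_cast; ring
    rw [h2, Complex.re_ofReal_mul]
    ring
  have hQz := abs_le.1 (hQ z hz)
  have hexp : Real.exp (Real.log (1 + eta / 2)) = 1 + eta / 2 := Real.exp_log (by linarith)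
  have e6 : ‖Complex.exp ((C (1 / 2) * Q).eval z)‖ ^ 2 ≤ (1 + eta / 2) * w z := by
    rw [Complex.norm_exp, hre, ← Real.exp_nat_mul]
    have h3 : ((2 : ℕ) : ℝ) * ((Q.eval z).re / 2) ≤ Real.log (1 + eta / 2) + Real.log (w z) := by
      push_cast
      linarith [hQz.2]
    calc Real.exp (((2 : ℕ) : ℝ) * ((Q.eval z).re / 2)) ≤
        Real.exp (Real.log (1 + eta / 2) + Real.log (w z)) := Real.exp_le_exp.2 h3
      _ = (1 + eta / 2) * w z := by rw [Real.exp_add, hexp, Real.exp_log hw0]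
  have e7 : ‖Complex.exp ((-(C (1 / 2) * Q)).eval z)‖ ^ 2 * w z ≤ 1 + eta / 2 := by
    rw [Complex.norm_exp, eval_neg, Complex.neg_re, hre, ← Real.exp_nat_mul]
    have h3 : ((2 : ℕ) : ℝ) * (-((Q.eval z).re / 2)) ≤
        Real.log (1 + eta / 2) - Real.log (w z) := by
      push_cast
      linarith [hQz.1]
    calc Real.exp (((2 : ℕ) : ℝ) * (-((Q.eval z).re / 2))) * w z ≤
        Real.exp (Real.log (1 + eta / 2) - Real.log (w z)) * w z :=
          mul_le_mul_of_nonneg_right (Real.exp_le_exp.2 h3) hw0.le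
      _ = 1 + eta / 2 := by
          rw [Real.exp_sub, hexp, Real.exp_log hw0, div_mul_cancel₀ _ hw0.ne']
  have f1 := hh z hz
  have f2 := hg z hz
  set E := Complex.exp ((C (1 / 2) * Q).eval z) with hE
  set F := Complex.exp ((-(C (1 / 2) * Q)).eval z) with hF
  set a := h.eval z - E with ha
  set b := g.eval z - F with hb
  have ga : h.eval z = E + a := by rw [ha]; ring
  have gb : g.eval z = F + b := by rw [hb]; ring
  have na : ‖a‖ ≤ ε := f1
  have nb : ‖b‖ ≤ ε := f2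
  have k0 : 3 * K ≤ 6 * K ^ 2 := by nlinarith only [hK0]
  have k1 : 3 * K * ε ≤ 6 * K ^ 2 * ε := mul_le_mul_of_nonneg_right k0 hε.le
  have nh : ‖h.eval z‖ ≤ ‖E‖ + ε := by
    rw [ga]
    exact (norm_add_le _ _).trans (by linarith only [na])
  have ng : ‖g.eval z‖ ≤ ‖F‖ + ε := by
    rw [gb]
    exact (norm_add_le _ _).trans (by linarith only [nb])
  have nE := norm_nonneg E
  have nF := norm_nonneg F
  refine ⟨?_, ?_, ?_⟩
  · have h5 : h.eval z * g.eval z - 1 = E * b + a * F + a * b := by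
      rw [ga, gb]
      linear_combination e5
    rw [h5]
    calc ‖E * b + a * F + a * b‖ ≤ ‖E * b‖ + ‖a * F‖ + ‖a * b‖ :=
          (norm_add_le _ _).trans (by
            have := norm_add_le (E * b) (a * F)
            gcongr)
      _ = ‖E‖ * ‖b‖ + ‖a‖ * ‖F‖ + ‖a‖ * ‖b‖ := by rw [norm_mul, norm_mul, norm_mul]
      _ ≤ K * ε + ε * K + ε * 1 := by
          have i1 : ‖E‖ * ‖b‖ ≤ K * ε := mul_le_mul e1 nb (norm_nonneg _) hKp.le
          have i2 : ‖a‖ * ‖F‖ ≤ ε * K := mul_le_mul na e2 nF hε.le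
          have i3 : ‖a‖ * ‖b‖ ≤ ε * 1 := mul_le_mul na (nb.trans hε1) (norm_nonneg _) hε.le
          linarith
      _ ≤ 3 * K * ε := by
          have i4 : ε * 1 ≤ ε * K := mul_le_mul_of_nonneg_left hK0 hε.le
          linarith only [i4]
      _ ≤ eta := by linarith
  · have h6 : ‖h.eval z‖ ^ 2 ≤ (‖E‖ + ε) ^ 2 := pow_le_pow_left₀ (norm_nonneg _) nh 2
    have h7 : (‖E‖ + ε) ^ 2 ≤ ‖E‖ ^ 2 + 3 * K * ε := by
      have i1 : ‖E‖ * ε ≤ K * ε := mul_le_mul_of_nonneg_right e1 hε.le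
      have i2 : ε * ε ≤ K * ε := mul_le_mul_of_nonneg_right (hε1.trans hK0) hε.le
      nlinarith only [i1, i2]
    have h8 : 3 * K * ε ≤ eta / 2 * w z := by
      have i1 : 3 * K * ε * 1 ≤ 3 * K * ε * (K * w z) :=
        mul_le_mul_of_nonneg_left e4 (by positivity)
      have i2 : 3 * K * ε * (K * w z) = (6 * K ^ 2 * ε) / 2 * w z := by ring
      have i3 : (6 * K ^ 2 * ε) / 2 * w z ≤ eta / 2 * w z := by
        apply mul_le_mul_of_nonneg_right _ hw0.le
        linarith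
      linarith
    linarith only [h6, h7, h8, e6]
  · have h6 : ‖g.eval z‖ ^ 2 ≤ (‖F‖ + ε) ^ 2 := pow_le_pow_left₀ (norm_nonneg _) ng 2
    have h7 : (‖F‖ + ε) ^ 2 ≤ ‖F‖ ^ 2 + 3 * K * ε := by
      have i1 : ‖F‖ * ε ≤ K * ε := mul_le_mul_of_nonneg_right e2 hε.le
      have i2 : ε * ε ≤ K * ε := mul_le_mul_of_nonneg_right (hε1.trans hK0) hε.le
      nlinarith only [i1, i2]
    have h8 : 3 * K * ε * w z ≤ eta / 2 := by
      have i1 : 3 * K * ε * w z ≤ 3 * K * ε * K := mul_le_mul_of_nonneg_left e3 (by positivity)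
      have i2 : 3 * K * ε * K = (6 * K ^ 2 * ε) / 2 := by ring
      linarith
    have h9 : ‖g.eval z‖ ^ 2 * w z ≤ (‖F‖ ^ 2 + 3 * K * ε) * w z :=
      mul_le_mul_of_nonneg_right (h6.trans h7) hw0.le
    linarith only [h8, h9, e7]

end Pool.Agent.Work.MP_ebd05c_an.H
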