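import Pool.Agent.Work.MP_ebd05c_an.H.Wt

set_option autoImplicit false

open scoped BigOperators ENNReal Topology ComplexConjugate
open Finset Filter Polynomial

/-!
Key estimate for products h * b_k.
Proof: with a = derivative p * h, the coefficient of a * b_k at lam - 1 is the sum over
m < lam of a_m (b_k)_(lam-1-m), at most (sum_(m<lam) |a_m|^2)^(1/2) (sqn b_k)^(1/2). Cauchy-Schwarz in k:
<= (sum_k lam_k^-2 sum_(m<lam_k) |a_m|^2)^(1/2) (sum_k sqn b_k)^(1/2). Exchange: for fixed m the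
sum of lam_k^-2 over the k with lam_k > m is at most (4/3)/(m+1)^2 (geometric series from the
smallest such lam_k >= m+1; hlam below). Then Wt.wt and (4/3)(1+sqrt 2)^2 <= 9.
-/

namespace Pool.Agent.Work.MP_ebd05c_an.H

private theorem ke1_pos (r k : ℕ) : (0 : ℝ) < (lam r k : ℝ) := by
  unfold lam
  positivity

private theorem ke1_geom (r N : ℕ) :
    ∑ k ∈ range N, 1 / ((lam r k : ℝ)) ^ 2 + (4 / 3) / ((lam r N : ℝ)) ^ 2 =
      (4 / 3) / ((lam r 0 : ℝ)) ^ 2 := by
  induction N with
  | zero => simp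
  | succ n ih =>
    rw [sum_range_succ]
    have h : (lam r (n + 1) : ℝ) = 2 * lam r n := by
      unfold lam
      push_cast
      rw [← add_assoc, pow_succ]
      ring
    have hpos : (lam r n : ℝ) ≠ 0 := (ke1_pos r n).ne'
    rw [← ih, h]
    field_simp
    ring

theorem hlam (r N m : ℕ) :
    ∑ k ∈ (range N).filter (fun k => m < lam r k), 1 / ((lam r k : ℝ)) ^ 2 ≤
      (4 / 3) / ((m : ℝ) + 1) ^ 2 := by
  rw [sum_filter]
  induction N generalizing r with
  | zero =>
    simp only [range_zero, sum_empty]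
    positivity
  | succ n ih =>
    by_cases hm : m < lam r 0
    · calc ∑ k ∈ range (n + 1), (if m < lam r k then 1 / ((lam r k : ℝ)) ^ 2 else 0)
          ≤ ∑ k ∈ range (n + 1), 1 / ((lam r k : ℝ)) ^ 2 := by
            apply sum_le_sum
            intro k _
            split_ifs
            · exact le_rfl
            · positivity
        _ ≤ (4 / 3) / ((lam r 0 : ℝ)) ^ 2 := by
            have h1 := ke1_geom r (n + 1)
            have h2 : 0 ≤ (4 / 3) / ((lam r (n + 1) : ℝ)) ^ 2 := by positivity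
            linarith
        _ ≤ (4 / 3) / ((m : ℝ) + 1) ^ 2 := by
            have h3 : (m : ℝ) + 1 ≤ lam r 0 := by exact_mod_cast hm
            gcongr
    · rw [sum_range_succ', if_neg hm, add_zero]
      have h4 : ∀ k, lam r (k + 1) = lam (r + 1) k := by
        intro k
        unfold lam
        congr 1
        ring
      simp_rw [h4]
      exact ih (r + 1)

private theorem ke1_sqn (f : ℂ[X]) (L : ℕ) : ∑ i ∈ range L, ‖f.coeff i‖ ^ 2 ≤ sqn f := by
  unfold sqn
  rcases le_total L (f.natDegree + 1) with h | h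
  · exact sum_le_sum_of_subset_of_nonneg (range_mono h) (fun _ _ _ => by positivity)
  · apply le_of_eq
    symm
    apply sum_subset (range_mono h)
    intro i _ hi
    rw [coeff_eq_zero_of_natDegree_lt]
    · simp
    · rw [mem_range] at hi
      omega

private theorem ke1_coeff (a b : ℂ[X]) (n : ℕ) :
    ‖(a * b).coeff n‖ ≤
      Real.sqrt (∑ m ∈ range (n + 1), ‖a.coeff m‖ ^ 2) * Real.sqrt (sqn b) := by
  rw [coeff_mul, Finset.Nat.sum_antidiagonal_eq_sum_range_succ
    (fun i j => a.coeff i * b.coeff j)]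
  calc ‖∑ k ∈ range (n + 1), a.coeff k * b.coeff (n - k)‖
      ≤ ∑ k ∈ range (n + 1), ‖a.coeff k‖ * ‖b.coeff (n - k)‖ := by
        refine (norm_sum_le _ _).trans ?_
        apply sum_le_sum
        intro k _
        rw [norm_mul]
    _ ≤ Real.sqrt (∑ k ∈ range (n + 1), ‖a.coeff k‖ ^ 2) *
        Real.sqrt (∑ k ∈ range (n + 1), ‖b.coeff (n - k)‖ ^ 2) :=
        Real.sum_mul_le_sqrt_mul_sqrt _ _ _
    _ ≤ _ := by
        apply mul_le_mul_of_nonneg_left _ (Real.sqrt_nonneg _)
        apply Real.sqrt_le_sqrt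
        have h1 := Finset.sum_range_reflect (fun j => ‖b.coeff j‖ ^ 2) (n + 1)
        simp only [Nat.add_sub_cancel] at h1
        rw [h1]
        exact ke1_sqn b (n + 1)

theorem ke1 {N : ℕ} (r : ℕ) (p h : ℂ[X]) (hp : Bd p) (b : Fin N → ℂ[X]) :
    ‖∑ k : Fin N, (1 / (lam r k : ℂ)) * (derivative p * h * b k).coeff (lam r k - 1)‖ ≤
      3 * Real.sqrt (sqn h) * Real.sqrt (∑ k, sqn (b k)) := by
  set a : ℂ[X] := derivative p * h with ha
  have hsq0 : ∀ f : ℂ[X], 0 ≤ sqn f := fun f => sum_nonneg fun _ _ => by positivity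
  let A : ℕ → ℝ := fun k => ∑ m ∈ range (lam r k), ‖a.coeff m‖ ^ 2
  have hA0 : ∀ k, 0 ≤ A k := fun k => sum_nonneg fun _ _ => by positivity
  have step1 : ‖∑ k : Fin N, (1 / (lam r k : ℂ)) * (a * b k).coeff (lam r k - 1)‖ ≤
      ∑ k : Fin N, (Real.sqrt (A k) / lam r k) * Real.sqrt (sqn (b k)) := by
    refine (norm_sum_le _ _).trans ?_
    apply sum_le_sum
    intro k _
    have hl : lam r k - 1 + 1 = lam r k := Nat.sub_add_cancel (by unfold lam; exact Nat.one_le_two_pow)
    have h1 := ke1_coeff a (b k) (lam r k - 1)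
    rw [hl] at h1
    rw [norm_mul, norm_div, norm_one, Complex.norm_natCast]
    have h2 : 0 ≤ 1 / (lam r k : ℝ) := by positivity
    calc 1 / (lam r k : ℝ) * ‖(a * b k).coeff (lam r k - 1)‖
        ≤ 1 / (lam r k : ℝ) * (Real.sqrt (A k) * Real.sqrt (sqn (b k))) :=
          mul_le_mul_of_nonneg_left h1 h2
      _ = _ := by ring
  have step2 := Real.sum_mul_le_sqrt_mul_sqrt (univ : Finset (Fin N))
    (fun k => Real.sqrt (A k) / lam r k) (fun k => Real.sqrt (sqn (b k)))
  have e2 : ∑ k : Fin N, Real.sqrt (sqn (b k)) ^ 2 = ∑ k, sqn (b k) := by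
    apply sum_congr rfl
    intro k _
    exact Real.sq_sqrt (hsq0 _)
  have e1 : ∑ k : Fin N, (Real.sqrt (A k) / lam r k) ^ 2 ≤
      (4 / 3) * ((1 + Real.sqrt 2) ^ 2 * sqn h) := by
    have f1 : ∀ k : Fin N, (Real.sqrt (A k) / lam r k) ^ 2 =
        ∑ m ∈ range (lam r N), if m < lam r k then ‖a.coeff m‖ ^ 2 * (1 / (lam r k : ℝ) ^ 2) else 0 := by
      intro k
      have hle : lam r k ≤ lam r N := by
        unfold lam
        exact Nat.pow_le_pow_right (by norm_num) (by have := k.2; omega)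
      rw [div_pow, Real.sq_sqrt (hA0 _), ← sum_filter]
      have hf : (range (lam r N)).filter (fun m => m < lam r k) = range (lam r k) := by
        ext m
        simp only [mem_filter, mem_range]
        omega
      rw [hf, ← sum_mul]
      change A k / _ = A k * _
      ring
    calc ∑ k : Fin N, (Real.sqrt (A k) / lam r k) ^ 2
        = ∑ k : Fin N, ∑ m ∈ range (lam r N),
            (if m < lam r k then ‖a.coeff m‖ ^ 2 * (1 / (lam r k : ℝ) ^ 2) else 0) :=
          sum_congr rfl fun k _ => f1 k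
      _ = ∑ m ∈ range (lam r N), ∑ k : Fin N,
            (if m < lam r k then ‖a.coeff m‖ ^ 2 * (1 / (lam r k : ℝ) ^ 2) else 0) := sum_comm
      _ = ∑ m ∈ range (lam r N), ‖a.coeff m‖ ^ 2 *
            ∑ k ∈ (range N).filter (fun k => m < lam r k), 1 / ((lam r k : ℝ)) ^ 2 := by
          apply sum_congr rfl
          intro m _
          rw [Fin.sum_univ_eq_sum_range
            (fun k => if m < lam r k then ‖a.coeff m‖ ^ 2 * (1 / (lam r k : ℝ) ^ 2) else 0) N,
            ← sum_filter, mul_sum]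
      _ ≤ ∑ m ∈ range (lam r N), (4 / 3) * (‖a.coeff m‖ ^ 2 / ((m : ℝ) + 1) ^ 2) := by
          apply sum_le_sum
          intro m _
          calc ‖a.coeff m‖ ^ 2 *
                ∑ k ∈ (range N).filter (fun k => m < lam r k), 1 / ((lam r k : ℝ)) ^ 2
              ≤ ‖a.coeff m‖ ^ 2 * ((4 / 3) / ((m : ℝ) + 1) ^ 2) :=
                mul_le_mul_of_nonneg_left (hlam r N m) (by positivity)
            _ = _ := by ring
      _ = (4 / 3) * ∑ m ∈ range (lam r N), ‖a.coeff m‖ ^ 2 / ((m : ℝ) + 1) ^ 2 := by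
          rw [mul_sum]
      _ ≤ (4 / 3) * ((1 + Real.sqrt 2) ^ 2 * sqn h) := by
          apply mul_le_mul_of_nonneg_left _ (by norm_num)
          exact wt p h hp (lam r N)
  have e3 : Real.sqrt (∑ k : Fin N, (Real.sqrt (A k) / lam r k) ^ 2) ≤
      3 * Real.sqrt (sqn h) := by
    rw [show (3 : ℝ) * Real.sqrt (sqn h) = Real.sqrt (9 * sqn h) by
      rw [Real.sqrt_mul (by norm_num), show (9 : ℝ) = 3 ^ 2 by norm_num,
        Real.sqrt_sq (by norm_num)]]
    apply Real.sqrt_le_sqrt
    refine e1.trans ?_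
    have g1 : Real.sqrt 2 ≤ 3 / 2 := by
      rw [Real.sqrt_le_left (by norm_num)]
      norm_num
    have g2 : Real.sqrt 2 ^ 2 = 2 := Real.sq_sqrt (by norm_num)
    have g3 : (4 / 3) * (1 + Real.sqrt 2) ^ 2 ≤ 9 := by nlinarith
    have g4 := mul_le_mul_of_nonneg_right g3 (hsq0 h)
    linarith
  calc _ ≤ _ := step1
    _ ≤ _ := step2
    _ ≤ _ := by
      rw [e2]
      exact mul_le_mul_of_nonneg_right e3 (Real.sqrt_nonneg _)

end Pool.Agent.Work.MP_ebd05c_an.H
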