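import Pool.Agent.Work.MP_ebd05c_an.H.Ke1
import Pool.Agent.Work.MP_ebd05c_an.H.Hg

set_option autoImplicit false

open scoped BigOperators ENNReal Topology ComplexConjugate
open Finset Filter Polynomial

/-!
Key estimate for families of polynomials.
Proof: for eta > 0 put w(z) = sqrt (sum |u_k(z)|^2) + eta, take h, g from exists_hg, b_k = u_k g,
M large (>= M0, > all degrees): M sqn h = sum |h(om)|^2 <= (1+eta) sum w(om) <= (1+eta) M (B+eta),
and M sum_k sqn b_k = sum_j sum_k |u_k|^2 |g|^2 <= (1+eta) sum w. ke1 gives 3 (1+eta)(B+eta) for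
h b_k; the error is the coefficient of derivative p * u_k * (1 - h g), at most
eta * sup |derivative p * u_k| on the circle (coeff_le). Let eta -> 0.
-/

namespace Pool.Agent.Work.MP_ebd05c_an.H

private theorem om_norm' (M j : ℕ) : ‖om M j‖ = 1 := by
  unfold om
  have : (2 * (Real.pi : ℂ) * Complex.I * j / M) = ((2 * Real.pi * j / M : ℝ) : ℂ) * Complex.I := by
    push_cast
    ring
  rw [this, Complex.norm_exp_ofReal_mul_I]

private theorem eval_bound (f : ℂ[X]) : ∃ C : ℝ, 0 ≤ C ∧ ∀ z : ℂ, ‖z‖ = 1 → ‖f.eval z‖ ≤ C := by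
  refine ⟨∑ i ∈ range (f.natDegree + 1), ‖f.coeff i‖, Finset.sum_nonneg fun i _ => norm_nonneg _,
    fun z hz => ?_⟩
  rw [Polynomial.eval_eq_sum_range]
  refine (norm_sum_le _ _).trans (Finset.sum_le_sum fun i _ => ?_)
  rw [norm_mul, norm_pow, hz, one_pow, mul_one]

private theorem ke2_eta {N : ℕ} (r : ℕ) (p : ℂ[X]) (hp : Bd p) (u : Fin N → ℂ[X]) (B : ℝ)
    (hB0 : 0 ≤ B)
    (hB : ∃ M0 : ℕ, ∀ M : ℕ, M0 ≤ M →
      ∑ j ∈ range M, Real.sqrt (∑ k, ‖(u k).eval (om M j)‖ ^ 2) ≤ M * B)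
    (C : Fin N → ℝ) (hC0 : ∀ k, 0 ≤ C k)
    (hC : ∀ k, ∀ z : ℂ, ‖z‖ = 1 → ‖(derivative p * u k).eval z‖ ≤ C k) (eta : ℝ)
    (he : 0 < eta) :
    ‖∑ k : Fin N, (1 / (lam r k : ℂ)) * (derivative p * u k).coeff (lam r k - 1)‖ ≤
      3 * ((1 + eta) * (B + eta)) + eta * ∑ k, C k := by
  obtain ⟨M0, hM0⟩ := hB
  let U : ℂ → ℝ := fun z => Real.sqrt (∑ k, ‖(u k).eval z‖ ^ 2)
  have hU0 : ∀ z, 0 ≤ U z := fun z => Real.sqrt_nonneg _
  have hU2 : ∀ z, U z ^ 2 = ∑ k, ‖(u k).eval z‖ ^ 2 := fun z =>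
    Real.sq_sqrt (Finset.sum_nonneg fun k _ => by positivity)
  have hUc : Continuous U := by
    apply Real.continuous_sqrt.comp
    exact continuous_finset_sum _ fun k _ => ((u k).continuous.norm).pow 2
  obtain ⟨h, g, hhg⟩ := exists_hg (fun z => U z + eta) ((hUc.add continuous_const).continuousOn)
    (fun z _ => by have := hU0 z; linarith) eta he
  -- a large `M`
  let M : ℕ := M0 + h.natDegree + (∑ k, (u k * g).natDegree) + 1
  have hMpos : (0 : ℝ) < M := by
    have : 0 < M := by omega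
    exact_mod_cast this
  have hMh : h.natDegree < M := by omega
  have hMb : ∀ k, (u k * g).natDegree < M := by
    intro k
    have : (u k * g).natDegree ≤ ∑ k, (u k * g).natDegree :=
      Finset.single_le_sum (f := fun k => (u k * g).natDegree) (fun _ _ => Nat.zero_le _)
        (Finset.mem_univ k)
    omega
  have hUM : ∑ j ∈ range M, U (om M j) ≤ M * B := hM0 M (by omega)
  have hsqh : sqn h ≤ (1 + eta) * (B + eta) := by
    have h1 := parseval_poly h hMh
    have h2 : ∑ j ∈ range M, ‖h.eval (om M j)‖ ^ 2 ≤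
        ∑ j ∈ range M, (1 + eta) * (U (om M j) + eta) :=
      Finset.sum_le_sum fun j _ => (hhg _ (om_norm' M j)).2.1
    rw [← Finset.mul_sum, Finset.sum_add_distrib, Finset.sum_const, card_range, nsmul_eq_mul] at h2
    have h3 : (M : ℝ) * sqn h ≤ M * ((1 + eta) * (B + eta)) := by
      rw [← h1]
      refine h2.trans ?_
      have h4 : (1 + eta) * (∑ j ∈ range M, U (om M j) + M * eta) ≤
          (1 + eta) * (M * B + M * eta) :=
        mul_le_mul_of_nonneg_left (by linarith) (by linarith)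
      refine h4.trans (le_of_eq ?_)
      ring
    exact le_of_mul_le_mul_left h3 hMpos
  have hsqb : ∑ k, sqn (u k * g) ≤ (1 + eta) * (B + eta) := by
    have h1 : (M : ℝ) * ∑ k, sqn (u k * g) = ∑ j ∈ range M, U (om M j) ^ 2 *
        ‖g.eval (om M j)‖ ^ 2 := by
      rw [Finset.mul_sum]
      have h2 : ∀ k, (M : ℝ) * sqn (u k * g) =
          ∑ j ∈ range M, ‖(u k).eval (om M j)‖ ^ 2 * ‖g.eval (om M j)‖ ^ 2 := by
        intro k
        rw [← parseval_poly (u k * g) (hMb k)]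
        refine Finset.sum_congr rfl fun j _ => ?_
        rw [eval_mul, norm_mul, mul_pow]
      rw [Finset.sum_congr rfl fun k _ => h2 k, Finset.sum_comm]
      refine Finset.sum_congr rfl fun j _ => ?_
      rw [hU2, Finset.sum_mul]
    have h3 : ∑ j ∈ range M, U (om M j) ^ 2 * ‖g.eval (om M j)‖ ^ 2 ≤
        ∑ j ∈ range M, (1 + eta) * U (om M j) := by
      refine Finset.sum_le_sum fun j _ => ?_
      have h4 := (hhg _ (om_norm' M j)).2.2
      have h5 := hU0 (om M j)
      have h6 : 0 ≤ ‖g.eval (om M j)‖ ^ 2 := by positivity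
      have h7 : U (om M j) ^ 2 * ‖g.eval (om M j)‖ ^ 2 ≤
          U (om M j) * (‖g.eval (om M j)‖ ^ 2 * (U (om M j) + eta)) := by
        have h8 : 0 ≤ U (om M j) * (‖g.eval (om M j)‖ ^ 2 * eta) :=
          mul_nonneg h5 (mul_nonneg h6 he.le)
        nlinarith
      have h9 : U (om M j) * (‖g.eval (om M j)‖ ^ 2 * (U (om M j) + eta)) ≤
          U (om M j) * (1 + eta) := mul_le_mul_of_nonneg_left h4 h5
      linarith
    have h10 : (M : ℝ) * ∑ k, sqn (u k * g) ≤ M * ((1 + eta) * (B + eta)) := by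
      rw [h1]
      refine h3.trans ?_
      rw [← Finset.mul_sum]
      have h11 : (1 + eta) * ∑ j ∈ range M, U (om M j) ≤ (1 + eta) * (M * B) :=
        mul_le_mul_of_nonneg_left hUM (by linarith)
      have h12 : 0 ≤ (M : ℝ) * ((1 + eta) * eta) := by positivity
      nlinarith
    exact le_of_mul_le_mul_left h10 hMpos
  have hmain := ke1 r p h hp (fun k => u k * g)
  have hE0 : 0 ≤ (1 + eta) * (B + eta) := by positivity
  have hmain2 : 3 * Real.sqrt (sqn h) * Real.sqrt (∑ k, sqn (u k * g)) ≤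
      3 * ((1 + eta) * (B + eta)) := by
    have h1 : Real.sqrt (sqn h) ≤ Real.sqrt ((1 + eta) * (B + eta)) := Real.sqrt_le_sqrt hsqh
    have h2 : Real.sqrt (∑ k, sqn (u k * g)) ≤ Real.sqrt ((1 + eta) * (B + eta)) :=
      Real.sqrt_le_sqrt hsqb
    have h3 : Real.sqrt (sqn h) * Real.sqrt (∑ k, sqn (u k * g)) ≤
        Real.sqrt ((1 + eta) * (B + eta)) * Real.sqrt ((1 + eta) * (B + eta)) :=
      mul_le_mul h1 h2 (Real.sqrt_nonneg _) (Real.sqrt_nonneg _)
    rw [Real.mul_self_sqrt hE0] at h3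
    rw [mul_assoc]
    exact mul_le_mul_of_nonneg_left h3 (by norm_num)
  -- the error term
  have herr : ∀ k : Fin N, ‖(derivative p * u k).coeff (lam r k - 1) -
      (derivative p * h * (u k * g)).coeff (lam r k - 1)‖ ≤ eta * C k := by
    intro k
    rw [← coeff_sub]
    apply coeff_le
    intro z hz
    have h1 : (derivative p * u k - derivative p * h * (u k * g)).eval z =
        (derivative p * u k).eval z * -(h.eval z * g.eval z - 1) := by
      simp only [eval_sub, eval_mul]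
      ring
    rw [h1, norm_mul, norm_neg, mul_comm]
    exact mul_le_mul (hhg z hz).1 (hC k z hz) (norm_nonneg _) he.le
  have hsplit : ∑ k : Fin N, (1 / (lam r k : ℂ)) * (derivative p * u k).coeff (lam r k - 1) =
      ∑ k : Fin N, (1 / (lam r k : ℂ)) * (derivative p * h * (u k * g)).coeff (lam r k - 1) +
      ∑ k : Fin N, (1 / (lam r k : ℂ)) * ((derivative p * u k).coeff (lam r k - 1) -
        (derivative p * h * (u k * g)).coeff (lam r k - 1)) := by
    rw [← Finset.sum_add_distrib]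
    refine Finset.sum_congr rfl fun k _ => ?_
    ring
  rw [hsplit]
  refine (norm_add_le _ _).trans (add_le_add (hmain.trans hmain2) ?_)
  refine (norm_sum_le _ _).trans ?_
  rw [Finset.mul_sum]
  refine Finset.sum_le_sum fun k _ => ?_
  rw [norm_mul]
  have hlam1 : ‖(1 / (lam r k : ℂ))‖ ≤ 1 := by
    rw [norm_div, norm_one, Complex.norm_natCast]
    have : (1 : ℝ) ≤ (lam r k : ℝ) := by
      have h1 : 1 ≤ lam r k := Nat.one_le_two_pow
      exact_mod_cast h1
    rw [div_le_one (by linarith)]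
    exact this
  calc ‖(1 / (lam r k : ℂ))‖ * ‖(derivative p * u k).coeff (lam r k - 1) -
        (derivative p * h * (u k * g)).coeff (lam r k - 1)‖
      ≤ 1 * (eta * C k) := mul_le_mul hlam1 (herr k) (norm_nonneg _) zero_le_one
    _ = eta * C k := one_mul _

theorem ke2 {N : ℕ} (r : ℕ) (p : ℂ[X]) (hp : Bd p) (u : Fin N → ℂ[X]) (B : ℝ)
    (hB : ∃ M0 : ℕ, ∀ M : ℕ, M0 ≤ M →
      ∑ j ∈ range M, Real.sqrt (∑ k, ‖(u k).eval (om M j)‖ ^ 2) ≤ M * B) :
    ‖∑ k : Fin N, (1 / (lam r k : ℂ)) * (derivative p * u k).coeff (lam r k - 1)‖ ≤ 3 * B := by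
  have hB0 : 0 ≤ B := by
    obtain ⟨M0, hM0⟩ := hB
    have h1 := hM0 (M0 + 1) (by omega)
    have h2 : 0 ≤ ∑ j ∈ range (M0 + 1), Real.sqrt (∑ k, ‖(u k).eval (om (M0 + 1) j)‖ ^ 2) :=
      Finset.sum_nonneg fun _ _ => Real.sqrt_nonneg _
    have h3 : (0 : ℝ) < ((M0 + 1 : ℕ) : ℝ) := by positivity
    exact nonneg_of_mul_nonneg_right (h2.trans h1) h3
  choose C hC0 hC using fun k => eval_bound (derivative p * u k)
  have hD : 0 ≤ ∑ k, C k := Finset.sum_nonneg fun k _ => hC0 k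
  set D : ℝ := ∑ k, C k with hDdef
  apply le_of_forall_pos_le_add
  intro ε hε
  have hK : 0 < 3 * B + 6 + D + 1 := by linarith
  let eta : ℝ := min 1 (ε / (3 * B + 6 + D + 1))
  have he : 0 < eta := lt_min one_pos (div_pos hε hK)
  have he1 : eta ≤ 1 := min_le_left _ _
  have he2 : eta * (3 * B + 6 + D + 1) ≤ ε := by
    have := min_le_right 1 (ε / (3 * B + 6 + D + 1))
    rwa [le_div_iff₀ hK] at this
  have h1 := ke2_eta r p hp u B hB0 hB C hC0 hC eta he
  refine h1.trans ?_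
  have h2 : eta * eta ≤ eta * 1 := mul_le_mul_of_nonneg_left he1 he.le
  rw [← hDdef]
  nlinarith

end Pool.Agent.Work.MP_ebd05c_an.H
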