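import Pool.Agent.Work.MP_ebd05c_an.H.Ke2
import Pool.Agent.Work.MP_ebd05c_an.H.Car0

set_option autoImplicit false

open scoped BigOperators ENNReal Topology ComplexConjugate
open Finset Filter Polynomial

/-!
Key estimate for the negative quadrant.
Proof of key: u_k = sum_(i,j in F) <y_i, C_k x_j> X^(i+j). The coefficient of derivative p * u_k at
lam - 1 is the sum over m of (m+1) p_(m+1) (u_k)_(lam-1-m); with m + 1 = lam - (i+j). And
u_k(z) = <y#(z), C_k x(z)> for |z| = 1 with x(z) = sum z^j x_j, y#(z) = sum (conj z)^i y_i, so by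
CAR.dual sqrt (sum |u_k(z)|^2) <= |x(z)| |y#(z)|; Cauchy-Schwarz and parseval over the roots of
unity for M > all elements of F: sum_j <= M |x| |y|. Apply ke2.


-/

namespace Pool.Agent.Work.MP_ebd05c_an.H

variable {E : Type} [NormedAddCommGroup E] [InnerProductSpace ℂ E]

private theorem key_parx (F : Finset ℕ) (x : ℕ → E) {M : ℕ} (hM : F.sup id < M) :
    ∑ j ∈ range M, ‖∑ s ∈ F, ((om M j) ^ s) • x s‖ ^ 2 = M * ∑ s ∈ F, ‖x s‖ ^ 2 := by
  have hM0 : 0 < M := lt_of_le_of_lt (Nat.zero_le _) hM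
  have hlt : ∀ s ∈ F, s < M := fun s hs => lt_of_le_of_lt (Finset.le_sup (f := id) hs) hM
  have h := parseval (E := E) hM0 (F.map Nat.castEmbedding) (by
    intro s hs t ht hd
    simp only [Finset.mem_map, Nat.castEmbedding_apply] at hs ht
    obtain ⟨a, ha, rfl⟩ := hs
    obtain ⟨b, hb, rfl⟩ := ht
    have h1 := hlt a ha
    have h2 := hlt b hb
    have h3 : ((a : ℤ) - b) = 0 := by
      refine Int.eq_zero_of_abs_lt_dvd hd ?_
      rw [abs_lt]
      constructor <;> omega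
    omega) (fun s => x s.toNat)
  simpa [Finset.sum_map] using h

private theorem key_pary (F : Finset ℕ) (y : ℕ → E) {M : ℕ} (hM : F.sup id < M) :
    ∑ j ∈ range M, ‖∑ s ∈ F, ((conj (om M j)) ^ s) • y s‖ ^ 2 = M * ∑ s ∈ F, ‖y s‖ ^ 2 := by
  have hM0 : 0 < M := lt_of_le_of_lt (Nat.zero_le _) hM
  have hlt : ∀ s ∈ F, s < M := fun s hs => lt_of_le_of_lt (Finset.le_sup (f := id) hs) hM
  have h := parseval (E := E) hM0 (F.map ⟨fun n : ℕ => -(n : ℤ), fun a b hab => by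
    simpa using hab⟩) (by
    intro s hs t ht hd
    simp only [Finset.mem_map, Function.Embedding.coeFn_mk] at hs ht
    obtain ⟨a, ha, rfl⟩ := hs
    obtain ⟨b, hb, rfl⟩ := ht
    have h1 := hlt a ha
    have h2 := hlt b hb
    have h3 : (-(a : ℤ) - -(b : ℤ)) = 0 := by
      refine Int.eq_zero_of_abs_lt_dvd hd ?_
      rw [abs_lt]
      constructor <;> omega
    omega) (fun s => y (-s).toNat)
  rw [Finset.sum_map] at h
  simp only [Finset.sum_map, Function.Embedding.coeFn_mk, neg_neg, Int.toNat_natCast] at h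
  rw [← h]
  refine Finset.sum_congr rfl fun j _ => ?_
  congr 2
  refine Finset.sum_congr rfl fun s _ => ?_
  congr 1
  have hn : om M j ≠ 0 := by
    intro h0
    have := om_norm M j
    rw [h0, norm_zero] at this
    exact zero_ne_one this
  rw [zpow_neg, zpow_natCast, ← inv_pow]
  congr 1
  rw [Complex.inv_def, Complex.normSq_eq_norm_sq, om_norm]
  simp

private theorem key_eval {N : ℕ} (C : Fin N → (E →L[ℂ] E)) (F : Finset ℕ) (x y : ℕ → E)
    (k : Fin N) (z : ℂ) :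
    (∑ i ∈ F, ∑ j ∈ F, Polynomial.C (inner ℂ (y i) (C k (x j))) * X ^ (i + j) : ℂ[X]).eval z =
      inner ℂ (∑ i ∈ F, ((conj z) ^ i) • y i) (C k (∑ j ∈ F, (z ^ j) • x j)) := by
  rw [Polynomial.eval_finsetSum, sum_inner]
  refine Finset.sum_congr rfl fun i _ => ?_
  rw [Polynomial.eval_finsetSum, map_sum, inner_sum]
  refine Finset.sum_congr rfl fun j _ => ?_
  rw [map_smul, inner_smul_left, inner_smul_right]
  simp only [eval_mul, eval_C, eval_pow, eval_X, map_pow, Complex.conj_conj]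
  ring

private theorem key_coeff (p : ℂ[X]) (l n : ℕ) (hl : 0 < l) (a : ℂ) :
    (1 / (l : ℂ)) * (derivative p * (Polynomial.C a * X ^ n)).coeff (l - 1) =
      (if n < l then (((l - n : ℕ) : ℂ) / l) * p.coeff (l - n) else 0) * a := by
  have h1 : derivative p * (Polynomial.C a * X ^ n) = Polynomial.C a * (derivative p * X ^ n) := by
    ring
  rw [h1, coeff_C_mul, coeff_mul_X_pow']
  by_cases h : n < l
  · have h2 : n ≤ l - 1 := by omega
    have h3 : l - 1 - n + 1 = l - n := by omega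
    rw [if_pos h2, if_pos h, coeff_derivative, h3]
    have h4 : ((l - 1 - n : ℕ) : ℂ) + 1 = ((l - n : ℕ) : ℂ) := by
      rw [← h3]
      push_cast
      ring
    rw [h4]
    ring
  · have h2 : ¬ n ≤ l - 1 := by omega
    rw [if_neg h2, if_neg h]
    ring

theorem key {N : ℕ} (r : ℕ) (p : ℂ[X]) (hp : Bd p) (C : Fin N → (E →L[ℂ] E)) (hC : CAR C)
    (F : Finset ℕ) (x y : ℕ → E) :
    ‖∑ k : Fin N, ∑ i ∈ F, ∑ j ∈ F,
      (if i + j < lam r k then (((lam r k - (i + j) : ℕ) : ℂ) / lam r k) *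
        p.coeff (lam r k - (i + j)) else 0) * inner ℂ (y i) (C k (x j))‖ ≤
      3 * Real.sqrt (∑ i ∈ F, ‖x i‖ ^ 2) * Real.sqrt (∑ i ∈ F, ‖y i‖ ^ 2) := by
  set u : Fin N → ℂ[X] := fun k =>
    ∑ i ∈ F, ∑ j ∈ F, Polynomial.C (inner ℂ (y i) (C k (x j))) * X ^ (i + j) with hu
  have h1 : ∀ k : Fin N, (∑ i ∈ F, ∑ j ∈ F,
      (if i + j < lam r k then (((lam r k - (i + j) : ℕ) : ℂ) / lam r k) *
        p.coeff (lam r k - (i + j)) else 0) * inner ℂ (y i) (C k (x j))) =
      (1 / (lam r k : ℂ)) * (derivative p * u k).coeff (lam r k - 1) := by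
    intro k
    have hl : 0 < lam r k := by
      unfold lam
      positivity
    simp only [hu]
    rw [Finset.mul_sum, finsetSum_coeff, Finset.mul_sum]
    refine Finset.sum_congr rfl fun i _ => ?_
    rw [Finset.mul_sum, finsetSum_coeff, Finset.mul_sum]
    refine Finset.sum_congr rfl fun j _ => ?_
    rw [key_coeff p _ _ hl]
  rw [Finset.sum_congr rfl fun k _ => h1 k, mul_assoc]
  refine ke2 r p hp u _ ⟨F.sup id + 1, fun M hM => ?_⟩
  have hM' : F.sup id < M := hM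
  set X' : ℕ → ℝ := fun j => ‖∑ s ∈ F, ((om M j) ^ s) • x s‖ with hX'
  set Y' : ℕ → ℝ := fun j => ‖∑ s ∈ F, ((conj (om M j)) ^ s) • y s‖ with hY'
  have h2 : ∀ j ∈ range M, Real.sqrt (∑ k, ‖(u k).eval (om M j)‖ ^ 2) ≤ X' j * Y' j := by
    intro j _
    refine Real.sqrt_le_iff.2 ⟨by positivity, ?_⟩
    have h3 := hC.dual (∑ s ∈ F, ((om M j) ^ s) • x s) (∑ s ∈ F, ((conj (om M j)) ^ s) • y s)
    refine le_trans (le_of_eq ?_) (h3.trans (le_of_eq ?_))
    · refine Finset.sum_congr rfl fun k _ => ?_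
      simp only [hu]
      rw [key_eval]
    · rw [mul_pow]
  refine (Finset.sum_le_sum h2).trans ?_
  refine (Real.sum_mul_le_sqrt_mul_sqrt _ _ _).trans (le_of_eq ?_)
  have h4 := key_parx F x hM'
  have h5 := key_pary F y hM'
  simp only [hX', hY']
  rw [h4, h5, Real.sqrt_mul (Nat.cast_nonneg M), Real.sqrt_mul (Nat.cast_nonneg M)]
  have h6 : Real.sqrt (M : ℝ) * Real.sqrt (M : ℝ) = M := Real.mul_self_sqrt (Nat.cast_nonneg M)
  calc Real.sqrt (M : ℝ) * Real.sqrt (∑ s ∈ F, ‖x s‖ ^ 2) *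
        (Real.sqrt (M : ℝ) * Real.sqrt (∑ s ∈ F, ‖y s‖ ^ 2))
      = (Real.sqrt (M : ℝ) * Real.sqrt (M : ℝ)) * (Real.sqrt (∑ s ∈ F, ‖x s‖ ^ 2) *
          Real.sqrt (∑ s ∈ F, ‖y s‖ ^ 2)) := by ring
    _ = _ := by rw [h6]

end Pool.Agent.Work.MP_ebd05c_an.H
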