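import Pool.Agent.Work.MP_ebd05c_an.H.Asm
import Pool.Agent.Work.MP_ebd05c_an.H.Block

set_option autoImplicit false

open scoped BigOperators ENNReal Topology ComplexConjugate
open Finset Filter Polynomial

/-!
The negative part: choice of the parameters.
δ = min ε 1; b n = max (c n) (1/(n+1)) tends to 0; e_N = δ/7/(N+1)^(1/4), number of matrices N+1,
Mn N = 9 (N+1)^2; n_N with b n <= 1/Mn N for n >= n_N; kap_N <= min (1/2) (δ/(N+1)) so small that
(1/(1-kap_N))^n <= 1 + δ for n <= n_N. Then asm for the operators of block (choose), with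
e N := e_N sqrt (N+1)/4 -> infinity. Special ε b implies Special ε c since c <= b.
-/

namespace Pool.Agent.Work.MP_ebd05c_an.H

/-- the growth function -/
lemma exists_b (c : ℕ → ℝ) (hc : ¬ LimsupPos c) :
    ∃ b : ℕ → ℝ, (∀ n, 0 < b n) ∧ Tendsto b atTop (𝓝 0) ∧ (∀ n : ℕ, 1 / b n ≤ (n : ℝ) + 1) ∧
      ∀ n, c n ≤ b n := by
  set b : ℕ → ℝ := fun n => max (c n) (1 / ((n : ℝ) + 1)) with hb
  have hb0 : ∀ n, 0 < b n := fun n => lt_max_of_lt_right (by positivity)
  refine ⟨b, hb0, ?_, ?_, fun n => le_max_left _ _⟩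
  · have hc' : ∀ η : ℝ, 0 < η → ∀ᶠ n in atTop, c n < η := by
      intro η hη
      by_contra hcon
      apply hc
      refine ⟨η, hη, ?_⟩
      rw [not_eventually] at hcon
      exact hcon.mono (fun n hn => not_lt.1 hn)
    rw [Metric.tendsto_atTop']
    intro η hη
    have h1 := (tendsto_one_div_add_atTop_nhds_zero_nat (𝕜 := ℝ)).eventually (gt_mem_nhds hη)
    obtain ⟨N, hN⟩ := eventually_atTop.1 ((hc' η hη).and h1)
    refine ⟨N, fun n hn => ?_⟩
    rw [Real.dist_eq, sub_zero, abs_of_pos (hb0 n)]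
    exact max_lt (hN n hn.le).1 (hN n hn.le).2
  · intro n
    rw [div_le_iff₀ (hb0 n)]
    have h1 : 1 / ((n : ℝ) + 1) ≤ b n := le_max_right _ _
    have h2 : (0 : ℝ) < (n : ℝ) + 1 := by positivity
    rw [div_le_iff₀ h2] at h1
    linarith

/-- choice of the size of the perturbation -/
lemma inv_pow_le {δ : ℝ} (hδ : 0 < δ) (hδ1 : δ ≤ 1) (m : ℕ) {k : ℝ} (hk : 0 < k)
    (hk1 : k ≤ 1 / 2) (hkm : m * k ≤ δ / 4) : (1 / (1 - k)) ^ m ≤ 1 + δ := by
  have h1 : 1 + (m : ℝ) * (-k) ≤ (1 + -k) ^ m := one_add_mul_le_pow (by linarith) m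
  have h2 : 1 - δ / 4 ≤ (1 - k) ^ m := by
    have : (1 + -k) = 1 - k := by ring
    rw [this] at h1
    linarith
  have h3 : 0 < 1 - δ / 4 := by linarith
  rw [div_pow, one_pow, div_le_iff₀ (by linarith)]
  calc (1 : ℝ) ≤ (1 + δ) * (1 - δ / 4) := by nlinarith
    _ ≤ (1 + δ) * (1 - k) ^ m := by gcongr

theorem negative (ε : ℝ) (hε : 0 < ε) (c : ℕ → ℝ) (hc : ¬ LimsupPos c) :
    ∃ (H : Type) (_ : NormedAddCommGroup H) (_ : InnerProductSpace ℂ H) (_ : CompleteSpace H)
      (T : H →L[ℂ] H), Special ε c T ∧ ¬ SimilarToContraction T := by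
  set δ : ℝ := min ε 1 with hδ
  have hδ0 : 0 < δ := lt_min hε one_pos
  have hδ1 : δ ≤ 1 := min_le_right _ _
  have hδε : δ ≤ ε := min_le_left _ _
  obtain ⟨b, hb0, hbt, hb1, hcb⟩ := exists_b c hc
  -- the couplings
  set q : ℕ → ℝ := fun k => Real.sqrt (Real.sqrt ((k : ℝ) + 1)) with hq
  have hq1 : ∀ k, 1 ≤ q k := by
    intro k
    have h1 : (1 : ℝ) ≤ (k : ℝ) + 1 := by
      have : (0 : ℝ) ≤ k := by positivity
      linarith
    rw [hq]
    exact Real.one_le_sqrt.2 (Real.one_le_sqrt.2 h1)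
  set e : ℕ → ℝ := fun k => δ / 7 / q k with he'
  have he : ∀ k, 0 < e k := fun k => by
    have := hq1 k
    have h2 : 0 < q k := by linarith
    simp only [he']
    positivity
  have he0 : ∀ k, e k ≤ δ / 7 := fun k => div_le_self (by positivity) (hq1 k)
  have hqt : Tendsto q atTop atTop := by
    have h1 : Tendsto (fun k : ℕ => (k : ℝ) + 1) atTop atTop :=
      tendsto_atTop_add_const_right _ _ tendsto_natCast_atTop_atTop
    exact Real.tendsto_sqrt_atTop.comp (Real.tendsto_sqrt_atTop.comp h1)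
  set Mn : ℕ → ℝ := fun N => 9 * ((N + 1 : ℕ) : ℝ) ^ 2 with hMn
  have hMpos : ∀ N, 0 < Mn N := fun N => by simp only [hMn]; positivity
  have hex : ∀ N : ℕ, ∃ n0 : ℕ, ∀ n ≥ n0, Mn N ≤ 1 / b n := by
    intro N
    have h1 : ∀ᶠ n in atTop, b n < 1 / Mn N :=
      hbt.eventually (gt_mem_nhds (by have := hMpos N; positivity))
    obtain ⟨n0, hn0⟩ := eventually_atTop.1 h1
    refine ⟨n0, fun n hn => ?_⟩
    have h2 := hn0 n hn
    rw [lt_div_iff₀ (hMpos N)] at h2
    rw [le_div_iff₀ (hb0 n)]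
    linarith
  choose n0 hn0 using hex
  set kap : ℕ → ℝ := fun N => δ / 4 / (((N : ℝ) + 1) * ((n0 N : ℝ) + 1)) with hkap
  have hk0 : ∀ N, 0 < kap N := fun N => by simp only [hkap]; positivity
  have hk2 : ∀ N, kap N ≤ δ / 4 / ((N : ℝ) + 1) := by
    intro N
    simp only [hkap]
    rw [← div_div]
    apply div_le_self (by positivity)
    have : (0 : ℝ) ≤ n0 N := by positivity
    linarith
  have hk3 : ∀ N, kap N ≤ δ / 4 := fun N => (hk2 N).trans (div_le_self (by positivity) (by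
    have : (0 : ℝ) ≤ N := by positivity
    linarith))
  have hk1 : ∀ N, kap N ≤ 1 / 2 := fun N => (hk3 N).trans (by linarith)
  have hk4 : ∀ N, (n0 N : ℝ) * kap N ≤ δ / 4 := by
    intro N
    simp only [hkap]
    rw [mul_div_assoc', div_le_iff₀ (by positivity)]
    have h1 : (0 : ℝ) ≤ n0 N := by positivity
    have h2 : (0 : ℝ) ≤ N := by positivity
    have h3 : (n0 N : ℝ) ≤ ((N : ℝ) + 1) * ((n0 N : ℝ) + 1) := by nlinarith
    nlinarith
  have hkt : Tendsto kap atTop (𝓝 0) := by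
    refine squeeze_zero (fun N => (hk0 N).le) hk2 ?_
    have h1 := (tendsto_one_div_add_atTop_nhds_zero_nat (𝕜 := ℝ)).const_mul (δ / 4)
    rw [mul_zero] at h1
    refine h1.congr (fun N => ?_)
    ring
  have hblk := fun N : ℕ => block (N + 1) (Nat.succ_pos N) (e N) (he N)
    ((he0 N).trans (by linarith)) (kap N) (hk0 N) (hk1 N)
  choose H i1 i2 i3 T R U K h1 h2 h3 h4 h5 h6 h7 h8 h9 h10 h11 using hblk
  have hRb : ∀ N (n : ℕ), ‖R N ^ n‖ ≤ max (1 + ε) (1 / b n) := by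
    intro N n
    rcases le_or_gt (n0 N) n with hn | hn
    · exact ((h9 N n).trans (hn0 N n hn)).trans (le_max_right _ _)
    · refine le_trans ?_ (le_max_left _ _)
      have e1 : ‖R N ^ n‖ ≤ ‖R N‖ ^ n := by
        rcases Nat.eq_zero_or_pos n with h0 | h0
        · subst h0
          rw [pow_zero, pow_zero]
          exact ContinuousLinearMap.norm_id_le
        · exact norm_pow_le' _ h0
      have e2 : ‖R N‖ ^ n ≤ (1 / (1 - kap N)) ^ n := by
        gcongr
        exact h8 N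
      have e3 : (n : ℝ) * kap N ≤ δ / 4 := by
        refine le_trans ?_ (hk4 N)
        have := (hk0 N).le
        gcongr
      have e4 := inv_pow_le hδ0 hδ1 n (hk0 N) (hk1 N) e3
      linarith
  have hpoly : ∀ N (p : ℂ[X]), Bd p → ‖aeval (T N) p‖ ≤ 1 + ε := by
    intro N p hp
    have e1 := h10 N p hp
    have e2 := he0 N
    linarith
  have hlarge : ∀ C : ℝ, ∃ N, C < e N * Real.sqrt ((N + 1 : ℕ) : ℝ) / 4 := by
    intro C
    obtain ⟨N, hN⟩ := (hqt.eventually_gt_atTop (C / (δ / 28))).exists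
    refine ⟨N, ?_⟩
    have e1 : e N * Real.sqrt ((N + 1 : ℕ) : ℝ) / 4 = δ / 28 * q N := by
      have e2 : q N * q N = Real.sqrt ((N : ℝ) + 1) := Real.mul_self_sqrt (Real.sqrt_nonneg _)
      have e3 : q N ≠ 0 := by linarith [hq1 N]
      push_cast
      rw [← e2]
      simp only [he']
      field_simp
      ring
    rw [e1]
    rw [div_lt_iff₀ (by positivity)] at hN
    linarith
  obtain ⟨A, hA1, hA2⟩ := asm T R U K ε hε b Mn (fun N => e N * Real.sqrt ((N + 1 : ℕ) : ℝ) / 4) kap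
    hb0 hbt hb1 h1 h2 h3 h4 h5 h6 h7 (fun N => (hk3 N).trans (by linarith)) hkt
    (fun N n => h9 N n) hRb hpoly hlarge (fun N H' _ _ _ C' A B hC hn => h11 N H' C' A B hC hn)
  refine ⟨lp H 2, inferInstance, inferInstance, inferInstance, A, ⟨⟨hA1.cls.c11,
    hA1.cls.pow_le, ?_⟩, hA1.sep, hA1.pert, hA1.spec, ?_, hA1.poly⟩, hA2⟩
  · filter_upwards [hA1.cls.low] with n hn x
    exact (mul_le_mul_of_nonneg_right (hcb n) (norm_nonneg _)).trans (hn x)
  · intro n x
    refine le_trans (mul_le_mul_of_nonneg_right ?_ (norm_nonneg _)) (hA1.low_all n x)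
    exact min_le_min le_rfl (hcb n)

end Pool.Agent.Work.MP_ebd05c_an.H
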