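import Pool.Agent.Work.MP_ebd05c_an.H.WOp

set_option autoImplicit false

open scoped BigOperators ENNReal Topology ComplexConjugate
open Finset Filter Polynomial

/-!
The diagonal part T0 and the unitary U.
Permutation of Bool x Z: (false, s) -> (false, s - 1), (true, t) -> (true, t + 1); weights
rho s / rho (s-1) resp. rho (t+1) / rho t, in [1 - kap, 1]. U is the same with weights 1 (norm
preserving and onto, so unitary). T - U has weights of modulus at most kap, equal to 0 outside a
finite set of indices: the ratio is 1 for s <= -M and for s >= 1 (both rho equal 1, both equal d).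
-/

namespace Pool.Agent.Work.MP_ebd05c_an.H

variable {E : Type} [NormedAddCommGroup E] [InnerProductSpace ℂ E] [FiniteDimensional ℂ E]
  [CompleteSpace E]

private def sg : (Bool × ℤ) ≃ (Bool × ℤ) where
  toFun j := if j.1 then (j.1, j.2 + 1) else (j.1, j.2 - 1)
  invFun j := if j.1 then (j.1, j.2 - 1) else (j.1, j.2 + 1)
  left_inv := by
    rintro ⟨b, s⟩
    cases b <;> simp
  right_inv := by
    rintro ⟨b, s⟩
    cases b <;> simp

private noncomputable def wt (rho : ℤ → ℝ) (j : Bool × ℤ) : ℝ :=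
  if j.1 then rho (j.2 + 1) / rho j.2 else rho j.2 / rho (j.2 - 1)

private theorem wt_le {rho : ℤ → ℝ} {M : ℕ} {d kap : ℝ} (h : IsRho rho M d kap) (hd : 0 < d)
    (j : Bool × ℤ) : wt rho j ≤ 1 := by
  have hp : ∀ s, 0 < rho s := fun s => hd.trans_le (h.low s)
  obtain ⟨b, s⟩ := j
  cases b
  · simp only [wt, Bool.false_eq_true, if_false]
    rw [div_le_one (hp _)]
    have := h.anti (s - 1)
    rwa [sub_add_cancel] at this
  · simp only [wt, if_true]
    rw [div_le_one (hp _)]
    exact h.anti s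

private theorem wt_ge {rho : ℤ → ℝ} {M : ℕ} {d kap : ℝ} (h : IsRho rho M d kap)
    (j : Bool × ℤ) : 1 - kap ≤ wt rho j := by
  obtain ⟨b, s⟩ := j
  cases b
  · simp only [wt, Bool.false_eq_true, if_false]
    have := h.slow (s - 1)
    rwa [sub_add_cancel] at this
  · simp only [wt, if_true]
    exact h.slow s

private theorem wt_nonneg {rho : ℤ → ℝ} {M : ℕ} {d kap : ℝ} (h : IsRho rho M d kap) (hd : 0 < d)
    (j : Bool × ℤ) : 0 ≤ wt rho j := by
  have hp : ∀ s, 0 < rho s := fun s => hd.trans_le (h.low s)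
  obtain ⟨b, s⟩ := j
  cases b
  · simp only [wt, Bool.false_eq_true, if_false]
    exact (div_pos (hp _) (hp _)).le
  · simp only [wt, if_true]
    exact (div_pos (hp _) (hp _)).le

private theorem wt_one {rho : ℤ → ℝ} {M : ℕ} {d kap : ℝ} (h : IsRho rho M d kap) (hd : 0 < d)
    (j : Bool × ℤ) (hj : j.2 < -(M : ℤ) ∨ 0 < j.2) : wt rho j = 1 := by
  obtain ⟨b, s⟩ := j
  simp only at hj
  cases b
  · simp only [wt, Bool.false_eq_true, if_false]
    rcases hj with hj | hj
    · rw [h.one s (by omega), h.one (s - 1) (by omega), div_one]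
    · rw [h.const s (by omega), h.const (s - 1) (by omega), div_self hd.ne']
  · simp only [wt, if_true]
    rcases hj with hj | hj
    · rw [h.one s (by omega), h.one (s + 1) (by omega), div_one]
    · rw [h.const s (by omega), h.const (s + 1) (by omega), div_self hd.ne']

private theorem norm_smul_id (c : ℝ) (C : ℝ) (hc : |c| ≤ C) :
    ‖(c : ℂ) • (ContinuousLinearMap.id ℂ E)‖ ≤ C := by
  refine ContinuousLinearMap.opNorm_le_bound _ ((abs_nonneg c).trans hc) fun x => ?_
  rw [ContinuousLinearMap.smul_apply, norm_smul, Complex.norm_real, Real.norm_eq_abs]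
  exact mul_le_mul_of_nonneg_right hc (norm_nonneg x)

theorem exists_T0 (rho : ℤ → ℝ) (M : ℕ) (d kap : ℝ) (h : IsRho rho M d kap) (hd : 0 < d) :
    ∃ T U : LS (Bool × ℤ) E →L[ℂ] LS (Bool × ℤ) E, IsT0 rho T ∧ ‖T‖ ≤ 1 ∧
      U ∈ unitary (LS (Bool × ℤ) E →L[ℂ] LS (Bool × ℤ) E) ∧
      IsCompactOperator (T - U) ∧ ‖T - U‖ ≤ kap := by
  have hkap : 0 ≤ kap := by
    have h1 := wt_ge h (true, 1)
    have h2 := wt_le h hd (true, 1)
    linarith
  obtain ⟨T, hT, hTn⟩ := exists_wop (sg) (fun j => ((wt rho j : ℝ) : ℂ) •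
    (ContinuousLinearMap.id ℂ E)) 1 zero_le_one (fun j => norm_smul_id _ _ (by
      rw [abs_of_nonneg (wt_nonneg h hd j)]
      exact wt_le h hd j))
  obtain ⟨U, hU, hUn⟩ := exists_wop (sg) (fun _ => ContinuousLinearMap.id ℂ E) 1 zero_le_one
    (fun j => ContinuousLinearMap.norm_id_le)
  obtain ⟨V, hV, hVn⟩ := exists_wop (sg.symm) (fun _ => ContinuousLinearMap.id ℂ E) 1 zero_le_one
    (fun j => ContinuousLinearMap.norm_id_le)
  obtain ⟨R, hR, hRn⟩ := exists_wop (sg) (fun j => ((wt rho j - 1 : ℝ) : ℂ) •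
    (ContinuousLinearMap.id ℂ E)) kap hkap (fun j => norm_smul_id _ _ (by
      have h1 := wt_ge h j
      have h2 := wt_le h hd j
      rw [abs_le]
      constructor <;> linarith))
  have hTU : T - U = R := by
    ext x j
    rw [hR]
    have e1 : ((T - U) x : Bool × ℤ → E) j = (T x : Bool × ℤ → E) j - (U x : Bool × ℤ → E) j := rfl
    rw [e1, hT, hU]
    simp only [ContinuousLinearMap.smul_apply, ContinuousLinearMap.id_apply]
    push_cast
    rw [sub_smul, one_smul]
  have hUV : U * V = 1 := by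
    ext x j
    have e1 : ((U * V) x : Bool × ℤ → E) j = (U (V x) : Bool × ℤ → E) j := rfl
    rw [e1, hU, ContinuousLinearMap.id_apply, hV, ContinuousLinearMap.id_apply,
      Equiv.symm_apply_apply]
    rfl
  have hVU : V * U = 1 := by
    ext x j
    have e1 : ((V * U) x : Bool × ℤ → E) j = (V (U x) : Bool × ℤ → E) j := rfl
    rw [e1, hV, ContinuousLinearMap.id_apply, hU, ContinuousLinearMap.id_apply,
      Equiv.apply_symm_apply]
    rfl
  have hnorm : ∀ x, ‖U x‖ = ‖x‖ := by
    intro x
    apply le_antisymm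
    · have := U.le_opNorm x
      nlinarith [norm_nonneg x]
    · have e1 : x = V (U x) := by
        have := congrArg (fun S : LS (Bool × ℤ) E →L[ℂ] LS (Bool × ℤ) E => S x) hVU
        exact this.symm
      have e2 := V.le_opNorm (U x)
      rw [← e1] at e2
      nlinarith [norm_nonneg (U x)]
  refine ⟨T, U, ⟨?_, ?_⟩, hTn, ?_, ?_, ?_⟩
  · intro x s
    rw [hT]
    simp [sg, wt]
  · intro x t
    rw [hT]
    simp [sg, wt]
  · have h1 : star U * U = 1 := by
      rw [ContinuousLinearMap.star_eq_adjoint]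
      exact (ContinuousLinearMap.norm_map_iff_adjoint_comp_self U).1 hnorm
    have h2 : star U = V := by
      calc star U = star U * (U * V) := by rw [hUV, mul_one]
        _ = (star U * U) * V := by rw [mul_assoc]
        _ = V := by rw [h1, one_mul]
    rw [Unitary.mem_iff]
    exact ⟨h1, by rw [h2, hUV]⟩
  · rw [hTU]
    refine wop_compact R (Finset.univ ×ˢ Finset.Icc (-(M : ℤ)) 0) fun x j hj => ?_
    rw [hR]
    have h1 : j.2 < -(M : ℤ) ∨ 0 < j.2 := by
      by_contra hcon
      push Not at hcon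
      exact hj (Finset.mem_product.2 ⟨Finset.mem_univ _, Finset.mem_Icc.2 ⟨hcon.1, hcon.2⟩⟩)
    rw [wt_one h hd j h1]
    simp
  · rw [hTU]
    exact hRn

end Pool.Agent.Work.MP_ebd05c_an.H
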