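import Pool.Agent.Work.MP_ebd05c_an.H.YnF
import Pool.Agent.Work.MP_ebd05c_an.H.Dens

set_option autoImplicit false

open scoped BigOperators ENNReal Topology ComplexConjugate
open Finset Filter Polynomial

/-!
The form of Y_p = sum_n p_n Yn T X n on finitely supported vectors is frm.
Proof: (Y_p x)(false, s) = sum_n p_n sum_k gg rho rho C_k x(true, n - lam - s); for
x = sum of single i (v i) the value x(true, t) is v(true,t) if t in F and 0 otherwise; reorganise
the sum over n as a sum over t in F with n = lam + s + t (cz p is 0 for negative index and beyond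
the degree). The inner product is conjugate linear in the first slot, rho is real.
-/

namespace Pool.Agent.Work.MP_ebd05c_an.H

variable {E : Type} [NormedAddCommGroup E] [InnerProductSpace ℂ E]

/-- values of a finitely supported vector -/
private theorem pair_coe (F : Finset ℤ) (v : Bool × ℤ → E) (b : Bool) (t : ℤ) :
    ((∑ i ∈ (univ : Finset Bool) ×ˢ F, lp.single 2 i (v i) : LS (Bool × ℤ) E) : Bool × ℤ → E) (b, t) =
      if t ∈ F then v (b, t) else 0 := by
  rw [lp.coeFn_sum, Finset.sum_apply]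
  simp only [lp.single_apply]
  rw [Finset.sum_pi_single]
  simp

private theorem pair_sum_coe (S : Finset ℕ) (f : ℕ → LS (Bool × ℤ) E) (j : Bool × ℤ) :
    ((∑ n ∈ S, f n : LS (Bool × ℤ) E) : Bool × ℤ → E) j = ∑ n ∈ S, (f n : Bool × ℤ → E) j := by
  rw [lp.coeFn_sum, Finset.sum_apply]

private theorem pair_reorg (p : ℂ[X]) (F : Finset ℤ) (m : ℤ) (Φ : ℤ → ℂ) :
    ∑ n ∈ range (p.natDegree + 1), p.coeff n * (if (n : ℤ) - m ∈ F then Φ ((n : ℤ) - m) else 0) =
      ∑ t ∈ F, cz p (m + t) * Φ t := by
  have h1 : ∀ n ∈ range (p.natDegree + 1),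
      p.coeff n * (if (n : ℤ) - m ∈ F then Φ ((n : ℤ) - m) else 0) =
        ∑ t ∈ F, if (n : ℤ) - m = t then p.coeff n * Φ t else 0 := by
    intro n _
    rw [Finset.sum_ite_eq]
    split_ifs <;> simp
  have h2 : ∀ t ∈ F, cz p (m + t) * Φ t =
      ∑ n ∈ range (p.natDegree + 1), if (n : ℤ) - m = t then p.coeff n * Φ t else 0 := by
    intro t _
    unfold cz
    split_ifs with h
    · obtain ⟨n₀, hn₀⟩ := Int.eq_ofNat_of_zero_le h
      rw [hn₀]
      simp only [Int.toNat_natCast]
      have h3 : ∀ n : ℕ, ((n : ℤ) - m = t) ↔ (n₀ = n) := by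
        intro n
        constructor
        · intro h4
          have : (n : ℤ) = n₀ := by linarith
          exact_mod_cast this.symm
        · intro h4
          subst h4
          linarith
      simp only [h3]
      rw [Finset.sum_ite_eq]
      split_ifs with h5
      · rfl
      · have h6 : p.coeff n₀ = 0 := by
          apply Polynomial.coeff_eq_zero_of_natDegree_lt
          simp only [Finset.mem_range, not_lt] at h5
          omega
        rw [h6, zero_mul]
    · rw [zero_mul]
      symm
      apply Finset.sum_eq_zero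
      intro n _
      rw [if_neg]
      intro h4
      apply h
      have : (m + t : ℤ) = n := by linarith
      rw [this]
      positivity
  rw [Finset.sum_congr rfl h1, Finset.sum_congr rfl h2, Finset.sum_comm]

theorem pair_eq {rho : ℤ → ℝ} (hpos : ∀ s, 0 < rho s) {r N : ℕ} {C : Fin N → (E →L[ℂ] E)}
    {T X : LS (Bool × ℤ) E →L[ℂ] LS (Bool × ℤ) E} (hT : IsT0 rho T) (hX : IsX rho r C X)
    (p : ℂ[X]) (F : Finset ℤ) (v w : Bool × ℤ → E) :
    inner ℂ (∑ i ∈ (univ : Finset Bool) ×ˢ F, lp.single 2 i (w i) : LS (Bool × ℤ) E)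
      ((∑ n ∈ range (p.natDegree + 1), p.coeff n • Yn T X n)
        (∑ i ∈ (univ : Finset Bool) ×ˢ F, lp.single 2 i (v i))) =
      frm r C p F (fun t => ((rho t : ℝ) : ℂ) • v (true, t))
        (fun s => ((rho s : ℝ) : ℂ) • w (false, s)) := by
  classical
  set V : LS (Bool × ℤ) E := ∑ i ∈ (univ : Finset Bool) ×ˢ F, lp.single 2 i (v i) with hV
  have hVt : ∀ t : ℤ, (V : Bool × ℤ → E) (true, t) = if t ∈ F then v (true, t) else 0 :=
    fun t => pair_coe F v true t
  have hA : ∀ j : Bool × ℤ, (((∑ n ∈ range (p.natDegree + 1), p.coeff n • Yn T X n) V :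
      LS (Bool × ℤ) E) : Bool × ℤ → E) j =
      ∑ n ∈ range (p.natDegree + 1), p.coeff n • (Yn T X n V : Bool × ℤ → E) j := by
    intro j
    rw [ContinuousLinearMap.sum_apply, pair_sum_coe]
    rfl
  rw [sum_inner]
  simp only [lp.inner_single_left]
  rw [Finset.sum_product]
  simp only [Fintype.sum_bool]
  have ht : ∀ t ∈ F, inner ℂ (w (true, t)) ((((∑ n ∈ range (p.natDegree + 1), p.coeff n • Yn T X n) V :
      LS (Bool × ℤ) E) : Bool × ℤ → E) (true, t)) = 0 := by
    intro t _
    rw [hA]
    simp only [(yn_apply hpos hT hX _ V).2, smul_zero, Finset.sum_const_zero, inner_zero_right]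
  rw [Finset.sum_eq_zero ht, zero_add]
  unfold frm
  rw [Finset.sum_comm]
  apply Finset.sum_congr rfl
  intro s _
  rw [hA]
  simp only [(yn_apply hpos hT hX _ V).1 s, Finset.smul_sum]
  rw [Finset.sum_comm, inner_sum]
  apply Finset.sum_congr rfl
  intro k _
  rw [inner_sum]
  have h1 := pair_reorg p F ((lam r k : ℤ) + s)
    (fun t => ((gg (lam r k) s t : ℝ) : ℂ) * ((rho s : ℝ) : ℂ) * ((rho t : ℝ) : ℂ) *
      inner ℂ (w (false, s)) (C k (v (true, t))))
  have h2 : ∀ n ∈ range (p.natDegree + 1),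
      inner ℂ (w (false, s)) (p.coeff n • (((gg (lam r k) s (n - lam r k - s) * rho s *
        rho (n - lam r k - s) : ℝ) : ℂ) • C k ((V : Bool × ℤ → E) (true, n - lam r k - s)))) =
      p.coeff n * (if (n : ℤ) - ((lam r k : ℤ) + s) ∈ F then
        (fun t => ((gg (lam r k) s t : ℝ) : ℂ) * ((rho s : ℝ) : ℂ) * ((rho t : ℝ) : ℂ) *
      inner ℂ (w (false, s)) (C k (v (true, t)))) ((n : ℤ) - ((lam r k : ℤ) + s)) else 0) := by
    intro n _
    have h3 : (n : ℤ) - ((lam r k : ℤ) + s) = n - lam r k - s := by ring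
    rw [h3, hVt, inner_smul_right]
    split_ifs with h4
    · rw [inner_smul_right]
      push_cast
      ring
    · simp
  rw [Finset.sum_congr rfl h2, h1]
  apply Finset.sum_congr rfl
  intro t _
  rw [map_smul, inner_smul_left, inner_smul_right]
  simp only [Complex.conj_ofReal]
  ring

end Pool.Agent.Work.MP_ebd05c_an.H
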