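import Pool.Agent.Work.MP_ebd05c_an.H.YpB
import Pool.Agent.Work.MP_ebd05c_an.H.VN

set_option autoImplicit false

open scoped BigOperators ENNReal Topology ComplexConjugate
open Finset Filter Polynomial

/-!
Powers and polynomials of T + e X.
pow_eq: X T^m X = 0 (T0_pow: T keeps the two components, X maps true to false and kills false),
so X * Yn = 0, induction. poly_eq: aeval as a sum over range (natDegree + 1).
-/

namespace Pool.Agent.Work.MP_ebd05c_an.H

variable {E : Type} [NormedAddCommGroup E] [InnerProductSpace ℂ E]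

private theorem X_mul_Yn {rho : ℤ → ℝ} (hpos : ∀ s, 0 < rho s) {r N : ℕ} {C : Fin N → (E →L[ℂ] E)}
    {T X : LS (Bool × ℤ) E →L[ℂ] LS (Bool × ℤ) E} (hT : IsT0 rho T) (hX : IsX rho r C X)
    (n : ℕ) : X * Yn T X n = 0 := by
  ext1 x
  have h0 := (yn_apply hpos hT hX n x).2
  apply lp.ext
  funext i
  obtain ⟨b, s⟩ := i
  change (X (Yn T X n x) : Bool × ℤ → E) (b, s) = 0
  cases b with
  | false =>
    rw [hX.1]
    apply Finset.sum_eq_zero
    intro k _
    rw [h0, map_zero, smul_zero]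
  | true => exact hX.2 _ _

theorem pow_eq {rho : ℤ → ℝ} (hpos : ∀ s, 0 < rho s) {r N : ℕ} {C : Fin N → (E →L[ℂ] E)}
    {T X : LS (Bool × ℤ) E →L[ℂ] LS (Bool × ℤ) E} (hT : IsT0 rho T) (hX : IsX rho r C X)
    (e : ℂ) (n : ℕ) : (T + e • X) ^ n = T ^ n + e • Yn T X n := by
  induction n with
  | zero => simp [Yn]
  | succ n ih =>
    rw [pow_succ', ih, Yn, add_mul, mul_add, mul_add, smul_mul_assoc, smul_mul_assoc,
      mul_smul_comm, mul_smul_comm, X_mul_Yn hpos hT hX n, smul_zero, smul_zero, add_zero,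
      pow_succ', smul_add, add_assoc]

theorem poly_eq {rho : ℤ → ℝ} (hpos : ∀ s, 0 < rho s) {r N : ℕ} {C : Fin N → (E →L[ℂ] E)}
    {T X : LS (Bool × ℤ) E →L[ℂ] LS (Bool × ℤ) E} (hT : IsT0 rho T) (hX : IsX rho r C X)
    (e : ℂ) (p : ℂ[X]) : aeval (T + e • X) p =
      aeval T p + e • ∑ n ∈ range (p.natDegree + 1), p.coeff n • Yn T X n := by
  rw [aeval_eq_sum_range, aeval_eq_sum_range, Finset.smul_sum, ← Finset.sum_add_distrib]
  apply Finset.sum_congr rfl
  intro n _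
  rw [pow_eq hpos hT hX, smul_add, smul_comm]

theorem poly_bound [CompleteSpace E] {rho : ℤ → ℝ} {M : ℕ} {d kap : ℝ} (h : IsRho rho M d kap)
    (hd : 0 < d) (hd1 : d ≤ 1) {r N : ℕ} {C : Fin N → (E →L[ℂ] E)} (hC : CAR C)
    {T X : LS (Bool × ℤ) E →L[ℂ] LS (Bool × ℤ) E} (hT : IsT0 rho T) (hT1 : ‖T‖ ≤ 1)
    (hX : IsX rho r C X) (e : ℝ) (he : 0 ≤ e) (p : ℂ[X]) (hp : Bd p) :
    ‖aeval (T + (e : ℂ) • X) p‖ ≤ 1 + e * (3 + 4 * N * d) := by
  have hpos : ∀ s, 0 < rho s := fun s => hd.trans_le (h.low s)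
  rw [poly_eq hpos hT hX]
  refine (norm_add_le _ _).trans (add_le_add (vn_poly T hT1 p hp) ?_)
  rw [norm_smul, Complex.norm_real, Real.norm_eq_abs, abs_of_nonneg he]
  exact mul_le_mul_of_nonneg_left (yp_bound h hd hd1 hC hT hX p hp) he

end Pool.Agent.Work.MP_ebd05c_an.H
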