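import Pool.Agent.Work.MP_ebd05c_an.H.RU

set_option autoImplicit false

open scoped BigOperators ENNReal Topology ComplexConjugate
open Finset Filter Polynomial

/-!
Parseval for polynomials, and multiplication by a polynomial bounded by one.
Proof: parseval_poly is parseval with F = the integers 0, ..., M-1. coeff_le: the coefficient is
the average of f(om) om^(-m) for M > natDegree (or from parseval_poly: the squares of the
coefficients add up to at most c^2). sqn_mul_le: take M large for both polynomials.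
wmul_le: for t = s^2 use sqn_mul_le for the polynomials p.comp (C s * X), f.comp (C s * X).
-/

namespace Pool.Agent.Work.MP_ebd05c_an.H

theorem sqn_nonneg (f : ℂ[X]) : 0 ≤ sqn f :=
  Finset.sum_nonneg fun _ _ => sq_nonneg _

theorem sqn_eq (f : ℂ[X]) {K : ℕ} (hK : f.natDegree < K) :
    ∑ m ∈ range K, ‖f.coeff m‖ ^ 2 = sqn f := by
  unfold sqn
  symm
  apply Finset.sum_subset
  · intro m hm
    rw [Finset.mem_range] at hm ⊢
    omega
  · intro m _ hm
    rw [Finset.mem_range, not_lt] at hm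
    rw [Polynomial.coeff_eq_zero_of_natDegree_lt (by omega), norm_zero]
    norm_num

theorem sum_le_sqn (f : ℂ[X]) (K : ℕ) : ∑ m ∈ range K, ‖f.coeff m‖ ^ 2 ≤ sqn f := by
  rw [← sqn_eq f (K := max K (f.natDegree + 1)) (lt_of_lt_of_le (Nat.lt_succ_self _)
    (le_max_right _ _))]
  apply Finset.sum_le_sum_of_subset_of_nonneg
  · intro m hm
    rw [Finset.mem_range] at hm ⊢
    exact lt_of_lt_of_le hm (le_max_left _ _)
  · exact fun _ _ _ => sq_nonneg _

theorem parseval_poly (f : ℂ[X]) {M : ℕ} (hM : f.natDegree < M) :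
    ∑ j ∈ range M, ‖f.eval (om M j)‖ ^ 2 = M * sqn f := by
  have hM0 : 0 < M := by omega
  have h := parseval (E := ℂ) hM0 ((range M).map Nat.castEmbedding) (by
    intro s hs t ht hd
    rw [Finset.mem_map] at hs ht
    obtain ⟨a, ha, rfl⟩ := hs
    obtain ⟨b, hb, rfl⟩ := ht
    rw [Finset.mem_range] at ha hb
    change (M : ℤ) ∣ (a : ℤ) - (b : ℤ) at hd
    change (a : ℤ) = (b : ℤ)
    obtain ⟨k, hk⟩ := hd
    have h1 : k < 1 := by
      by_contra hcon
      push Not at hcon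
      nlinarith
    have h2 : -1 < k := by
      by_contra hcon
      push Not at hcon
      nlinarith
    have h3 : k = 0 := by omega
    rw [h3, mul_zero] at hk
    omega) (fun s => f.coeff s.toNat)
  rw [Finset.sum_map] at h
  rw [← sqn_eq f hM]
  have h4 : ∀ j, ∑ s ∈ (range M).map Nat.castEmbedding,
      ((om M j) ^ (s : ℤ)) • f.coeff s.toNat = f.eval (om M j) := by
    intro j
    rw [Finset.sum_map, Polynomial.eval_eq_sum_range' hM]
    apply Finset.sum_congr rfl
    intro m _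
    change (om M j) ^ ((m : ℤ)) • f.coeff ((m : ℤ).toNat) = _
    rw [Int.toNat_natCast, zpow_natCast, smul_eq_mul, mul_comm]
  simp only [h4] at h
  rw [h]
  rfl

theorem coeff_le (f : ℂ[X]) (c : ℝ) (h : ∀ z : ℂ, ‖z‖ = 1 → ‖f.eval z‖ ≤ c) (m : ℕ) :
    ‖f.coeff m‖ ≤ c := by
  have hc : 0 ≤ c := le_trans (norm_nonneg _) (h 1 norm_one)
  have hM := parseval_poly f (M := f.natDegree + 1) (Nat.lt_succ_self _)
  have h1 : ∑ j ∈ range (f.natDegree + 1), ‖f.eval (om (f.natDegree + 1) j)‖ ^ 2 ≤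
      ∑ j ∈ range (f.natDegree + 1), c ^ 2 := by
    apply Finset.sum_le_sum
    intro j _
    exact pow_le_pow_left₀ (norm_nonneg _) (h _ (om_norm _ _)) 2
  rw [hM, Finset.sum_const, Finset.card_range, nsmul_eq_mul] at h1
  have hpos : (0 : ℝ) < ((f.natDegree + 1 : ℕ) : ℝ) := by
    have : 0 < f.natDegree + 1 := Nat.succ_pos _
    exact_mod_cast this
  have h2 : sqn f ≤ c ^ 2 := le_of_mul_le_mul_left h1 hpos
  have h3 : ‖f.coeff m‖ ^ 2 ≤ sqn f := by
    refine le_trans ?_ (sum_le_sqn f (m + 1))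
    exact Finset.single_le_sum (f := fun i => ‖f.coeff i‖ ^ 2) (fun _ _ => sq_nonneg _)
      (Finset.mem_range.2 (Nat.lt_succ_self m))
  exact le_of_sq_le_sq (h3.trans h2) hc

theorem sqn_mul_le (p f : ℂ[X]) (hp : ∀ z : ℂ, ‖z‖ = 1 → ‖p.eval z‖ ≤ 1) :
    sqn (p * f) ≤ sqn f := by
  obtain ⟨M, hM⟩ : ∃ M, M = max (p * f).natDegree f.natDegree + 1 := ⟨_, rfl⟩
  have h1 : (p * f).natDegree < M := by
    rw [hM]
    exact Nat.lt_succ_of_le (le_max_left _ _)
  have h2 : f.natDegree < M := by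
    rw [hM]
    exact Nat.lt_succ_of_le (le_max_right _ _)
  have hpos : (0 : ℝ) < (M : ℝ) := by
    have : 0 < M := by omega
    exact_mod_cast this
  have h3 : (M : ℝ) * sqn (p * f) ≤ M * sqn f := by
    rw [← parseval_poly (p * f) h1, ← parseval_poly f h2]
    apply Finset.sum_le_sum
    intro j _
    apply pow_le_pow_left₀ (norm_nonneg _)
    rw [Polynomial.eval_mul, norm_mul]
    calc ‖p.eval (om M j)‖ * ‖f.eval (om M j)‖ ≤ 1 * ‖f.eval (om M j)‖ :=
          mul_le_mul_of_nonneg_right (hp _ (om_norm _ _)) (norm_nonneg _)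
      _ = ‖f.eval (om M j)‖ := one_mul _
  exact le_of_mul_le_mul_left h3 hpos

theorem wmul_le (p f : ℂ[X]) (hp : Bd p) (t : ℝ) (ht0 : 0 ≤ t) (ht1 : t ≤ 1) (K : ℕ) :
    ∑ m ∈ range K, ‖(p * f).coeff m‖ ^ 2 * t ^ m ≤
      ∑ m ∈ range (f.natDegree + 1), ‖f.coeff m‖ ^ 2 * t ^ m := by
  obtain ⟨s, hs⟩ : ∃ s : ℝ, s = Real.sqrt t := ⟨_, rfl⟩
  have hs0 : 0 ≤ s := by
    rw [hs]
    exact Real.sqrt_nonneg t
  have hs1 : s ≤ 1 := by
    rw [hs]
    exact Real.sqrt_le_one.2 ht1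
  have hst : s ^ 2 = t := by
    rw [hs]
    exact Real.sq_sqrt ht0
  have hco : ∀ (q : ℂ[X]) (m : ℕ),
      ‖(q.comp (C (s : ℂ) * X)).coeff m‖ ^ 2 = ‖q.coeff m‖ ^ 2 * t ^ m := by
    intro q m
    rw [Polynomial.comp_C_mul_X_coeff, norm_mul, norm_pow, Complex.norm_real, Real.norm_eq_abs,
      abs_of_nonneg hs0, mul_pow, ← hst]
    ring
  have h1 : ∑ m ∈ range K, ‖(p * f).coeff m‖ ^ 2 * t ^ m ≤ sqn ((p * f).comp (C (s : ℂ) * X)) := by
    refine le_trans (le_of_eq ?_) (sum_le_sqn _ K)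
    exact Finset.sum_congr rfl fun m _ => (hco _ m).symm
  have h2 : sqn ((p * f).comp (C (s : ℂ) * X)) ≤ sqn (f.comp (C (s : ℂ) * X)) := by
    rw [Polynomial.mul_comp]
    apply sqn_mul_le
    intro z hz
    rw [Polynomial.eval_comp, Polynomial.eval_mul, Polynomial.eval_C, Polynomial.eval_X]
    apply hp
    rw [norm_mul, hz, mul_one, Complex.norm_real, Real.norm_eq_abs, abs_of_nonneg hs0]
    exact hs1
  have h3 : sqn (f.comp (C (s : ℂ) * X)) ≤
      ∑ m ∈ range (f.natDegree + 1), ‖f.coeff m‖ ^ 2 * t ^ m := by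
    have h4 : (f.comp (C (s : ℂ) * X)).natDegree < f.natDegree + 1 := by
      rw [Nat.lt_succ_iff, Polynomial.natDegree_le_iff_coeff_eq_zero]
      intro N hN
      rw [Polynomial.comp_C_mul_X_coeff, Polynomial.coeff_eq_zero_of_natDegree_lt hN, zero_mul]
    rw [← sqn_eq _ h4]
    exact le_of_eq (Finset.sum_congr rfl fun m _ => hco _ m)
  exact h1.trans (h2.trans h3)

end Pool.Agent.Work.MP_ebd05c_an.H
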