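import Pool.Agent.Work.MP_ebd05c_an.H.Defs

set_option autoImplicit false

open scoped BigOperators ENNReal Topology ComplexConjugate
open Finset Filter Polynomial

/-!
Real parts of polynomials are dense in the real continuous functions on the circle.
Proof: Mathlib span_fourier_closure_eq_top (trigonometric polynomials are dense in
C(AddCircle T, C)); for a trigonometric polynomial T(z) = sum_n c_n z^n within eta of f one has
|Re T - f| <= eta on the circle and Re (c z^(-n)) = Re (conj c z^n) for |z| = 1.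
-/

namespace Pool.Agent.Work.MP_ebd05c_an.H

private theorem aux_span (T : C(AddCircle (2 * Real.pi), ℂ))
    (hT : T ∈ Submodule.span ℂ (Set.range (@fourier (2 * Real.pi)))) :
    ∀ c : ℂ, ∃ Q : ℂ[X], ∀ t : AddCircle (2 * Real.pi),
      (Q.eval (AddCircle.toCircle t : ℂ)).re = (c * T t).re := by
  induction hT using Submodule.span_induction with
  | mem x hx =>
    obtain ⟨n, rfl⟩ := hx
    intro c
    obtain ⟨m, rfl | rfl⟩ := n.eq_nat_or_neg
    · refine ⟨C c * X ^ m, fun t => ?_⟩
      simp [fourier_apply, AddCircle.toCircle_nsmul]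
    · refine ⟨C (conj c) * X ^ m, fun t => ?_⟩
      have h1 : ((AddCircle.toCircle ((-(m : ℤ)) • t) : Circle) : ℂ)
          = conj ((AddCircle.toCircle t : ℂ) ^ m) := by
        rw [neg_smul, AddCircle.toCircle_neg, natCast_zsmul, AddCircle.toCircle_nsmul,
          Circle.coe_inv_eq_conj, Circle.coe_pow]
      rw [fourier_apply, h1]
      simp only [eval_mul, eval_C, eval_pow, eval_X]
      rw [← Complex.conj_re, map_mul, Complex.conj_conj]
  | zero => intro c; exact ⟨0, fun t => by simp⟩
  | add x y _ _ hx hy =>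
    intro c
    obtain ⟨Q, hQ⟩ := hx c
    obtain ⟨Q', hQ'⟩ := hy c
    refine ⟨Q + Q', fun t => ?_⟩
    rw [eval_add, Complex.add_re, hQ, hQ', ContinuousMap.add_apply, mul_add, Complex.add_re]
  | smul a x _ hx =>
    intro c
    obtain ⟨Q, hQ⟩ := hx (c * a)
    refine ⟨Q, fun t => ?_⟩
    rw [hQ, ContinuousMap.smul_apply, smul_eq_mul, mul_assoc]

theorem exists_re (f : ℂ → ℝ) (hf : ContinuousOn f (Metric.sphere 0 1)) (eta : ℝ)
    (he : 0 < eta) : ∃ Q : ℂ[X], ∀ z : ℂ, ‖z‖ = 1 → |(Q.eval z).re - f z| ≤ eta := by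
  have : Fact (0 < 2 * Real.pi) := ⟨by positivity⟩
  have hc : Continuous fun t : AddCircle (2 * Real.pi) => ((f (AddCircle.toCircle t : ℂ) : ℝ) : ℂ) := by
    refine Complex.continuous_ofReal.comp ?_
    refine hf.comp_continuous (continuous_subtype_val.comp AddCircle.continuous_toCircle) ?_
    intro t
    simp
  let g : C(AddCircle (2 * Real.pi), ℂ) := ⟨_, hc⟩
  have hg : g ∈ (Submodule.span ℂ (Set.range (@fourier (2 * Real.pi)))).topologicalClosure := by
    rw [span_fourier_closure_eq_top]; trivial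
  rw [← SetLike.mem_coe, Submodule.topologicalClosure_coe, Metric.mem_closure_iff] at hg
  obtain ⟨T, hT, hd⟩ := hg eta he
  obtain ⟨Q, hQ⟩ := aux_span T hT 1
  refine ⟨Q, fun z hz => ?_⟩
  let w : Circle := ⟨z, by simp [Submonoid.unitSphere, hz]⟩
  have h2pi : (2 * Real.pi) ≠ 0 := by positivity
  obtain ⟨t, ht⟩ := (AddCircle.homeomorphCircle h2pi).surjective w
  have ht' : ((AddCircle.toCircle t : Circle) : ℂ) = z := by
    rw [← AddCircle.homeomorphCircle_apply h2pi t, ht]
  have h1 := hQ t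
  rw [ht', one_mul] at h1
  rw [h1]
  have h2 : dist (g t) (T t) ≤ dist g T := ContinuousMap.dist_apply_le_dist t
  have h3 : g t = ((f z : ℝ) : ℂ) := by
    show ((f (AddCircle.toCircle t : ℂ) : ℝ) : ℂ) = _
    rw [ht']
  rw [h3, dist_eq_norm] at h2
  have h4 : |(((f z : ℝ) : ℂ) - T t).re| ≤ ‖((f z : ℝ) : ℂ) - T t‖ := Complex.abs_re_le_norm _
  rw [Complex.sub_re, Complex.ofReal_re, abs_sub_comm] at h4
  linarith

end Pool.Agent.Work.MP_ebd05c_an.H
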