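import Pool.Agent.Work.MP_ebd05c_an.H.Defs

set_option autoImplicit false

open scoped BigOperators ENNReal Topology ComplexConjugate
open Finset Filter Polynomial

/-!
A scalar matrix acts on vectors of any inner product space with the same norm.
Proof: the span of all v j, w i is finite dimensional, choose an orthonormal basis (e_a)
(stdOrthonormalBasis of the span); <w_i, v_j> = sum_a conj(<e_a,w_i>) <e_a,v_j>; apply hP to the
coordinate vectors for every a and Cauchy-Schwarz over a.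
-/

namespace Pool.Agent.Work.MP_ebd05c_an.H

theorem matrix_vec {G : Type*} [NormedAddCommGroup G] [InnerProductSpace ℂ G] {ι : Type}
    [Fintype ι] (P : ι → ι → ℂ) (M : ℝ) (hM : 0 ≤ M)
    (hP : ∀ ξ η : ι → ℂ, ‖∑ i, ∑ j, P i j * conj (η i) * ξ j‖ ≤
      M * Real.sqrt (∑ i, ‖ξ i‖ ^ 2) * Real.sqrt (∑ i, ‖η i‖ ^ 2)) (v w : ι → G) :
    ‖∑ i, ∑ j, P i j * inner ℂ (w i) (v j)‖ ≤
      M * Real.sqrt (∑ i, ‖v i‖ ^ 2) * Real.sqrt (∑ i, ‖w i‖ ^ 2) := by
  classical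
  let S : Submodule ℂ G := Submodule.span ℂ (Set.range v ∪ Set.range w)
  have hfin : FiniteDimensional ℂ S :=
    FiniteDimensional.span_of_finite ℂ ((Set.finite_range v).union (Set.finite_range w))
  let e := stdOrthonormalBasis ℂ S
  let v' : ι → S := fun j => ⟨v j, Submodule.subset_span (Or.inl ⟨j, rfl⟩)⟩
  let w' : ι → S := fun i => ⟨w i, Submodule.subset_span (Or.inr ⟨i, rfl⟩)⟩
  have h1 : ∀ i j, inner ℂ (w i) (v j) = ∑ a, conj (inner ℂ (e a) (w' i)) * inner ℂ (e a) (v' j) := by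
    intro i j
    have h2 : inner ℂ (w i) (v j) = inner ℂ (w' i) (v' j) := rfl
    rw [h2, ← e.sum_inner_mul_inner (w' i) (v' j)]
    apply Finset.sum_congr rfl
    intro a _
    rw [inner_conj_symm]
  have h3 : ∑ i, ∑ j, P i j * inner ℂ (w i) (v j) =
      ∑ a, ∑ i, ∑ j, P i j * conj (inner ℂ (e a) (w' i)) * inner ℂ (e a) (v' j) := by
    have h4 : ∀ i, ∑ j, P i j * inner ℂ (w i) (v j) =
        ∑ a, ∑ j, P i j * conj (inner ℂ (e a) (w' i)) * inner ℂ (e a) (v' j) := by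
      intro i
      rw [Finset.sum_comm]
      apply Finset.sum_congr rfl
      intro j _
      rw [h1, Finset.mul_sum]
      apply Finset.sum_congr rfl
      intro a _
      ring
    rw [Finset.sum_congr rfl (fun i _ => h4 i), Finset.sum_comm]
  have hv : ∑ a, ∑ i, ‖inner ℂ (e a) (v' i)‖ ^ 2 = ∑ i, ‖v i‖ ^ 2 := by
    rw [Finset.sum_comm]
    apply Finset.sum_congr rfl
    intro i _
    rw [e.sum_sq_norm_inner_right]
    rfl
  have hw : ∑ a, ∑ i, ‖inner ℂ (e a) (w' i)‖ ^ 2 = ∑ i, ‖w i‖ ^ 2 := by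
    rw [Finset.sum_comm]
    apply Finset.sum_congr rfl
    intro i _
    rw [e.sum_sq_norm_inner_right]
    rfl
  rw [h3]
  calc ‖∑ a, ∑ i, ∑ j, P i j * conj (inner ℂ (e a) (w' i)) * inner ℂ (e a) (v' j)‖
      ≤ ∑ a, ‖∑ i, ∑ j, P i j * conj (inner ℂ (e a) (w' i)) * inner ℂ (e a) (v' j)‖ := norm_sum_le _ _
    _ ≤ ∑ a, M * (Real.sqrt (∑ i, ‖inner ℂ (e a) (v' i)‖ ^ 2) *
          Real.sqrt (∑ i, ‖inner ℂ (e a) (w' i)‖ ^ 2)) := by
        apply Finset.sum_le_sum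
        intro a _
        have := hP (fun j => inner ℂ (e a) (v' j)) (fun i => inner ℂ (e a) (w' i))
        rw [mul_assoc] at this
        exact this
    _ = M * ∑ a, (Real.sqrt (∑ i, ‖inner ℂ (e a) (v' i)‖ ^ 2) *
          Real.sqrt (∑ i, ‖inner ℂ (e a) (w' i)‖ ^ 2)) := by rw [Finset.mul_sum]
    _ ≤ M * (Real.sqrt (∑ a, ∑ i, ‖inner ℂ (e a) (v' i)‖ ^ 2) *
          Real.sqrt (∑ a, ∑ i, ‖inner ℂ (e a) (w' i)‖ ^ 2)) := by
        apply mul_le_mul_of_nonneg_left _ hM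
        apply Real.sum_sqrt_mul_sqrt_le
        · intro a; positivity
        · intro a; positivity
    _ = M * Real.sqrt (∑ i, ‖v i‖ ^ 2) * Real.sqrt (∑ i, ‖w i‖ ^ 2) := by
        rw [hv, hw, mul_assoc]

end Pool.Agent.Work.MP_ebd05c_an.H
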