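import Pool.Agent.Work.MP_ebd05c_an.H.Pv

set_option autoImplicit false

open scoped BigOperators ENNReal Topology ComplexConjugate
open Finset Filter Polynomial

/-!
The weighted estimate (Littlewood-Paley step).
wt_one: (ph)' has coefficients (m+1) (ph)_(m+1).
wt_two: integrate wmul_le (for f = derivative h) against (1-t) dt on [0,1]:
  int t^m (1-t) dt = 1/((m+1)(m+2)), and 1/(m+1)^2 <= 2/((m+1)(m+2)),
  the coefficients of h' are (m+1) h_(m+1), (m+1)^2/((m+1)(m+2)) <= 1.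
wt: p' h = (ph)' - p h' and the triangle inequality in l2 (constants 1 and sqrt 2).
-/

namespace Pool.Agent.Work.MP_ebd05c_an.H

private theorem norm_der (f : ℂ[X]) (m : ℕ) :
    ‖(derivative f).coeff m‖ ^ 2 = ‖f.coeff (m + 1)‖ ^ 2 * ((m : ℝ) + 1) ^ 2 := by
  rw [coeff_derivative, norm_mul, mul_pow]
  congr 2
  have h1 : ((m : ℂ) + 1) = ((m + 1 : ℕ) : ℂ) := by
    push_cast
    ring
  rw [h1, Complex.norm_natCast]
  push_cast
  ring

private theorem shift_le (f : ℂ[X]) (K : ℕ) : ∑ m ∈ range K, ‖f.coeff (m + 1)‖ ^ 2 ≤ sqn f := by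
  have h1 := sum_le_sqn f (K + 1)
  rw [Finset.sum_range_succ'] at h1
  have h2 : (0 : ℝ) ≤ ‖f.coeff 0‖ ^ 2 := by positivity
  linarith

private theorem int_poly (a : ℕ → ℝ) (K : ℕ) :
    ∫ t in (0 : ℝ)..1, (∑ m ∈ range K, a m * t ^ m) * (1 - t) =
      ∑ m ∈ range K, a m / (((m : ℝ) + 1) * ((m : ℝ) + 2)) := by
  have h1 : ∀ t : ℝ, (∑ m ∈ range K, a m * t ^ m) * (1 - t) =
      ∑ m ∈ range K, a m * (t ^ m - t ^ (m + 1)) := by
    intro t
    rw [Finset.sum_mul]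
    refine Finset.sum_congr rfl fun m _ => ?_
    ring
  simp_rw [h1]
  rw [intervalIntegral.integral_finsetSum]
  · refine Finset.sum_congr rfl fun m _ => ?_
    rw [intervalIntegral.integral_const_mul, intervalIntegral.integral_sub, integral_pow,
      integral_pow]
    · have h3 : (m : ℝ) + 1 ≠ 0 := by positivity
      have h4 : (m : ℝ) + 2 ≠ 0 := by positivity
      have h5 : ((m + 1 : ℕ) : ℝ) + 1 = (m : ℝ) + 2 := by
        push_cast
        ring
      rw [h5]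
      simp only [one_pow, ne_eq, Nat.add_eq_zero_iff, one_ne_zero, and_false, not_false_eq_true,
        zero_pow, sub_zero]
      field_simp
      ring
    · exact (continuous_pow m).intervalIntegrable _ _
    · exact (continuous_pow (m + 1)).intervalIntegrable _ _
  · intro m _
    exact (continuous_const.mul ((continuous_pow m).sub
      (continuous_pow (m + 1)))).intervalIntegrable _ _

theorem wt_one (p h : ℂ[X]) (hp : Bd p) (K : ℕ) :
    ∑ m ∈ range K, ‖(derivative (p * h)).coeff m‖ ^ 2 / ((m : ℝ) + 1) ^ 2 ≤ sqn h := by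
  have h1 : ∑ m ∈ range K, ‖(derivative (p * h)).coeff m‖ ^ 2 / ((m : ℝ) + 1) ^ 2 =
      ∑ m ∈ range K, ‖(p * h).coeff (m + 1)‖ ^ 2 := by
    refine Finset.sum_congr rfl fun m _ => ?_
    rw [norm_der]
    have h3 : (m : ℝ) + 1 ≠ 0 := by positivity
    field_simp
  rw [h1]
  exact (shift_le _ K).trans (sqn_mul_le p h fun z hz => hp z hz.le)

theorem wt_two (p h : ℂ[X]) (hp : Bd p) (K : ℕ) :
    ∑ m ∈ range K, ‖(p * derivative h).coeff m‖ ^ 2 / ((m : ℝ) + 1) ^ 2 ≤ 2 * sqn h := by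
  set f := derivative h with hf
  have h1 : ∑ m ∈ range K, ‖(p * f).coeff m‖ ^ 2 / (((m : ℝ) + 1) * ((m : ℝ) + 2)) ≤
      ∑ m ∈ range (f.natDegree + 1), ‖f.coeff m‖ ^ 2 / (((m : ℝ) + 1) * ((m : ℝ) + 2)) := by
    rw [← int_poly (fun m => ‖(p * f).coeff m‖ ^ 2) K,
      ← int_poly (fun m => ‖f.coeff m‖ ^ 2) (f.natDegree + 1)]
    apply intervalIntegral.integral_mono_on zero_le_one
    · refine Continuous.intervalIntegrable ?_ _ _
      fun_prop
    · refine Continuous.intervalIntegrable ?_ _ _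
      fun_prop
    · intro t ht
      exact mul_le_mul_of_nonneg_right (wmul_le p f hp t ht.1 ht.2 K) (by linarith [ht.2])
  have h2 : ∑ m ∈ range (f.natDegree + 1), ‖f.coeff m‖ ^ 2 / (((m : ℝ) + 1) * ((m : ℝ) + 2)) ≤
      sqn h := by
    refine le_trans (Finset.sum_le_sum fun m _ => ?_) (shift_le h (f.natDegree + 1))
    rw [hf, norm_der, div_le_iff₀ (by positivity)]
    have h3 : (0 : ℝ) ≤ ‖h.coeff (m + 1)‖ ^ 2 := by positivity
    have h4 : (0 : ℝ) ≤ (m : ℝ) := by positivity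
    nlinarith
  have h3 : ∑ m ∈ range K, ‖(p * f).coeff m‖ ^ 2 / ((m : ℝ) + 1) ^ 2 ≤
      2 * ∑ m ∈ range K, ‖(p * f).coeff m‖ ^ 2 / (((m : ℝ) + 1) * ((m : ℝ) + 2)) := by
    rw [Finset.mul_sum]
    refine Finset.sum_le_sum fun m _ => ?_
    have h5 : (0 : ℝ) ≤ ‖(p * f).coeff m‖ ^ 2 := by positivity
    have h4 : (0 : ℝ) ≤ (m : ℝ) := by positivity
    rw [← mul_div_assoc, div_le_div_iff₀ (by positivity) (by positivity)]
    have h6 : ((m : ℝ) + 1) * ((m : ℝ) + 2) ≤ 2 * ((m : ℝ) + 1) ^ 2 := by nlinarith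
    calc ‖(p * f).coeff m‖ ^ 2 * (((m : ℝ) + 1) * ((m : ℝ) + 2)) ≤
          ‖(p * f).coeff m‖ ^ 2 * (2 * ((m : ℝ) + 1) ^ 2) := mul_le_mul_of_nonneg_left h6 h5
      _ = 2 * ‖(p * f).coeff m‖ ^ 2 * ((m : ℝ) + 1) ^ 2 := by ring
  linarith

private theorem minkowski (K : ℕ) (x y : ℕ → ℝ) (A B : ℝ) (hA : ∑ m ∈ range K, x m ^ 2 ≤ A)
    (hB : ∑ m ∈ range K, y m ^ 2 ≤ B) :
    ∑ m ∈ range K, (x m + y m) ^ 2 ≤ (Real.sqrt A + Real.sqrt B) ^ 2 := by
  have hA0 : 0 ≤ A := le_trans (Finset.sum_nonneg fun m _ => sq_nonneg _) hA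
  have hB0 : 0 ≤ B := le_trans (Finset.sum_nonneg fun m _ => sq_nonneg _) hB
  have h1 : ∑ m ∈ range K, (x m + y m) ^ 2 =
      ∑ m ∈ range K, x m ^ 2 + ∑ m ∈ range K, y m ^ 2 + 2 * ∑ m ∈ range K, x m * y m := by
    rw [Finset.mul_sum, ← Finset.sum_add_distrib, ← Finset.sum_add_distrib]
    refine Finset.sum_congr rfl fun m _ => ?_
    ring
  have h2 : ∑ m ∈ range K, x m * y m ≤ Real.sqrt A * Real.sqrt B := by
    refine (Real.sum_mul_le_sqrt_mul_sqrt _ _ _).trans ?_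
    exact mul_le_mul (Real.sqrt_le_sqrt hA) (Real.sqrt_le_sqrt hB) (Real.sqrt_nonneg _)
      (Real.sqrt_nonneg _)
  rw [h1, add_sq, Real.sq_sqrt hA0, Real.sq_sqrt hB0]
  linarith

theorem wt (p h : ℂ[X]) (hp : Bd p) (K : ℕ) :
    ∑ m ∈ range K, ‖(derivative p * h).coeff m‖ ^ 2 / ((m : ℝ) + 1) ^ 2 ≤
      (1 + Real.sqrt 2) ^ 2 * sqn h := by
  have h0 : 0 ≤ sqn h := sqn_nonneg h
  have h1 := minkowski K (fun m => ‖(derivative (p * h)).coeff m‖ / ((m : ℝ) + 1))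
    (fun m => ‖(p * derivative h).coeff m‖ / ((m : ℝ) + 1)) (sqn h) (2 * sqn h)
    (by
      simp only [div_pow]
      exact wt_one p h hp K)
    (by
      simp only [div_pow]
      exact wt_two p h hp K)
  have h2 : (Real.sqrt (sqn h) + Real.sqrt (2 * sqn h)) ^ 2 = (1 + Real.sqrt 2) ^ 2 * sqn h := by
    rw [Real.sqrt_mul (by norm_num : (0 : ℝ) ≤ 2)]
    have h3 : Real.sqrt (sqn h) + Real.sqrt 2 * Real.sqrt (sqn h) =
        (1 + Real.sqrt 2) * Real.sqrt (sqn h) := by ring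
    rw [h3, mul_pow, Real.sq_sqrt h0]
  rw [h2] at h1
  refine le_trans (Finset.sum_le_sum fun m _ => ?_) h1
  rw [← div_pow]
  have h4 : derivative p * h = derivative (p * h) - p * derivative h := by
    rw [derivative_mul]
    ring
  have h5 : (0 : ℝ) < (m : ℝ) + 1 := by positivity
  apply pow_le_pow_left₀ (by positivity)
  rw [← add_div]
  apply div_le_div_of_nonneg_right _ h5.le
  rw [h4, coeff_sub]
  exact norm_sub_le _ _

end Pool.Agent.Work.MP_ebd05c_an.H
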