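import Pool.Agent.Work.MP_ebd05c_an.H.Gg

set_option autoImplicit false

open scoped BigOperators ENNReal Topology ComplexConjugate
open Finset Filter Polynomial

/-!
Explicit formula for the powers of T0 and for Yn T0 X n.
By induction on n. For Yn: (T Yn_n x)(false,s) = rho s/rho (s-1) * rho (s-1) sum_k gg(s-1,t) rho t C_k x_t
with t = n - lam - (s-1) = (n+1) - lam - s, and (X T^n x)(false,s) = sum_k (GG s - GG (s-1)) rho s
rho(1-lam-s) C_k ((rho t/rho (1-lam-s)) x_t); add with gg_step. For n = 0: gg_edge.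
-/

namespace Pool.Agent.Work.MP_ebd05c_an.H

variable {E : Type} [NormedAddCommGroup E] [InnerProductSpace ℂ E]

theorem T0_pow {rho : ℤ → ℝ} (hpos : ∀ s, 0 < rho s) {T : LS (Bool × ℤ) E →L[ℂ] LS (Bool × ℤ) E}
    (hT : IsT0 rho T) (n : ℕ) (x : LS (Bool × ℤ) E) :
    (∀ s : ℤ, ((T ^ n) x : Bool × ℤ → E) (false, s) =
      ((rho s / rho (s - n) : ℝ) : ℂ) • (x : Bool × ℤ → E) (false, s - n)) ∧
    (∀ t : ℤ, ((T ^ n) x : Bool × ℤ → E) (true, t) =
      ((rho (t + n) / rho t : ℝ) : ℂ) • (x : Bool × ℤ → E) (true, t + n)) := by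
  induction n with
  | zero =>
    refine ⟨fun s => ?_, fun t => ?_⟩
    · have h1 : rho s ≠ 0 := (hpos s).ne'
      simp [div_self h1]
    · have h1 : rho t ≠ 0 := (hpos t).ne'
      simp [div_self h1]
  | succ n ih =>
    have hT1 : (T ^ (n + 1)) x = T ((T ^ n) x) := by
      rw [pow_succ']
      rfl
    refine ⟨fun s => ?_, fun t => ?_⟩
    · rw [hT1, hT.1, ih.1, smul_smul]
      have e1 : s - 1 - (n : ℤ) = s - ((n + 1 : ℕ) : ℤ) := by
        push_cast
        ring
      rw [e1]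
      congr 1
      rw [← Complex.ofReal_mul]
      congr 1
      have h1 : rho (s - 1) ≠ 0 := (hpos _).ne'
      have h2 : rho (s - ((n + 1 : ℕ) : ℤ)) ≠ 0 := (hpos _).ne'
      field_simp
    · rw [hT1, hT.2, ih.2, smul_smul]
      have e1 : t + 1 + (n : ℤ) = t + ((n + 1 : ℕ) : ℤ) := by
        push_cast
        ring
      rw [e1]
      congr 1
      rw [← Complex.ofReal_mul]
      congr 1
      have h1 : rho (t + 1) ≠ 0 := (hpos _).ne'
      have h2 : rho t ≠ 0 := (hpos _).ne'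
      field_simp

theorem yn_apply {rho : ℤ → ℝ} (hpos : ∀ s, 0 < rho s) {r N : ℕ} {C : Fin N → (E →L[ℂ] E)}
    {T X : LS (Bool × ℤ) E →L[ℂ] LS (Bool × ℤ) E} (hT : IsT0 rho T) (hX : IsX rho r C X) (n : ℕ)
    (x : LS (Bool × ℤ) E) :
    (∀ s : ℤ, (Yn T X n x : Bool × ℤ → E) (false, s) = ∑ k : Fin N,
      ((gg (lam r k) s (n - lam r k - s) * rho s * rho (n - lam r k - s) : ℝ) : ℂ) •
        C k ((x : Bool × ℤ → E) (true, n - lam r k - s))) ∧
    (∀ t : ℤ, (Yn T X n x : Bool × ℤ → E) (true, t) = 0) := by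
  induction n with
  | zero =>
    refine ⟨fun s => ?_, fun t => ?_⟩
    · have h0 : ∀ k : Fin N, gg (lam r k) s (((0 : ℕ) : ℤ) - lam r k - s) = 0 := by
        intro k
        apply gg_edge
        push_cast
        ring
      have h1 : (Yn T X 0) x = 0 := rfl
      rw [h1]
      symm
      apply Finset.sum_eq_zero
      intro k _
      rw [h0 k]
      simp
    · have h1 : (Yn T X 0) x = 0 := rfl
      rw [h1]
      rfl
  | succ n ih =>
    have hY : (Yn T X (n + 1)) x = T (Yn T X n x) + X ((T ^ n) x) := rfl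
    have hadd : ∀ (u v : LS (Bool × ℤ) E) (i : Bool × ℤ),
        ((u + v : LS (Bool × ℤ) E) : Bool × ℤ → E) i = (u : Bool × ℤ → E) i + (v : Bool × ℤ → E) i :=
      fun u v i => rfl
    refine ⟨fun s => ?_, fun t => ?_⟩
    · rw [hY, hadd, hT.1, hX.1, ih.1, Finset.smul_sum, ← Finset.sum_add_distrib]
      apply Finset.sum_congr rfl
      intro k _
      rw [(T0_pow hpos hT n x).2]
      have e1 : (n : ℤ) - (lam r k : ℤ) - (s - 1) = ((n + 1 : ℕ) : ℤ) - (lam r k : ℤ) - s := by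
        push_cast
        ring
      have e2 : 1 - (lam r k : ℤ) - s + (n : ℤ) = ((n + 1 : ℕ) : ℤ) - (lam r k : ℤ) - s := by
        push_cast
        ring
      rw [e1, e2]
      rw [ContinuousLinearMap.map_smul, smul_smul, smul_smul, ← add_smul]
      congr 1
      rw [← Complex.ofReal_mul, ← Complex.ofReal_mul, ← Complex.ofReal_add]
      congr 1
      have h3 := gg_step (lam r k) s (((n + 1 : ℕ) : ℤ) - (lam r k : ℤ) - s)
      have h4 : gg (lam r k) s (((n + 1 : ℕ) : ℤ) - (lam r k : ℤ) - s) =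
          gg (lam r k) (s - 1) (((n + 1 : ℕ) : ℤ) - (lam r k : ℤ) - s) +
            (GG (lam r k) s - GG (lam r k) (s - 1)) := by linarith
      rw [h4]
      have h1 : rho (s - 1) ≠ 0 := (hpos _).ne'
      have h2 : rho (1 - (lam r k : ℤ) - s) ≠ 0 := (hpos _).ne'
      field_simp
    · rw [hY, hadd, hT.2, hX.2, ih.2, smul_zero, add_zero]

end Pool.Agent.Work.MP_ebd05c_an.H
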