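import Pool.Agent.Work.MP_ebd05c_an.H.Pair
import Pool.Agent.Work.MP_ebd05c_an.H.Form

set_option autoImplicit false

open scoped BigOperators ENNReal Topology ComplexConjugate
open Finset Filter Polynomial

/-!
Bound of the corner.
-/

namespace Pool.Agent.Work.MP_ebd05c_an.H

variable {E : Type} [NormedAddCommGroup E] [InnerProductSpace ℂ E]

theorem yp_bound {rho : ℤ → ℝ} {M : ℕ} {d kap : ℝ} (h : IsRho rho M d kap) (hd : 0 < d)
    (hd1 : d ≤ 1) {r N : ℕ} {C : Fin N → (E →L[ℂ] E)} (hC : CAR C)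
    {T X : LS (Bool × ℤ) E →L[ℂ] LS (Bool × ℤ) E} (hT : IsT0 rho T) (hX : IsX rho r C X)
    (p : ℂ[X]) (hp : Bd p) :
    ‖∑ n ∈ range (p.natDegree + 1), p.coeff n • Yn T X n‖ ≤ 3 + 4 * N * d := by
  have hpos : ∀ s, 0 < rho s := fun s => lt_of_lt_of_le hd (h.low s)
  have hanti : Antitone rho := antitone_int_of_succ_le h.anti
  have h1 : ∀ s, rho s ≤ 1 := by
    intro s
    rw [← h.one (min s (-(M : ℤ))) (min_le_right _ _)]
    exact hanti (min_le_left _ _)
  have hc : (0 : ℝ) ≤ 3 + 4 * N * d := by positivity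
  apply norm_le_of_finite _ _ hc
  intro F v w
  rw [pair_eq hpos hT hX p F v w]
  refine (form_bound r p hp C hC rho (fun s => (hpos s).le) h1 d hd.le
    (fun s hs => (h.const s hs.le).le) F (fun t => v (true, t)) (fun s => w (false, s))).trans ?_
  have key : ∀ (b : Bool) (u : Bool × ℤ → E), ∑ i ∈ F, ‖u (b, i)‖ ^ 2 ≤
      ∑ i ∈ (univ : Finset Bool) ×ˢ F, ‖u i‖ ^ 2 := by
    intro b u
    rw [Finset.sum_product]
    exact Finset.single_le_sum (f := fun b => ∑ i ∈ F, ‖u (b, i)‖ ^ 2)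
      (fun b _ => Finset.sum_nonneg fun i _ => by positivity) (mem_univ b)
  gcongr
  · exact key true v
  · exact key false w

theorem yn_bound {rho : ℤ → ℝ} {M : ℕ} {d kap : ℝ} (h : IsRho rho M d kap) (hd : 0 < d)
    (hd1 : d ≤ 1) {r N : ℕ} {C : Fin N → (E →L[ℂ] E)} (hC : CAR C)
    {T X : LS (Bool × ℤ) E →L[ℂ] LS (Bool × ℤ) E} (hT : IsT0 rho T) (hX : IsX rho r C X)
    (n : ℕ) : ‖Yn T X n‖ ≤ 3 + 4 * N * d := by
  have hb : Bd (Polynomial.X ^ n : ℂ[X]) := by
    intro z hz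
    simp only [eval_pow, eval_X, norm_pow]
    exact pow_le_one₀ (norm_nonneg _) hz
  have h1 := yp_bound h hd hd1 hC hT hX (Polynomial.X ^ n) hb
  rw [natDegree_X_pow] at h1
  have h2 : ∑ m ∈ range (n + 1), (Polynomial.X ^ n : ℂ[X]).coeff m • Yn T X m = Yn T X n := by
    rw [Finset.sum_eq_single n]
    · simp
    · intro b _ hb
      simp [coeff_X_pow, hb]
    · intro h; simp at h
  rwa [h2] at h1

end Pool.Agent.Work.MP_ebd05c_an.H
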